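import Mathlib

/-! CAT(0) spaces and a loop obstruction. -/

namespace Pool.Agent.R107.Cat0

open Set unitInterval

/-- `φ`, restricted to `[0,1]`, is a geodesic from `x` to `y`, parametrised proportionally to arc
length. -/
def IsGeodesic {X : Type*} [MetricSpace X] (φ : ℝ → X) (x y : X) : Prop :=
  φ 0 = x ∧ φ 1 = y ∧
    ∀ s ∈ Icc (0 : ℝ) 1, ∀ t ∈ Icc (0 : ℝ) 1, dist (φ s) (φ t) = |s - t| * dist x y

/-- The metric space `X` is CAT(0): any two points are joined by a geodesic, and for each geodesic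
triangle the distance between points of two of its sides is at most the distance between the
corresponding points of a comparison triangle in the Euclidean plane. -/
def IsCAT0 (X : Type*) [MetricSpace X] : Prop :=
  (∀ x y : X, ∃ φ : ℝ → X, IsGeodesic φ x y) ∧
  ∀ (x y z : X) (φ ψ : ℝ → X), IsGeodesic φ x y → IsGeodesic ψ x z →
    ∃ x' y' z' : EuclideanSpace ℝ (Fin 2),
      dist x' y' = dist x y ∧ dist x' z' = dist x z ∧ dist y' z' = dist y z ∧
      ∀ s ∈ Icc (0 : ℝ) 1, ∀ t ∈ Icc (0 : ℝ) 1,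
        dist (φ s) (ψ t) ≤ dist (AffineMap.lineMap x' y' s) (AffineMap.lineMap x' z' t)

theorem contraction {X : Type*} [MetricSpace X] (h : IsCAT0 X) {x y z : X} {φ ψ : ℝ → X}
    (hφ : IsGeodesic φ x y) (hψ : IsGeodesic ψ x z) {t : ℝ} (ht : t ∈ Icc (0 : ℝ) 1) :
    dist (φ t) (ψ t) ≤ dist y z := by
  obtain ⟨x', y', z', h1, h2, h3, h4⟩ := h.2 x y z φ ψ hφ hψ
  refine (h4 t ht t ht).trans ?_
  have : dist (AffineMap.lineMap x' y' t) (AffineMap.lineMap x' z' t) = |t| * dist y' z' := by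
    rw [dist_eq_norm, dist_eq_norm, AffineMap.lineMap_apply_module', AffineMap.lineMap_apply_module',
      ← Real.norm_eq_abs, ← norm_smul]
    congr 1
    module
  rw [this, h3, abs_of_nonneg ht.1]
  exact mul_le_of_le_one_left dist_nonneg ht.2

/-- An integer valued continuous real function on a preconnected space is constant. -/
theorem const_of_int {A : Type*} [TopologicalSpace A] [PreconnectedSpace A] (g : A → ℝ)
    (hg : Continuous g) (hz : ∀ a, ∃ k : ℤ, g a = k) (a b : A) : g a = g b := by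
  choose k hk using hz
  have hkc : Continuous k := by
    have h1 : Continuous fun a => ((k a : ℤ) : ℝ) := by
      have : (fun a => ((k a : ℤ) : ℝ)) = g := by ext a; rw [hk]
      rw [this]; exact hg
    exact Int.isClosedEmbedding_coe_real.isEmbedding.continuous_iff.2 h1
  have := PreconnectedSpace.constant ‹_› hkc (x := a) (y := b)
  rw [hk, hk, this]

/-- A CAT(0) space carries no continuous circle valued function with nonzero winding along a
loop. -/
theorem not_cat0 {X : Type*} [MetricSpace X] (F : X → AddCircle (1 : ℝ)) (hF : Continuous F)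
    (x : X) (γ : Path x x) (a b : ℝ) (Λ : Path a b)
    (hΛ : ∀ s, ((Λ s : ℝ) : AddCircle (1 : ℝ)) = F (γ s)) (hne : a ≠ b) : ¬ IsCAT0 X := by
  intro h
  choose φ hφ using h.1 x
  -- the homotopy
  have hcont : Continuous fun p : I × I => φ (γ p.2) (p.1 : ℝ) := by
    rw [continuous_iff_continuousAt]
    rintro ⟨t₀, s₀⟩
    rw [ContinuousAt, tendsto_iff_dist_tendsto_zero]
    have hb : ∀ p : I × I, dist (φ (γ p.2) (p.1 : ℝ)) (φ (γ s₀) (t₀ : ℝ)) ≤
        dist (γ p.2) (γ s₀) + |(p.1 : ℝ) - t₀| * dist x (γ s₀) := by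
      intro p
      refine (dist_triangle _ (φ (γ s₀) (p.1 : ℝ)) _).trans ?_
      gcongr
      · exact contraction h (hφ _) (hφ _) p.1.2
      · exact ((hφ (γ s₀)).2.2 _ p.1.2 _ t₀.2).le
    refine squeeze_zero (fun _ => dist_nonneg) hb ?_
    have : Continuous fun p : I × I => dist (γ p.2) (γ s₀) + |(p.1 : ℝ) - t₀| * dist x (γ s₀) := by
      fun_prop
    have h2 := this.tendsto (t₀, s₀)
    simpa using h2
  let H : C(I × I, AddCircle (1 : ℝ)) := ⟨fun p => F (φ (γ p.2) (p.1 : ℝ)), hF.comp hcont⟩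
  have cov := AddCircle.isCoveringMap_coe (1 : ℝ)
  obtain ⟨e, he⟩ := QuotientAddGroup.mk_surjective (F x)
  have H0 : ∀ s, H (0, s) = ((ContinuousMap.const I e : C(I, ℝ)) s : AddCircle (1 : ℝ)) := by
    intro s
    change F (φ (γ s) ((0 : I) : ℝ)) = _
    rw [Set.Icc.coe_zero, (hφ (γ s)).1]
    exact he.symm
  let G := cov.liftHomotopy H (ContinuousMap.const I e) H0
  have hG : ∀ p, ((G p : ℝ) : AddCircle (1 : ℝ)) = H p := fun p =>
    congr_fun (cov.liftHomotopy_lifts H (ContinuousMap.const I e) H0) p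
  have hG0 : ∀ s, G (0, s) = e := fun s => cov.liftHomotopy_zero H (ContinuousMap.const I e) H0 s
  have hint : ∀ u v : ℝ, ((u : ℝ) : AddCircle (1 : ℝ)) = v → ∃ k : ℤ, u - v = k := by
    intro u v huv
    have h0 : ((u - v : ℝ) : AddCircle (1 : ℝ)) = 0 := by rw [AddCircle.coe_sub, huv, sub_self]
    obtain ⟨k, hk⟩ := (AddCircle.coe_eq_zero_iff (1 : ℝ)).1 h0
    exact ⟨k, by rw [← hk]; simp⟩
  -- ends of the loop
  have e1 : G (1, 1) - G (1, 0) = G (0, 1) - G (0, 0) := by
    refine const_of_int (fun t : I => G (t, 1) - G (t, 0)) (by fun_prop) ?_ 1 0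
    intro t
    apply hint
    rw [hG, hG]
    change F (φ (γ 1) t) = F (φ (γ 0) t)
    rw [γ.source, γ.target]
  rw [hG0, hG0, sub_self] at e1
  have e2 : G (1, 1) - Λ 1 = G (1, 0) - Λ 0 := by
    refine const_of_int (fun s : I => G (1, s) - Λ s) (by fun_prop) ?_ 1 0
    intro s
    apply hint
    rw [hG, hΛ]
    change F (φ (γ s) ((1 : I) : ℝ)) = F (γ s)
    rw [Set.Icc.coe_one, (hφ (γ s)).2.1]
  rw [Λ.source, Λ.target] at e2
  apply hne
  linarith

end Pool.Agent.R107.Cat0
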