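import Mathlib
import Pool.Agent.R107.Cat0

/-! Configuration spaces of robotic arms in a tunnel, as metric cube complexes. -/

namespace Pool.Agent.R107.Arm

open Set

/-- The four unit steps: up, down, right, left. -/
inductive Step
  | U | D | R | L
  deriving DecidableEq

instance : Fintype Step := ⟨{.U, .D, .R, .L}, by intro x; cases x <;> simp⟩

/-- The vector of a step. -/
def Step.vec : Step → ℤ × ℤ
  | .U => (0, 1)
  | .D => (0, -1)
  | .R => (1, 0)
  | .L => (-1, 0)

/-- Two steps are perpendicular. -/
def Perp (a b : Step) : Prop := a.vec.1 * b.vec.1 + a.vec.2 * b.vec.2 = 0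

instance (a b : Step) : Decidable (Perp a b) := inferInstanceAs (Decidable (_ = _))

/-- A word of `n` steps (the links of the arm, from the pinned one to the last one). -/
abbrev Word (n : ℕ) := Fin n → Step

/-- The joint number `k` of the arm: the sum of the first `k` steps. -/
def joint {n : ℕ} (w : Word n) (k : ℕ) : ℤ × ℤ := ∑ i : Fin n, if i.val < k then (w i).vec else 0

/-- `w` is a state: the lattice path stays in the tunnel `x ≥ 0`, `0 ≤ y ≤ m` and visits `n + 1`
distinct points. -/
def IsState (m : ℕ) {n : ℕ} (w : Word n) : Prop :=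
  (∀ k ≤ n, 0 ≤ (joint w k).1 ∧ 0 ≤ (joint w k).2 ∧ (joint w k).2 ≤ m) ∧
  ∀ j ≤ n, ∀ k ≤ n, joint w j = joint w k → j = k

/-- The moves: `switch i j` exchanges the links `i` and `j = i + 1`, `flip i d` replaces the last
link (number `i = n - 1`) by the step `d`. -/
inductive Move (n : ℕ)
  | switch (i j : Fin n)
  | flip (i : Fin n) (d : Step)
  deriving DecidableEq, Fintype

/-- The result of a move. -/
def act {n : ℕ} (w : Word n) : Move n → Word n
  | .switch i j => w ∘ Equiv.swap i j
  | .flip i d => Function.update w i d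

/-- The shape condition on a move: `switch` is for consecutive perpendicular links, `flip`
replaces the last link by a perpendicular step. -/
def Applicable {n : ℕ} (w : Word n) : Move n → Prop
  | .switch i j => j.val = i.val + 1 ∧ Perp (w i) (w j)
  | .flip i d => i.val + 1 = n ∧ Perp (w i) d

instance {n : ℕ} (w : Word n) (a : Move n) : Decidable (Applicable w a) := by
  cases a <;> unfold Applicable <;> infer_instance

/-- The links changed by a move. -/
def links {n : ℕ} : Move n → Finset (Fin n)
  | .switch i j => {i, j}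
  | .flip i _ => {i}

/-- `w'` arises from `w` by a legal move. -/
def LegalMove (m : ℕ) {n : ℕ} (w w' : Word n) : Prop :=
  IsState m w ∧ IsState m w' ∧ ∃ a, Applicable w a ∧ act w a = w'

/-- The states reachable from the fully horizontal state by legal moves. -/
def V (m n : ℕ) : Set (Word n) := {w | Relation.ReflTransGen (LegalMove m) (fun _ => Step.R) w}

/-- The moves in `S`, made at the state `u`, span a cube: they are applicable at `u`, they change
pairwise disjoint sets of links, and performing any of them, in any order, gives a state which does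
not depend on the order. -/
structure IsCube (m : ℕ) {n : ℕ} (u : Word n) (S : Finset (Move n)) : Prop where
  base : u ∈ V m n
  app : ∀ a ∈ S, Applicable u a
  disj : ∀ a ∈ S, ∀ b ∈ S, a ≠ b → Disjoint (links a) (links b)
  legal : ∀ l : List (Move n), l.Nodup → (∀ a ∈ l, a ∈ S) → IsState m (l.foldl act u)
  indep : ∀ l l' : List (Move n), l.Perm l' → l.Nodup → (∀ a ∈ l, a ∈ S) →
    l.foldl act u = l'.foldl act u

/-- A lattice point as a point of the plane. -/
def toR (p : ℤ × ℤ) : ℝ × ℝ := (p.1, p.2)

/-- The point with coordinates `t` of the cube spanned at `u` by the moves in `S`, realised by the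
positions of the joints of the arm: joint `k` is at `joint u k` plus `t a` times its displacement
under the move `a`, summed over `a ∈ S`. -/
noncomputable def ev {n : ℕ} (u : Word n) (S : Finset (Move n)) (t : Move n → ℝ)
    (k : Fin (n + 1)) : ℝ × ℝ :=
  toR (joint u k) + ∑ a ∈ S, t a • toR (joint (act u a) k - joint u k)

/-- The configuration space: the union of all cubes. -/
def Conf (m n : ℕ) : Type :=
  {x : Fin (n + 1) → ℝ × ℝ //
    ∃ (u : Word n) (S : Finset (Move n)) (t : Move n → ℝ),
      IsCube m u S ∧ (∀ a, t a ∈ Icc (0 : ℝ) 1) ∧ x = ev u S t}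

/-- `x` and `y` lie in a common (unit) cube, at distance `r` in this cube. -/
def InCube {m n : ℕ} (x y : Conf m n) (r : ℝ) : Prop :=
  ∃ (u : Word n) (S : Finset (Move n)) (t t' : Move n → ℝ),
    IsCube m u S ∧ (∀ a, t a ∈ Icc (0 : ℝ) 1) ∧ (∀ a, t' a ∈ Icc (0 : ℝ) 1) ∧
    x.1 = ev u S t ∧ y.1 = ev u S t' ∧ r = √(∑ a ∈ S, (t a - t' a) ^ 2)

/-- There is a chain of total length `r` from `x` to `y` whose consecutive points lie in a common
cube. -/
inductive Chain {m n : ℕ} : Conf m n → Conf m n → ℝ → Prop
  | nil (x : Conf m n) : Chain x x 0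
  | cons {x y z : Conf m n} {r s : ℝ} : InCube x y r → Chain y z s → Chain x z (r + s)

/-- The induced length metric: the infimum of the lengths of the chains from `x` to `y`. -/
noncomputable def len {m n : ℕ} (x y : Conf m n) : ℝ := sInf {r | Chain x y r}

theorem InCube.nonneg {m n : ℕ} {x y : Conf m n} {r : ℝ} (h : InCube x y r) : 0 ≤ r := by
  obtain ⟨u, S, t, t', -, -, -, -, -, rfl⟩ := h
  exact Real.sqrt_nonneg _

theorem InCube.symm {m n : ℕ} {x y : Conf m n} {r : ℝ} (h : InCube x y r) : InCube y x r := by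
  obtain ⟨u, S, t, t', h1, h2, h3, h4, h5, rfl⟩ := h
  refine ⟨u, S, t', t, h1, h3, h2, h5, h4, ?_⟩
  congr 1
  exact Finset.sum_congr rfl fun a _ => by ring

theorem Chain.nonneg {m n : ℕ} {x y : Conf m n} {r : ℝ} (h : Chain x y r) : 0 ≤ r := by
  induction h with
  | nil => exact le_rfl
  | cons h _ ih => exact add_nonneg h.nonneg ih

theorem Chain.single {m n : ℕ} {x y : Conf m n} {r : ℝ} (h : InCube x y r) : Chain x y r := by
  simpa using Chain.cons h (Chain.nil y)

theorem Chain.trans {m n : ℕ} {x y z : Conf m n} {r s : ℝ} (h : Chain x y r) (h' : Chain y z s) :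
    Chain x z (r + s) := by
  induction h with
  | nil => simpa using h'
  | cons h _ ih =>
    rw [add_assoc]
    exact Chain.cons h (ih h')

theorem Chain.symm {m n : ℕ} {x y : Conf m n} {r : ℝ} (h : Chain x y r) : Chain y x r := by
  induction h with
  | nil => exact Chain.nil _
  | cons h _ ih =>
    rw [add_comm]
    exact ih.trans (Chain.single h.symm)

theorem isState_of_mem {m n : ℕ} {w : Word n} (h : w ∈ V m n)
    (h0 : IsState m (fun _ : Fin n => Step.R)) : IsState m w := by
  induction h with
  | refl => exact h0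
  | tail _ h _ => exact h.2.1

/-- The vertex of the configuration space given by a reachable state, or any point of a cube. -/
noncomputable def mk {m n : ℕ} (u : Word n) (S : Finset (Move n)) (hc : IsCube m u S)
    (t : Move n → ℝ) (ht : ∀ a, t a ∈ Icc (0 : ℝ) 1) : Conf m n := ⟨ev u S t, u, S, t, hc, ht, rfl⟩

theorem inCube_mk {m n : ℕ} (u : Word n) (S : Finset (Move n)) (hc : IsCube m u S)
    (t : Move n → ℝ) (ht : ∀ a, t a ∈ Icc (0 : ℝ) 1) (t' : Move n → ℝ)
    (ht' : ∀ a, t' a ∈ Icc (0 : ℝ) 1) :
    InCube (mk u S hc t ht) (mk u S hc t' ht') (√(∑ a ∈ S, (t a - t' a) ^ 2)) :=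
  ⟨u, S, t, t', hc, ht, ht', rfl, rfl, rfl⟩

/-- A single applicable legal move gives an edge. -/
theorem isCube_single {m n : ℕ} {u : Word n} (hu : u ∈ V m n) (hs : IsState m u) (a : Move n)
    (ha : Applicable u a) (hs' : IsState m (act u a)) : IsCube m u {a} := by
  have key : ∀ l : List (Move n), l.Nodup → (∀ b ∈ l, b ∈ ({a} : Finset (Move n))) →
      l = [] ∨ l = [a] := by
    intro l hn hl
    match l, hn, hl with
    | [], _, _ => exact Or.inl rfl
    | [b], _, hl =>
      right
      have := hl b (by simp)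
      rw [Finset.mem_singleton] at this
      rw [this]
    | b :: c :: l, hn, hl =>
      exfalso
      have h1 := hl b (by simp)
      have h2 := hl c (by simp)
      rw [Finset.mem_singleton] at h1 h2
      rw [h1, h2] at hn
      simp at hn
  refine ⟨hu, ?_, ?_, ?_, ?_⟩
  · intro b hb
    rw [Finset.mem_singleton] at hb
    rw [hb]; exact ha
  · intro b hb c hc hbc
    rw [Finset.mem_singleton] at hb hc
    exact absurd (hb.trans hc.symm) hbc
  · intro l hn hl
    rcases key l hn hl with rfl | rfl
    · exact hs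
    · exact hs'
  · intro l l' hp hn hl
    rcases key l hn hl with rfl | rfl
    · rw [List.nil_perm.1 hp]
    · rw [List.singleton_perm.1 hp]

theorem isCube_empty {m n : ℕ} {u : Word n} (hu : u ∈ V m n) (hs : IsState m u) :
    IsCube m u (∅ : Finset (Move n)) := by
  have key : ∀ l : List (Move n), (∀ b ∈ l, b ∈ (∅ : Finset (Move n))) → l = [] := by
    intro l hl
    match l, hl with
    | [], _ => rfl
    | b :: l, hl => exact absurd (hl b (by simp)) (by simp)
  refine ⟨hu, by simp, by simp, ?_, ?_⟩
  · intro l _ hl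
    rw [key l hl]; exact hs
  · intro l l' hp _ hl
    rw [key l hl] at hp ⊢
    rw [List.nil_perm.1 hp]

/-- The vertex of a reachable state. -/
noncomputable def vert {m n : ℕ} (u : Word n) (hu : u ∈ V m n) (hs : IsState m u) : Conf m n :=
  mk u ∅ (isCube_empty hu hs) (fun _ => 0) (fun _ => ⟨le_rfl, zero_le_one⟩)

theorem vert_val {m n : ℕ} (u : Word n) (hu : u ∈ V m n) (hs : IsState m u) :
    (vert u hu hs).1 = fun k : Fin (n + 1) => toR (joint u k) := by
  funext k
  simp [vert, mk, ev]

theorem toR_sub (p q : ℤ × ℤ) : toR (p - q) = toR p - toR q := by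
  simp [toR]

theorem mk_zero {m n : ℕ} (u : Word n) (S : Finset (Move n)) (hc : IsCube m u S)
    (hu : u ∈ V m n) (hs : IsState m u) (t : Move n → ℝ) (ht : ∀ a, t a ∈ Icc (0 : ℝ) 1)
    (h0 : ∀ a ∈ S, t a = 0) : mk u S hc t ht = vert u hu hs := by
  apply Subtype.ext
  rw [vert_val]
  funext k
  change toR (joint u k) + ∑ a ∈ S, t a • toR (joint (act u a) k - joint u k) = _
  rw [Finset.sum_eq_zero, add_zero]
  intro a ha
  rw [h0 a ha, zero_smul]

theorem mk_one {m n : ℕ} (u : Word n) (a : Move n) (hc : IsCube m u {a})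
    (hu : act u a ∈ V m n) (hs : IsState m (act u a)) (t : Move n → ℝ)
    (ht : ∀ b, t b ∈ Icc (0 : ℝ) 1)
    (h1 : t a = 1) : mk u {a} hc t ht = vert (act u a) hu hs := by
  apply Subtype.ext
  rw [vert_val]
  funext k
  change toR (joint u k) + ∑ b ∈ {a}, t b • toR (joint (act u b) k - joint u k) = _
  rw [Finset.sum_singleton, h1, one_smul, toR_sub]
  abel

/-- Every reachable vertex is joined to the base vertex by a chain. -/
theorem chain_base {m n : ℕ} (h0 : IsState m (fun _ : Fin n => Step.R))
    (hb : (fun _ : Fin n => Step.R) ∈ V m n) {w : Word n} (hw : w ∈ V m n) :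
    ∀ hs : IsState m w, ∃ r, Chain (vert _ hb h0) (vert w hw hs) r := by
  induction hw with
  | refl => intro hs; exact ⟨0, Chain.nil _⟩
  | @tail b c hb' hbc ih =>
    intro hs
    obtain ⟨h1, h2, a, ha, rfl⟩ := hbc
    obtain ⟨r, hr⟩ := ih h1
    have hc := isCube_single hb' h1 a ha h2
    have e := inCube_mk b {a} hc (fun _ => 0) (fun _ => ⟨le_rfl, zero_le_one⟩) (fun _ => 1)
      (fun _ => ⟨zero_le_one, le_rfl⟩)
    rw [mk_zero b {a} hc hb' h1 (fun _ => 0) (fun _ => ⟨le_rfl, zero_le_one⟩) (fun _ _ => rfl),
      mk_one b a hc (hb'.tail ⟨h1, h2, a, ha, rfl⟩) h2 (fun _ => 1)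
        (fun _ => ⟨zero_le_one, le_rfl⟩) rfl] at e
    exact ⟨_, hr.trans (Chain.single e)⟩

theorem joint_R {n : ℕ} {k : ℕ} (hk : k ≤ n) : joint (fun _ : Fin n => Step.R) k = ((k : ℤ), 0) := by
  have h1 : (Finset.univ.filter fun i : Fin n => i.val < k).card = k := by
    rcases Nat.lt_or_ge k n with h | h
    · have : (Finset.univ.filter fun i : Fin n => i.val < k) = Finset.Iio ⟨k, h⟩ := by
        ext i; simp [Fin.lt_def]
      rw [this, Fin.card_Iio]
    · have hkn : k = n := le_antisymm hk h
      subst hkn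
      rw [Finset.filter_true_of_mem (fun i _ => i.2)]
      simp
  unfold joint
  rw [← Finset.sum_filter, Finset.sum_const, h1]
  simp [Step.vec]

theorem isState_R (m n : ℕ) : IsState m (fun _ : Fin n => Step.R) := by
  constructor
  · intro k hk
    rw [joint_R hk]
    simp
  · intro j hj k hk h
    rw [joint_R hj, joint_R hk] at h
    simpa using h

theorem chain_exists {m n : ℕ} (x y : Conf m n) :
    ∃ r, Chain x y r := by
  have h0 := isState_R m n
  have hb : (fun _ : Fin n => Step.R) ∈ V m n := Relation.ReflTransGen.refl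
  have key : ∀ x : Conf m n, ∃ r, Chain (vert _ hb h0) x r := by
    rintro ⟨x, u, S, t, hc, ht, rfl⟩
    have hs := isState_of_mem hc.base h0
    obtain ⟨r, hr⟩ := chain_base h0 hb hc.base hs
    have e := inCube_mk u S hc (fun _ => 0) (fun _ => ⟨le_rfl, zero_le_one⟩) t ht
    rw [mk_zero u S hc hc.base hs (fun _ => 0) (fun _ => ⟨le_rfl, zero_le_one⟩)
      (fun _ _ => rfl)] at e
    exact ⟨_, hr.trans (Chain.single e)⟩
  obtain ⟨r, hr⟩ := key x
  obtain ⟨s, hs⟩ := key y
  exact ⟨_, hr.symm.trans hs⟩

theorem joint_switch {n : ℕ} (w : Word n) (i j : Fin n) (hij : j.val = i.val + 1) (k : ℕ) :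
    joint (act w (.switch i j)) k = joint w k + (if k = j.val then (w j).vec - (w i).vec else 0) := by
  have hne : i ≠ j := by
    intro h
    rw [h] at hij
    omega
  have h1 : joint (act w (.switch i j)) k - joint w k =
      ∑ l ∈ ({i, j} : Finset (Fin n)), ((if l.val < k then (w (Equiv.swap i j l)).vec else 0) -
        (if l.val < k then (w l).vec else 0)) := by
    unfold joint act
    rw [← Finset.sum_sub_distrib]
    symm
    apply Finset.sum_subset (Finset.subset_univ _)
    intro l _ hl
    simp only [Finset.mem_insert, Finset.mem_singleton, not_or] at hl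
    rw [Equiv.swap_apply_of_ne_of_ne hl.1 hl.2, sub_self]
  rw [Finset.sum_pair hne, Equiv.swap_apply_left, Equiv.swap_apply_right] at h1
  rw [← sub_eq_iff_eq_add', h1]
  by_cases hk : k = j.val
  · rw [if_pos (by omega), if_pos (by omega), if_neg (by omega), if_neg (by omega), if_pos hk]
    abel
  · rw [if_neg hk]
    by_cases hk2 : i.val < k
    · rw [if_pos hk2, if_pos hk2, if_pos (by omega), if_pos (by omega)]
      abel
    · rw [if_neg hk2, if_neg hk2, if_neg (by omega), if_neg (by omega)]
      abel

theorem joint_flip {n : ℕ} (w : Word n) (i : Fin n) (d : Step) (k : ℕ) :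
    joint (act w (.flip i d)) k = joint w k + (if i.val < k then d.vec - (w i).vec else 0) := by
  have h1 : joint (act w (.flip i d)) k - joint w k =
      ∑ l ∈ ({i} : Finset (Fin n)), ((if l.val < k then (Function.update w i d l).vec else 0) -
        (if l.val < k then (w l).vec else 0)) := by
    unfold joint act
    rw [← Finset.sum_sub_distrib]
    symm
    apply Finset.sum_subset (Finset.subset_univ _)
    intro l _ hl
    simp only [Finset.mem_singleton] at hl
    rw [Function.update_of_ne hl, sub_self]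
  rw [Finset.sum_singleton, Function.update_self] at h1
  rw [← sub_eq_iff_eq_add', h1]
  split_ifs <;> simp

theorem perp_abs {a b : Step} (h : Perp a b) :
    |(b.vec - a.vec).1| ≤ 1 ∧ |(b.vec - a.vec).2| ≤ 1 := by
  revert h
  cases a <;> cases b <;> decide

theorem disp_abs {n : ℕ} {w : Word n} {a : Move n} (ha : Applicable w a) (k : ℕ) :
    |(joint (act w a) k - joint w k).1| ≤ 1 ∧ |(joint (act w a) k - joint w k).2| ≤ 1 := by
  cases a with
  | switch i j =>
    rw [joint_switch w i j ha.1, add_sub_cancel_left]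
    split_ifs
    · exact perp_abs ha.2
    · simp
  | flip i d =>
    rw [joint_flip, add_sub_cancel_left]
    split_ifs
    · exact perp_abs ha.2
    · simp

theorem InCube.lower {m n : ℕ} {x y : Conf m n} {r : ℝ} (h : InCube x y r) (k : Fin (n + 1)) :
    |(x.1 k).1 - (y.1 k).1| ≤ Fintype.card (Move n) * r ∧
    |(x.1 k).2 - (y.1 k).2| ≤ Fintype.card (Move n) * r := by
  obtain ⟨u, S, t, t', hc, -, -, hx, hy, rfl⟩ := h
  have hr : 0 ≤ √(∑ a ∈ S, (t a - t' a) ^ 2) := Real.sqrt_nonneg _
  have hle : ∀ a ∈ S, |t a - t' a| ≤ √(∑ a ∈ S, (t a - t' a) ^ 2) := by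
    intro a ha
    apply Real.abs_le_sqrt
    exact Finset.single_le_sum (f := fun a => (t a - t' a) ^ 2) (fun b _ => sq_nonneg _) ha
  have hcard : (S.card : ℝ) ≤ Fintype.card (Move n) := by
    exact_mod_cast Finset.card_le_univ S
  have key : ∀ g : Move n → ℝ, (∀ a ∈ S, |g a| ≤ 1) →
      |∑ a ∈ S, t a * g a - ∑ a ∈ S, t' a * g a| ≤
        Fintype.card (Move n) * √(∑ a ∈ S, (t a - t' a) ^ 2) := by
    intro g hg
    rw [← Finset.sum_sub_distrib]
    calc |∑ a ∈ S, (t a * g a - t' a * g a)| ≤ ∑ a ∈ S, |t a * g a - t' a * g a| :=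
          Finset.abs_sum_le_sum_abs _ _
      _ ≤ ∑ a ∈ S, √(∑ a ∈ S, (t a - t' a) ^ 2) := by
          apply Finset.sum_le_sum
          intro a ha
          rw [← sub_mul, abs_mul]
          calc |t a - t' a| * |g a| ≤ |t a - t' a| * 1 := by
                gcongr
                exact hg a ha
            _ ≤ _ := by rw [mul_one]; exact hle a ha
      _ = S.card * √(∑ a ∈ S, (t a - t' a) ^ 2) := by rw [Finset.sum_const, nsmul_eq_mul]
      _ ≤ _ := by gcongr
  have e1 : ∀ t : Move n → ℝ, (ev u S t k).1 = (joint u k).1 +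
      ∑ a ∈ S, t a * (((joint (act u a) k - joint u k).1 : ℤ) : ℝ) := by
    intro t
    simp only [ev, toR, Prod.fst_add, Prod.fst_sum, Prod.smul_fst, smul_eq_mul]
  have e2 : ∀ t : Move n → ℝ, (ev u S t k).2 = (joint u k).2 +
      ∑ a ∈ S, t a * (((joint (act u a) k - joint u k).2 : ℤ) : ℝ) := by
    intro t
    simp only [ev, toR, Prod.snd_add, Prod.snd_sum, Prod.smul_snd, smul_eq_mul]
  rw [hx, hy, e1, e1, e2, e2, add_sub_add_left_eq_sub, add_sub_add_left_eq_sub]
  refine ⟨key _ fun a ha => ?_, key _ fun a ha => ?_⟩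
  · exact_mod_cast (disp_abs (hc.app a ha) k).1
  · exact_mod_cast (disp_abs (hc.app a ha) k).2

theorem Chain.lower {m n : ℕ} {x y : Conf m n} {r : ℝ} (h : Chain x y r) (k : Fin (n + 1)) :
    |(x.1 k).1 - (y.1 k).1| ≤ Fintype.card (Move n) * r ∧
    |(x.1 k).2 - (y.1 k).2| ≤ Fintype.card (Move n) * r := by
  induction h with
  | nil => simp
  | @cons x y z r s h _ ih =>
    have h1 := h.lower k
    rw [mul_add]
    exact ⟨(abs_sub_le _ (y.1 k).1 _).trans (add_le_add h1.1 ih.1),
      (abs_sub_le _ (y.1 k).2 _).trans (add_le_add h1.2 ih.2)⟩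

theorem bddBelow {m n : ℕ} (x y : Conf m n) : BddBelow {r | Chain x y r} :=
  ⟨0, fun _ h => Chain.nonneg h⟩

theorem len_le {m n : ℕ} {x y : Conf m n} {r : ℝ} (h : Chain x y r) : len x y ≤ r :=
  csInf_le (bddBelow x y) h

theorem len_nonneg {m n : ℕ} (x y : Conf m n) : 0 ≤ len x y :=
  Real.sInf_nonneg fun _ h => Chain.nonneg h

/-- The metric space structure given by the induced length metric. -/
noncomputable instance (m n : ℕ) : MetricSpace (Conf m n) where
  dist := len
  dist_self x := le_antisymm (len_le (Chain.nil x)) (len_nonneg x x)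
  dist_comm x y := by
    have : {r | Chain x y r} = {r | Chain y x r} := by
      ext r
      exact ⟨Chain.symm, Chain.symm⟩
    change sInf {r | Chain x y r} = sInf {r | Chain y x r}
    rw [this]
  dist_triangle x y z := by
    apply le_of_forall_pos_lt_add
    intro ε hε
    obtain ⟨r, hr, hr2⟩ := exists_lt_of_csInf_lt (chain_exists x y)
      (show sInf {r | Chain x y r} < len x y + ε / 2 by change len x y < _; linarith)
    obtain ⟨s, hs, hs2⟩ := exists_lt_of_csInf_lt (chain_exists y z)
      (show sInf {r | Chain y z r} < len y z + ε / 2 by change len y z < _; linarith)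
    have := len_le (Chain.trans hr hs)
    linarith
  eq_of_dist_eq_zero {x y} h := by
    change len x y = 0 at h
    have hz : ∀ k : Fin (n + 1), ∀ ε > 0, |(x.1 k).1 - (y.1 k).1| ≤ ε ∧
        |(x.1 k).2 - (y.1 k).2| ≤ ε := by
      intro k ε hε
      have hK : (0 : ℝ) < Fintype.card (Move n) + 1 := by positivity
      obtain ⟨r, hr, hr2⟩ := exists_lt_of_csInf_lt (chain_exists x y)
        (show sInf {r | Chain x y r} < ε / (Fintype.card (Move n) + 1) by
          change len x y < _; rw [h]; positivity)
      have h1 := Chain.lower hr k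
      have h0 : 0 ≤ r := Chain.nonneg hr
      have h2 : Fintype.card (Move n) * r ≤ ε := by
        have h3 : (Fintype.card (Move n) + 1 : ℝ) * r < ε := by
          rw [lt_div_iff₀ hK] at hr2
          linarith
        nlinarith
      exact ⟨h1.1.trans h2, h1.2.trans h2⟩
    apply Subtype.ext
    funext k
    apply Prod.ext
    · have := le_of_forall_pos_le_add (a := |(x.1 k).1 - (y.1 k).1|) (b := 0)
        fun ε hε => by rw [zero_add]; exact (hz k ε hε).1
      have := abs_nonpos_iff.1 this
      linarith
    · have := le_of_forall_pos_le_add (a := |(x.1 k).2 - (y.1 k).2|) (b := 0)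
        fun ε hε => by rw [zero_add]; exact (hz k ε hε).2
      have := abs_nonpos_iff.1 this
      linarith

theorem dist_def {m n : ℕ} (x y : Conf m n) : dist x y = len x y := rfl

end Pool.Agent.R107.Arm
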