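import Mathlib
import Pool.Agent.R107.Cat0
import Pool.Agent.R107.Arm

/-! The circle valued function on the configuration space with `m = 8`, `n = 15`. -/

namespace Pool.Agent.R107.Arm

open Set

abbrev C := Conf 8 15

/-- The open segment between `(2,1)` and `(3,2)`. -/
def OnSeg (p : ℝ × ℝ) : Prop := 2 < p.1 ∧ p.1 < 3 ∧ p.2 = p.1 - 1

def Cond (x : Fin (15 + 1) → ℝ × ℝ) : Prop := x 3 = (3, 0) ∧ OnSeg (x 15)

open Classical in
noncomputable def F (x : C) : AddCircle (1 : ℝ) :=
  if Cond x.1 then (((x.1 15).1 - 2 : ℝ) : AddCircle (1 : ℝ)) else 0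

/-- The moves changing joint 15 are the flips. -/
theorem flip_val {u : Word 15} {i : Fin 15} {d : Step} (h : Applicable u (.flip i d)) : i = 14 := by
  have := h.1
  ext
  simp
  omega

theorem joint15_switch {u : Word 15} {i j : Fin 15} (h : Applicable u (.switch i j)) :
    joint (act u (.switch i j)) 15 = joint u 15 := by
  rw [joint_switch u i j h.1, if_neg (by have := j.2; omega), add_zero]

theorem joint15_flip (u : Word 15) (d : Step) :
    joint (act u (.flip 14 d)) 15 = joint u 15 + (d.vec - (u 14).vec) := by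
  rw [joint_flip, if_pos (by decide)]

theorem joint3_flip (u : Word 15) (d : Step) :
    joint (act u (.flip 14 d)) 3 = joint u 3 := by
  rw [joint_flip, if_neg (by decide), add_zero]

theorem joint3_switch_ne {u : Word 15} {i j : Fin 15} (h : Applicable u (.switch i j))
    (hne : Move.switch i j ≠ .switch 2 3) :
    joint (act u (.switch i j)) 3 = joint u 3 := by
  rw [joint_switch u i j h.1, if_neg, add_zero]
  intro h3
  apply hne
  have h1 := h.1
  have hj : j = 3 := by ext; simp; omega
  have hi : i = 2 := by ext; simp; omega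
  rw [hi, hj]

theorem joint3_switch (u : Word 15) :
    joint (act u (.switch 2 3)) 3 = joint u 3 + ((u 3).vec - (u 2).vec) := by
  rw [joint_switch u 2 3 (by decide), if_pos (by decide)]

theorem joint15_switch' (u : Word 15) :
    joint (act u (.switch 2 3)) 15 = joint u 15 := by
  rw [joint_switch u 2 3 (by decide), if_neg (by decide), add_zero]

/-- joint 3 is not displaced by moves other than `switch 2 3`. -/
theorem joint3_ne {u : Word 15} {a : Move 15} (h : Applicable u a) (hne : a ≠ .switch 2 3) :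
    joint (act u a) 3 = joint u 3 := by
  cases a with
  | switch i j => exact joint3_switch_ne h hne
  | flip i d =>
    rw [flip_val h]
    exact joint3_flip u d

theorem parity (u : Word 15) : ((((joint u 15).1 + (joint u 15).2 : ℤ)) : ZMod 2) = 1 := by
  unfold joint
  rw [Prod.fst_sum, Prod.snd_sum, ← Finset.sum_add_distrib]
  push_cast
  have : ∀ i : Fin 15, ((((if i.val < 15 then (u i).vec else 0 : ℤ × ℤ).1 : ℤ) : ZMod 2) +
      (((if i.val < 15 then (u i).vec else 0 : ℤ × ℤ).2 : ℤ) : ZMod 2)) = 1 := by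
    intro i
    rw [if_pos i.2]
    cases u i <;> decide
  rw [Finset.sum_congr rfl fun i _ => this i]
  decide

theorem parity' (u : Word 15) : ((joint u 15).1 + (joint u 15).2) % 2 = 1 := by
  have h := parity u
  have h2 : (((joint u 15).1 + (joint u 15).2 : ℤ) : ZMod 2) = ((1 : ℤ) : ZMod 2) := by
    rw [h]; simp
  have := (ZMod.intCast_eq_intCast_iff _ _ 2).1 h2
  have h3 := Int.ModEq.eq this
  simpa using h3

/-- `joint u 3 = (3,0)` means that the arm starts with `RRR`. -/
theorem joint3_eq (u : Word 15) : joint u 3 = (u 0).vec + (u 1).vec + (u 2).vec := by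
  unfold joint
  simp only [Fin.sum_univ_succ]
  simp
  have h1 : ((Fin.succ 1 : Fin 15)) = 2 := rfl
  abel_nf

theorem toR_add (p q : ℤ × ℤ) : toR (p + q) = toR p + toR q := by
  simp [toR]

theorem ev15_none {u : Word 15} {S : Finset (Move 15)} (hc : IsCube 8 u S)
    (hno : ∀ d, Move.flip 14 d ∉ S) (t : Move 15 → ℝ) : ev u S t 15 = toR (joint u 15) := by
  change toR (joint u 15) + ∑ a ∈ S, t a • toR (joint (act u a) 15 - joint u 15) = _
  rw [Finset.sum_eq_zero, add_zero]
  intro a ha
  have h := hc.app a ha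
  cases a with
  | switch i j => rw [joint15_switch h, sub_self]; simp [toR]
  | flip i d =>
    rw [flip_val h] at ha
    exact absurd ha (hno d)

theorem ev15_flip {u : Word 15} {S : Finset (Move 15)} (hc : IsCube 8 u S) {d : Step}
    (hd : Move.flip 14 d ∈ S) (t : Move 15 → ℝ) :
    ev u S t 15 = toR (joint u 15) + t (.flip 14 d) • toR (d.vec - (u 14).vec) := by
  change toR (joint u 15) + ∑ a ∈ S, t a • toR (joint (act u a) 15 - joint u 15) = _
  rw [Finset.sum_eq_single_of_mem _ hd, joint15_flip, add_sub_cancel_left]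
  intro b hb hne
  have h := hc.app b hb
  cases b with
  | switch i j => rw [joint15_switch h, sub_self]; simp [toR]
  | flip i e =>
    rw [flip_val h] at hb hne
    have := hc.disj _ hb _ hd hne
    simp [links] at this

theorem ev3_none {u : Word 15} {S : Finset (Move 15)} (hc : IsCube 8 u S)
    (hno : Move.switch 2 3 ∉ S) (t : Move 15 → ℝ) : ev u S t 3 = toR (joint u 3) := by
  change toR (joint u 3) + ∑ a ∈ S, t a • toR (joint (act u a) 3 - joint u 3) = _
  rw [Finset.sum_eq_zero, add_zero]
  intro a ha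
  rw [joint3_ne (hc.app a ha) (fun h => hno (h ▸ ha)), sub_self]
  simp [toR]

theorem ev3_switch {u : Word 15} {S : Finset (Move 15)} (hc : IsCube 8 u S)
    (hd : Move.switch 2 3 ∈ S) (t : Move 15 → ℝ) :
    ev u S t 3 = toR (joint u 3) + t (.switch 2 3) • toR ((u 3).vec - (u 2).vec) := by
  change toR (joint u 3) + ∑ a ∈ S, t a • toR (joint (act u a) 3 - joint u 3) = _
  rw [Finset.sum_eq_single_of_mem _ hd, joint3_switch, add_sub_cancel_left]
  intro b hb hne
  rw [joint3_ne (hc.app b hb) hne, sub_self]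
  simp [toR]

theorem fin1 : ∀ a0 a1 a2 a3 : Step, Perp a2 a3 → a0.vec + a1.vec + a2.vec = (3, 0) →
    0 ≤ (a0.vec + a1.vec + a2.vec + (a3.vec - a2.vec)).2 →
    a0.vec + a1.vec + a2.vec + (a3.vec - a2.vec) = (2, 1) := by decide

theorem fin2 : ∀ a0 a1 a2 a3 : Step, Perp a2 a3 →
    a0.vec + a1.vec + a2.vec + (a3.vec - a2.vec) = (3, 0) →
    0 ≤ (a0.vec + a1.vec + a2.vec).2 →
    a0.vec + a1.vec + a2.vec = (2, 1) := by decide

theorem perp_cases : ∀ a b : Step, Perp a b →
    b.vec - a.vec = (1, 1) ∨ b.vec - a.vec = (-1, -1) ∨ b.vec - a.vec = (1, -1) ∨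
    b.vec - a.vec = (-1, 1) := by decide

/-- No legal state has joint 3 and the tip both at `(2,1)`. -/
theorem no_coll {w : Word 15} (h : IsState 8 w) (h3 : joint w 3 = (2, 1))
    (h15 : joint w 15 = (2, 1)) : False := by
  have := h.2 3 (by norm_num) 15 (by norm_num) (h3.trans h15.symm)
  omega

theorem real_geom {X Y : ℤ} (hp : (X + Y) % 2 = 1) {τ : ℝ} (h0 : 0 ≤ τ) (h1 : τ ≤ 1)
    {e : ℤ × ℤ} (he : e = (1, 1) ∨ e = (-1, -1) ∨ e = (1, -1) ∨ e = (-1, 1))
    (h : OnSeg (toR (X, Y) + τ • toR e)) :
    ((X, Y) = (2, 1) ∧ e = (1, 1)) ∨ ((X, Y) = (3, 2) ∧ e = (-1, -1)) := by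
  obtain ⟨ha, hb, hcc⟩ := h
  rcases he with rfl | rfl | rfl | rfl
  · left
    simp only [toR, Prod.fst_add, Prod.snd_add, Prod.smul_fst, Prod.smul_snd, smul_eq_mul,
      Int.cast_one, mul_one] at ha hb hcc
    have e1 : (Y : ℝ) = X - 1 := by linarith
    have e2 : Y = X - 1 := by exact_mod_cast e1
    have e3 : (1 : ℝ) < X := by linarith
    have e4 : (X : ℝ) < 3 := by linarith
    have e5 : 1 < X := by exact_mod_cast e3
    have e6 : X < 3 := by exact_mod_cast e4
    have e7 : X = 2 := by omega
    subst e7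
    subst e2
    exact ⟨by norm_num, rfl⟩
  · right
    simp only [toR, Prod.fst_add, Prod.snd_add, Prod.smul_fst, Prod.smul_snd, smul_eq_mul,
      Int.cast_one, Int.cast_neg, mul_neg, mul_one] at ha hb hcc
    have e1 : (Y : ℝ) = X - 1 := by linarith
    have e2 : Y = X - 1 := by exact_mod_cast e1
    have e3 : (2 : ℝ) < X := by linarith
    have e4 : (X : ℝ) < 4 := by linarith
    have e5 : 2 < X := by exact_mod_cast e3
    have e6 : X < 4 := by exact_mod_cast e4
    have e7 : X = 3 := by omega
    subst e7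
    subst e2
    exact ⟨by norm_num, rfl⟩
  · exfalso
    simp only [toR, Prod.fst_add, Prod.snd_add, Prod.smul_fst, Prod.smul_snd, smul_eq_mul,
      Int.cast_one, Int.cast_neg, mul_neg, mul_one] at ha hb hcc
    have e1 : ((Y - X + 1 : ℤ) : ℝ) = 2 * τ := by push_cast; linarith
    have e2 : (0 : ℝ) ≤ ((Y - X + 1 : ℤ) : ℝ) := by rw [e1]; linarith
    have e3 : ((Y - X + 1 : ℤ) : ℝ) ≤ 2 := by rw [e1]; linarith
    have e4 : 0 ≤ Y - X + 1 := by exact_mod_cast e2
    have e5 : Y - X + 1 ≤ 2 := by exact_mod_cast e3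
    have e6 : Y - X + 1 = 0 ∨ Y - X + 1 = 2 := by omega
    rcases e6 with e6 | e6
    · rw [e6] at e1
      have : τ = 0 := by push_cast at e1; linarith
      rw [this] at ha hb
      have a1 : (2 : ℝ) < X := by linarith
      have a2 : (X : ℝ) < 3 := by linarith
      have a3 : 2 < X := by exact_mod_cast a1
      have a4 : X < 3 := by exact_mod_cast a2
      omega
    · rw [e6] at e1
      have : τ = 1 := by push_cast at e1; linarith
      rw [this] at ha hb
      have a1 : (1 : ℝ) < X := by linarith
      have a2 : (X : ℝ) < 2 := by linarith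
      have a3 : 1 < X := by exact_mod_cast a1
      have a4 : X < 2 := by exact_mod_cast a2
      omega
  · exfalso
    simp only [toR, Prod.fst_add, Prod.snd_add, Prod.smul_fst, Prod.smul_snd, smul_eq_mul,
      Int.cast_one, Int.cast_neg, mul_neg, mul_one] at ha hb hcc
    have e1 : ((X - Y - 1 : ℤ) : ℝ) = 2 * τ := by push_cast; linarith
    have e2 : (0 : ℝ) ≤ ((X - Y - 1 : ℤ) : ℝ) := by rw [e1]; linarith
    have e3 : ((X - Y - 1 : ℤ) : ℝ) ≤ 2 := by rw [e1]; linarith
    have e4 : 0 ≤ X - Y - 1 := by exact_mod_cast e2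
    have e5 : X - Y - 1 ≤ 2 := by exact_mod_cast e3
    have e6 : X - Y - 1 = 0 ∨ X - Y - 1 = 2 := by omega
    rcases e6 with e6 | e6
    · rw [e6] at e1
      have : τ = 0 := by push_cast at e1; linarith
      rw [this] at ha hb
      have a1 : (2 : ℝ) < X := by linarith
      have a2 : (X : ℝ) < 3 := by linarith
      have a3 : 2 < X := by exact_mod_cast a1
      have a4 : X < 3 := by exact_mod_cast a2
      omega
    · rw [e6] at e1
      have : τ = 1 := by push_cast at e1; linarith
      rw [this] at ha hb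
      have a1 : (3 : ℝ) < X := by linarith
      have a2 : (X : ℝ) < 4 := by linarith
      have a3 : 3 < X := by exact_mod_cast a1
      have a4 : X < 4 := by exact_mod_cast a2
      omega

/-- The data of a cube on which `F` is not constant. -/
def Data (u : Word 15) (S : Finset (Move 15)) (d : Step) : Prop :=
  Move.flip 14 d ∈ S ∧ joint u 3 = (3, 0) ∧ Move.switch 2 3 ∉ S ∧
    ((joint u 15 = (2, 1) ∧ d.vec - (u 14).vec = (1, 1)) ∨
     (joint u 15 = (3, 2) ∧ d.vec - (u 14).vec = (-1, -1)))

theorem data_of_cond {u : Word 15} {S : Finset (Move 15)} (hc : IsCube 8 u S)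
    {t : Move 15 → ℝ} (ht : ∀ a, t a ∈ Icc (0 : ℝ) 1) (h : Cond (ev u S t)) :
    ∃ d, Data u S d := by
  obtain ⟨h3, h15⟩ := h
  by_cases hflip : ∃ d, Move.flip 14 d ∈ S
  swap
  · exfalso
    push Not at hflip
    rw [ev15_none hc hflip] at h15
    obtain ⟨ha, hb, -⟩ := h15
    simp only [toR] at ha hb
    have a3 : 2 < (joint u 15).1 := by exact_mod_cast ha
    have a4 : (joint u 15).1 < 3 := by exact_mod_cast hb
    omega
  obtain ⟨d, hd⟩ := hflip
  have happ := hc.app _ hd
  rw [ev15_flip hc hd] at h15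
  have hgeo := real_geom (X := (joint u 15).1) (Y := (joint u 15).2) (parity' u) (ht _).1 (ht _).2
    (perp_cases _ _ happ.2) h15
  have s0 : IsState 8 u := hc.legal [] (by simp) (by simp)
  have sa : IsState 8 (act u (.flip 14 d)) := hc.legal [.flip 14 d] (by simp) (by simpa using hd)
  -- it is enough to exclude `switch 2 3`
  have hno : Move.switch 2 3 ∉ S := by
    intro hb
    have sb : IsState 8 (act u (.switch 2 3)) :=
      hc.legal [.switch 2 3] (by simp) (by simpa using hb)
    have sab : IsState 8 (act (act u (.flip 14 d)) (.switch 2 3)) :=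
      hc.legal [.flip 14 d, .switch 2 3] (by simp) (by
        intro a ha
        simp only [List.mem_cons, List.not_mem_nil, or_false] at ha
        rcases ha with rfl | rfl
        · exact hd
        · exact hb)
    have happb := hc.app _ hb
    rw [ev3_switch hc hb] at h3
    have hperp : Perp (u 2) (u 3) := happb.2
    have hJ := joint3_eq u
    have hτ := ht (.switch 2 3)
    set τ := t (.switch 2 3) with hτdef
    -- coordinates
    have hJb : joint (act u (.switch 2 3)) 3 = joint u 3 + ((u 3).vec - (u 2).vec) :=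
      joint3_switch u
    have hτ01 : τ = 0 ∨ τ = 1 := by
      have h31 := congrArg Prod.fst h3
      simp only [toR, Prod.fst_add, Prod.smul_fst, smul_eq_mul] at h31
      rcases perp_cases _ _ hperp with e | e | e | e <;> rw [e] at h31
      · have e1 : ((3 - (joint u 3).1 : ℤ) : ℝ) = τ := by push_cast; push_cast at h31; linarith
        have e2 : (0 : ℝ) ≤ ((3 - (joint u 3).1 : ℤ) : ℝ) := by rw [e1]; exact hτ.1
        have e3 : ((3 - (joint u 3).1 : ℤ) : ℝ) ≤ 1 := by rw [e1]; exact hτ.2
        have e4 : 0 ≤ 3 - (joint u 3).1 := by exact_mod_cast e2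
        have e5 : 3 - (joint u 3).1 ≤ 1 := by exact_mod_cast e3
        have e6 : 3 - (joint u 3).1 = 0 ∨ 3 - (joint u 3).1 = 1 := by omega
        rcases e6 with e6 | e6
        · left; rw [← e1, e6]; simp
        · right; rw [← e1, e6]; simp
      · have e1 : (((joint u 3).1 - 3 : ℤ) : ℝ) = τ := by push_cast; push_cast at h31; linarith
        have e2 : (0 : ℝ) ≤ (((joint u 3).1 - 3 : ℤ) : ℝ) := by rw [e1]; exact hτ.1
        have e3 : (((joint u 3).1 - 3 : ℤ) : ℝ) ≤ 1 := by rw [e1]; exact hτ.2
        have e4 : 0 ≤ (joint u 3).1 - 3 := by exact_mod_cast e2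
        have e5 : (joint u 3).1 - 3 ≤ 1 := by exact_mod_cast e3
        have e6 : (joint u 3).1 - 3 = 0 ∨ (joint u 3).1 - 3 = 1 := by omega
        rcases e6 with e6 | e6
        · left; rw [← e1, e6]; simp
        · right; rw [← e1, e6]; simp
      · have e1 : ((3 - (joint u 3).1 : ℤ) : ℝ) = τ := by push_cast; push_cast at h31; linarith
        have e2 : (0 : ℝ) ≤ ((3 - (joint u 3).1 : ℤ) : ℝ) := by rw [e1]; exact hτ.1
        have e3 : ((3 - (joint u 3).1 : ℤ) : ℝ) ≤ 1 := by rw [e1]; exact hτ.2
        have e4 : 0 ≤ 3 - (joint u 3).1 := by exact_mod_cast e2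
        have e5 : 3 - (joint u 3).1 ≤ 1 := by exact_mod_cast e3
        have e6 : 3 - (joint u 3).1 = 0 ∨ 3 - (joint u 3).1 = 1 := by omega
        rcases e6 with e6 | e6
        · left; rw [← e1, e6]; simp
        · right; rw [← e1, e6]; simp
      · have e1 : (((joint u 3).1 - 3 : ℤ) : ℝ) = τ := by push_cast; push_cast at h31; linarith
        have e2 : (0 : ℝ) ≤ (((joint u 3).1 - 3 : ℤ) : ℝ) := by rw [e1]; exact hτ.1
        have e3 : (((joint u 3).1 - 3 : ℤ) : ℝ) ≤ 1 := by rw [e1]; exact hτ.2
        have e4 : 0 ≤ (joint u 3).1 - 3 := by exact_mod_cast e2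
        have e5 : (joint u 3).1 - 3 ≤ 1 := by exact_mod_cast e3
        have e6 : (joint u 3).1 - 3 = 0 ∨ (joint u 3).1 - 3 = 1 := by omega
        rcases e6 with e6 | e6
        · left; rw [← e1, e6]; simp
        · right; rw [← e1, e6]; simp
    have hinj : ∀ p : ℤ × ℤ, toR p = (3, 0) → p = (3, 0) := by
      intro p hp
      simp only [toR, Prod.mk.injEq] at hp
      apply Prod.ext
      · exact_mod_cast hp.1
      · exact_mod_cast hp.2
    rcases hτ01 with h0 | h1
    · rw [h0, zero_smul, add_zero] at h3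
      have hJ30 := hinj _ h3
      have hcol : joint (act u (.switch 2 3)) 3 = (2, 1) := by
        rw [hJb, hJ]
        apply fin1 _ _ _ _ hperp (hJ ▸ hJ30)
        have := (sb.1 3 (by norm_num)).2.1
        rwa [hJb, hJ] at this
      rcases hgeo with ⟨hg, -⟩ | ⟨hg, he⟩
      · exact no_coll sb hcol ((joint15_switch' u).trans hg)
      · refine no_coll sab ?_ ?_
        · rw [joint3_switch, joint3_flip, ← hcol, hJb]
          congr 1
        · rw [joint15_switch', joint15_flip, he]
          change ((joint u 15).1, (joint u 15).2) + _ = _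
          rw [hg]
          decide
    · rw [h1, one_smul, ← toR_add] at h3
      have hJ30 := hinj _ h3
      have hcol : joint u 3 = (2, 1) := by
        rw [hJ]
        apply fin2 _ _ _ _ hperp (hJ ▸ hJ30)
        have := (s0.1 3 (by norm_num)).2.1
        rwa [hJ] at this
      rcases hgeo with ⟨hg, -⟩ | ⟨hg, he⟩
      · exact no_coll s0 hcol hg
      · refine no_coll sa ?_ ?_
        · rw [joint3_flip, hcol]
        · rw [joint15_flip, he]
          change ((joint u 15).1, (joint u 15).2) + _ = _
          rw [hg]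
          decide
  refine ⟨d, hd, ?_, hno, ?_⟩
  · rw [ev3_none hc hno] at h3
    simp only [toR, Prod.mk.injEq] at h3
    apply Prod.ext
    · exact_mod_cast h3.1
    · exact_mod_cast h3.2
  · exact hgeo

theorem circle_one : ((1 : ℝ) : AddCircle (1 : ℝ)) = 0 := AddCircle.coe_period 1

theorem F_of_data {u : Word 15} {S : Finset (Move 15)} (hc : IsCube 8 u S) {d : Step}
    (hD : Data u S d) :
    ∃ e : ℝ, |e| = 1 ∧ ∀ (t : Move 15 → ℝ), (∀ a, t a ∈ Icc (0 : ℝ) 1) → ∀ x : C, x.1 = ev u S t →
      F x = ((e * t (.flip 14 d) : ℝ) : AddCircle (1 : ℝ)) := by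
  obtain ⟨hd, h3, hno, h15⟩ := hD
  rcases h15 with ⟨hg, he⟩ | ⟨hg, he⟩
  · refine ⟨1, by simp, ?_⟩
    intro t ht x hx
    have e3 : x.1 3 = (3, 0) := by
      rw [hx, ev3_none hc hno, h3]
      simp [toR]
    have e15 : x.1 15 = (2 + t (.flip 14 d), 1 + t (.flip 14 d)) := by
      rw [hx, ev15_flip hc hd, hg, he]
      simp [toR]
    have hτ := ht (.flip 14 d)
    set τ := t (.flip 14 d)
    unfold F
    by_cases hcond : Cond x.1
    · rw [if_pos hcond, e15]
      congr 1
      ring
    · rw [if_neg hcond]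
      have : τ = 0 ∨ τ = 1 := by
        by_contra hcon
        push Not at hcon
        apply hcond
        refine ⟨e3, ?_⟩
        rw [e15]
        have l1 : 0 < τ := lt_of_le_of_ne hτ.1 (Ne.symm hcon.1)
        have l2 : τ < 1 := lt_of_le_of_ne hτ.2 hcon.2
        refine ⟨?_, ?_, ?_⟩
        · change 2 < 2 + τ; linarith
        · change 2 + τ < 3; linarith
        · change 1 + τ = 2 + τ - 1; ring
      rcases this with h | h
      · rw [h]; simp
      · rw [h, mul_one, circle_one]
  · refine ⟨-1, by simp, ?_⟩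
    intro t ht x hx
    have e3 : x.1 3 = (3, 0) := by
      rw [hx, ev3_none hc hno, h3]
      simp [toR]
    have e15 : x.1 15 = (3 - t (.flip 14 d), 2 - t (.flip 14 d)) := by
      rw [hx, ev15_flip hc hd, hg, he]
      simp [toR]
      constructor <;> ring
    have hτ := ht (.flip 14 d)
    set τ := t (.flip 14 d)
    unfold F
    by_cases hcond : Cond x.1
    · rw [if_pos hcond, e15]
      change ((3 - τ - 2 : ℝ) : AddCircle (1 : ℝ)) = _
      have : (3 - τ - 2 : ℝ) = 1 + -1 * τ := by ring
      rw [this, AddCircle.coe_add, circle_one, zero_add]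
    · rw [if_neg hcond]
      have : τ = 0 ∨ τ = 1 := by
        by_contra hcon
        push Not at hcon
        apply hcond
        refine ⟨e3, ?_⟩
        rw [e15]
        have l1 : 0 < τ := lt_of_le_of_ne hτ.1 (Ne.symm hcon.1)
        have l2 : τ < 1 := lt_of_le_of_ne hτ.2 hcon.2
        refine ⟨?_, ?_, ?_⟩
        · change 2 < 3 - τ; linarith
        · change 3 - τ < 3; linarith
        · change 2 - τ = 3 - τ - 1; ring
      rcases this with h | h
      · rw [h]; simp
      · rw [h, mul_one, AddCircle.coe_neg, circle_one, neg_zero]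

theorem circle_dist_le (a b : ℝ) :
    dist (a : AddCircle (1 : ℝ)) (b : AddCircle (1 : ℝ)) ≤ |a - b| := by
  rw [dist_eq_norm, ← AddCircle.coe_sub, ← Real.norm_eq_abs]
  exact QuotientAddGroup.norm_mk_le_norm

theorem F_inCube {x y : C} {r : ℝ} (h : InCube x y r) : dist (F x) (F y) ≤ r := by
  obtain ⟨u, S, t, t', hc, ht, ht', hx, hy, rfl⟩ := h
  by_cases hD : ∃ d, Data u S d
  · obtain ⟨d, hD⟩ := hD
    obtain ⟨e, he, hF⟩ := F_of_data hc hD
    rw [hF t ht x hx, hF t' ht' y hy]
    refine (circle_dist_le _ _).trans ?_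
    rw [← mul_sub, abs_mul, he, one_mul]
    apply Real.abs_le_sqrt
    exact Finset.single_le_sum (f := fun a => (t a - t' a) ^ 2) (fun b _ => sq_nonneg _) hD.1
  · have h1 : F x = 0 := by
      unfold F
      rw [if_neg]
      intro hcond
      rw [hx] at hcond
      exact hD (data_of_cond hc ht hcond)
    have h2 : F y = 0 := by
      unfold F
      rw [if_neg]
      intro hcond
      rw [hy] at hcond
      exact hD (data_of_cond hc ht' hcond)
    rw [h1, h2, dist_self]
    exact Real.sqrt_nonneg _

theorem F_chain {x y : C} {r : ℝ} (h : Chain x y r) : dist (F x) (F y) ≤ r := by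
  induction h with
  | nil => simp
  | cons h _ ih => exact (dist_triangle _ _ _).trans (add_le_add (F_inCube h) ih)

theorem F_lip : LipschitzWith 1 F := by
  apply LipschitzWith.of_dist_le_mul
  intro x y
  rw [NNReal.coe_one, one_mul, dist_def]
  exact le_csInf (chain_exists x y) fun r hr => F_chain hr

end Pool.Agent.R107.Arm
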