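import Mathlib
import Pool.Agent.R107.ArmF

namespace Pool.Agent.R107.Arm

open Set

/-- The list of the joints. -/
def posL : ℤ × ℤ → List Step → List (ℤ × ℤ)
  | p, [] => [p]
  | p, s :: l => p :: posL (p + s.vec) l

theorem posL_eq (l : List Step) : ∀ p : ℤ × ℤ, posL p l =
    (List.range (l.length + 1)).map fun k => p + ((l.take k).map Step.vec).sum := by
  induction l with
  | nil => intro p; simp [posL]
  | cons s l ih =>
    intro p
    rw [posL, ih]
    conv_rhs => rw [List.length_cons, List.range_succ_eq_map, List.map_cons, List.map_map]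
    congr 1
    · simp
    · apply List.map_congr_left
      intro k _
      simp [add_assoc]

theorem joint_eq_take {n : ℕ} (w : Word n) (k : ℕ) :
    joint w k = (((List.ofFn w).take k).map Step.vec).sum := by
  rw [List.map_take, List.map_ofFn, List.sum_take_ofFn, joint, Finset.sum_filter]
  rfl

theorem isState_of_check {m n : ℕ} (w : Word n) (h1 : (posL (0, 0) (List.ofFn w)).Nodup)
    (h2 : ∀ p ∈ posL (0, 0) (List.ofFn w), 0 ≤ p.1 ∧ 0 ≤ p.2 ∧ p.2 ≤ m) : IsState m w := by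
  have e : posL (0, 0) (List.ofFn w) = (List.range (n + 1)).map (joint w) := by
    rw [posL_eq, List.length_ofFn]
    apply List.map_congr_left
    intro k _
    rw [joint_eq_take]
    change 0 + _ = _
    rw [zero_add]
  rw [e] at h1 h2
  constructor
  · intro k hk
    apply h2
    rw [List.mem_map]
    exact ⟨k, by simp; omega, rfl⟩
  · intro j hj k hk h
    exact List.inj_on_of_nodup_map h1 (by simp; omega) (by simp; omega) h

theorem V_step {w : Word 15} (h : w ∈ V 8 15) (a : Move 15) (w' : Word 15)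
    (ha : Applicable w a) (he : act w a = w')
    (h1 : (posL (0, 0) (List.ofFn w')).Nodup)
    (h2 : ∀ p ∈ posL (0, 0) (List.ofFn w'), 0 ≤ p.1 ∧ 0 ≤ p.2 ∧ p.2 ≤ 8) : w' ∈ V 8 15 :=
  Relation.ReflTransGen.tail h ⟨isState_of_mem h (isState_R 8 15),
    isState_of_check w' h1 h2, a, ha, he⟩

open Step Move

theorem p1 : (![R,R,R,R,R,R,R,R,R,R,R,R,R,R,U] : Word 15) ∈ V 8 15 :=
  V_step Relation.ReflTransGen.refl (flip 14 U) _ (by decide) (by decide) (by decide) (by decide)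
theorem p2 : (![R,R,R,R,R,R,R,R,R,R,R,R,R,U,R] : Word 15) ∈ V 8 15 :=
  V_step p1 (switch 13 14) _ (by decide) (by decide) (by decide) (by decide)
theorem p3 : (![R,R,R,R,R,R,R,R,R,R,R,R,U,R,R] : Word 15) ∈ V 8 15 :=
  V_step p2 (switch 12 13) _ (by decide) (by decide) (by decide) (by decide)
theorem p4 : (![R,R,R,R,R,R,R,R,R,R,R,R,U,R,D] : Word 15) ∈ V 8 15 :=
  V_step p3 (flip 14 D) _ (by decide) (by decide) (by decide) (by decide)
theorem p5 : (![R,R,R,R,R,R,R,R,R,R,R,U,R,R,D] : Word 15) ∈ V 8 15 :=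
  V_step p4 (switch 11 12) _ (by decide) (by decide) (by decide) (by decide)
theorem p6 : (![R,R,R,R,R,R,R,R,R,R,R,U,R,D,R] : Word 15) ∈ V 8 15 :=
  V_step p5 (switch 13 14) _ (by decide) (by decide) (by decide) (by decide)
theorem p7 : (![R,R,R,R,R,R,R,R,R,R,U,R,R,D,R] : Word 15) ∈ V 8 15 :=
  V_step p6 (switch 10 11) _ (by decide) (by decide) (by decide) (by decide)
theorem p8 : (![R,R,R,R,R,R,R,R,R,R,U,R,D,R,R] : Word 15) ∈ V 8 15 :=
  V_step p7 (switch 12 13) _ (by decide) (by decide) (by decide) (by decide)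
theorem p9 : (![R,R,R,R,R,R,R,R,R,R,U,R,D,R,U] : Word 15) ∈ V 8 15 :=
  V_step p8 (flip 14 U) _ (by decide) (by decide) (by decide) (by decide)
theorem p10 : (![R,R,R,R,R,R,R,R,R,U,R,R,D,R,U] : Word 15) ∈ V 8 15 :=
  V_step p9 (switch 9 10) _ (by decide) (by decide) (by decide) (by decide)
theorem p11 : (![R,R,R,R,R,R,R,R,R,U,R,D,R,R,U] : Word 15) ∈ V 8 15 :=
  V_step p10 (switch 11 12) _ (by decide) (by decide) (by decide) (by decide)
theorem p12 : (![R,R,R,R,R,R,R,R,R,U,R,D,R,U,R] : Word 15) ∈ V 8 15 :=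
  V_step p11 (switch 13 14) _ (by decide) (by decide) (by decide) (by decide)
theorem p13 : (![R,R,R,R,R,R,R,R,R,U,R,D,R,U,U] : Word 15) ∈ V 8 15 :=
  V_step p12 (flip 14 U) _ (by decide) (by decide) (by decide) (by decide)
theorem p14 : (![R,R,R,R,R,R,R,R,U,R,R,D,R,U,U] : Word 15) ∈ V 8 15 :=
  V_step p13 (switch 8 9) _ (by decide) (by decide) (by decide) (by decide)
theorem p15 : (![R,R,R,R,R,R,R,R,U,R,D,R,R,U,U] : Word 15) ∈ V 8 15 :=
  V_step p14 (switch 10 11) _ (by decide) (by decide) (by decide) (by decide)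
theorem p16 : (![R,R,R,R,R,R,R,R,U,R,D,R,U,R,U] : Word 15) ∈ V 8 15 :=
  V_step p15 (switch 12 13) _ (by decide) (by decide) (by decide) (by decide)
theorem p17 : (![R,R,R,R,R,R,R,R,U,R,D,R,U,U,R] : Word 15) ∈ V 8 15 :=
  V_step p16 (switch 13 14) _ (by decide) (by decide) (by decide) (by decide)
theorem p18 : (![R,R,R,R,R,R,R,R,U,R,D,R,U,U,U] : Word 15) ∈ V 8 15 :=
  V_step p17 (flip 14 U) _ (by decide) (by decide) (by decide) (by decide)
theorem p19 : (![R,R,R,R,R,R,R,U,R,R,D,R,U,U,U] : Word 15) ∈ V 8 15 :=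
  V_step p18 (switch 7 8) _ (by decide) (by decide) (by decide) (by decide)
theorem p20 : (![R,R,R,R,R,R,R,U,R,D,R,R,U,U,U] : Word 15) ∈ V 8 15 :=
  V_step p19 (switch 9 10) _ (by decide) (by decide) (by decide) (by decide)
theorem p21 : (![R,R,R,R,R,R,R,U,R,D,R,U,R,U,U] : Word 15) ∈ V 8 15 :=
  V_step p20 (switch 11 12) _ (by decide) (by decide) (by decide) (by decide)
theorem p22 : (![R,R,R,R,R,R,R,U,R,D,R,U,U,R,U] : Word 15) ∈ V 8 15 :=
  V_step p21 (switch 12 13) _ (by decide) (by decide) (by decide) (by decide)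
theorem p23 : (![R,R,R,R,R,R,R,U,R,D,R,U,U,U,R] : Word 15) ∈ V 8 15 :=
  V_step p22 (switch 13 14) _ (by decide) (by decide) (by decide) (by decide)
theorem p24 : (![R,R,R,R,R,R,R,U,R,D,R,U,U,U,U] : Word 15) ∈ V 8 15 :=
  V_step p23 (flip 14 U) _ (by decide) (by decide) (by decide) (by decide)
theorem p25 : (![R,R,R,R,R,R,U,R,R,D,R,U,U,U,U] : Word 15) ∈ V 8 15 :=
  V_step p24 (switch 6 7) _ (by decide) (by decide) (by decide) (by decide)
theorem p26 : (![R,R,R,R,R,R,U,R,D,R,R,U,U,U,U] : Word 15) ∈ V 8 15 :=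
  V_step p25 (switch 8 9) _ (by decide) (by decide) (by decide) (by decide)
theorem p27 : (![R,R,R,R,R,R,U,R,D,R,U,R,U,U,U] : Word 15) ∈ V 8 15 :=
  V_step p26 (switch 10 11) _ (by decide) (by decide) (by decide) (by decide)
theorem p28 : (![R,R,R,R,R,R,U,R,D,R,U,U,R,U,U] : Word 15) ∈ V 8 15 :=
  V_step p27 (switch 11 12) _ (by decide) (by decide) (by decide) (by decide)
theorem p29 : (![R,R,R,R,R,R,U,R,D,R,U,U,U,R,U] : Word 15) ∈ V 8 15 :=
  V_step p28 (switch 12 13) _ (by decide) (by decide) (by decide) (by decide)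
theorem p30 : (![R,R,R,R,R,R,U,R,D,R,U,U,U,U,R] : Word 15) ∈ V 8 15 :=
  V_step p29 (switch 13 14) _ (by decide) (by decide) (by decide) (by decide)
theorem p31 : (![R,R,R,R,R,R,U,R,D,R,U,U,U,U,U] : Word 15) ∈ V 8 15 :=
  V_step p30 (flip 14 U) _ (by decide) (by decide) (by decide) (by decide)
theorem p32 : (![R,R,R,R,R,U,R,R,D,R,U,U,U,U,U] : Word 15) ∈ V 8 15 :=
  V_step p31 (switch 5 6) _ (by decide) (by decide) (by decide) (by decide)
theorem p33 : (![R,R,R,R,R,U,R,D,R,R,U,U,U,U,U] : Word 15) ∈ V 8 15 :=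
  V_step p32 (switch 7 8) _ (by decide) (by decide) (by decide) (by decide)
theorem p34 : (![R,R,R,R,R,U,R,D,R,U,R,U,U,U,U] : Word 15) ∈ V 8 15 :=
  V_step p33 (switch 9 10) _ (by decide) (by decide) (by decide) (by decide)
theorem p35 : (![R,R,R,R,R,U,R,D,R,U,U,R,U,U,U] : Word 15) ∈ V 8 15 :=
  V_step p34 (switch 10 11) _ (by decide) (by decide) (by decide) (by decide)
theorem p36 : (![R,R,R,R,R,U,R,D,R,U,U,U,R,U,U] : Word 15) ∈ V 8 15 :=
  V_step p35 (switch 11 12) _ (by decide) (by decide) (by decide) (by decide)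
theorem p37 : (![R,R,R,R,R,U,R,D,R,U,U,U,U,R,U] : Word 15) ∈ V 8 15 :=
  V_step p36 (switch 12 13) _ (by decide) (by decide) (by decide) (by decide)
theorem p38 : (![R,R,R,R,R,U,R,D,R,U,U,U,U,U,R] : Word 15) ∈ V 8 15 :=
  V_step p37 (switch 13 14) _ (by decide) (by decide) (by decide) (by decide)
theorem p39 : (![R,R,R,R,R,U,R,D,R,U,U,U,U,U,U] : Word 15) ∈ V 8 15 :=
  V_step p38 (flip 14 U) _ (by decide) (by decide) (by decide) (by decide)
theorem p40 : (![R,R,R,R,U,R,R,D,R,U,U,U,U,U,U] : Word 15) ∈ V 8 15 :=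
  V_step p39 (switch 4 5) _ (by decide) (by decide) (by decide) (by decide)
theorem p41 : (![R,R,R,R,U,R,D,R,R,U,U,U,U,U,U] : Word 15) ∈ V 8 15 :=
  V_step p40 (switch 6 7) _ (by decide) (by decide) (by decide) (by decide)
theorem p42 : (![R,R,R,R,U,R,D,R,U,R,U,U,U,U,U] : Word 15) ∈ V 8 15 :=
  V_step p41 (switch 8 9) _ (by decide) (by decide) (by decide) (by decide)
theorem p43 : (![R,R,R,R,U,R,D,R,U,U,R,U,U,U,U] : Word 15) ∈ V 8 15 :=
  V_step p42 (switch 9 10) _ (by decide) (by decide) (by decide) (by decide)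
theorem p44 : (![R,R,R,R,U,R,D,R,U,U,U,R,U,U,U] : Word 15) ∈ V 8 15 :=
  V_step p43 (switch 10 11) _ (by decide) (by decide) (by decide) (by decide)
theorem p45 : (![R,R,R,R,U,R,D,R,U,U,U,U,R,U,U] : Word 15) ∈ V 8 15 :=
  V_step p44 (switch 11 12) _ (by decide) (by decide) (by decide) (by decide)
theorem p46 : (![R,R,R,R,U,R,D,R,U,U,U,U,U,R,U] : Word 15) ∈ V 8 15 :=
  V_step p45 (switch 12 13) _ (by decide) (by decide) (by decide) (by decide)
theorem p47 : (![R,R,R,R,U,R,D,R,U,U,U,U,U,U,R] : Word 15) ∈ V 8 15 :=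
  V_step p46 (switch 13 14) _ (by decide) (by decide) (by decide) (by decide)
theorem p48 : (![R,R,R,R,U,R,D,R,U,U,U,U,U,U,U] : Word 15) ∈ V 8 15 :=
  V_step p47 (flip 14 U) _ (by decide) (by decide) (by decide) (by decide)
theorem p49 : (![R,R,R,U,R,R,D,R,U,U,U,U,U,U,U] : Word 15) ∈ V 8 15 :=
  V_step p48 (switch 3 4) _ (by decide) (by decide) (by decide) (by decide)
theorem p50 : (![R,R,R,U,R,D,R,R,U,U,U,U,U,U,U] : Word 15) ∈ V 8 15 :=
  V_step p49 (switch 5 6) _ (by decide) (by decide) (by decide) (by decide)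
theorem p51 : (![R,R,R,U,R,D,R,U,R,U,U,U,U,U,U] : Word 15) ∈ V 8 15 :=
  V_step p50 (switch 7 8) _ (by decide) (by decide) (by decide) (by decide)
theorem p52 : (![R,R,R,U,R,D,R,U,U,R,U,U,U,U,U] : Word 15) ∈ V 8 15 :=
  V_step p51 (switch 8 9) _ (by decide) (by decide) (by decide) (by decide)
theorem p53 : (![R,R,R,U,R,D,R,U,U,U,R,U,U,U,U] : Word 15) ∈ V 8 15 :=
  V_step p52 (switch 9 10) _ (by decide) (by decide) (by decide) (by decide)
theorem p54 : (![R,R,R,U,R,D,R,U,U,U,U,R,U,U,U] : Word 15) ∈ V 8 15 :=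
  V_step p53 (switch 10 11) _ (by decide) (by decide) (by decide) (by decide)
theorem p55 : (![R,R,R,U,R,D,R,U,U,U,U,U,R,U,U] : Word 15) ∈ V 8 15 :=
  V_step p54 (switch 11 12) _ (by decide) (by decide) (by decide) (by decide)
theorem p56 : (![R,R,R,U,R,D,R,U,U,U,U,U,U,R,U] : Word 15) ∈ V 8 15 :=
  V_step p55 (switch 12 13) _ (by decide) (by decide) (by decide) (by decide)
theorem p57 : (![R,R,R,U,R,D,R,U,U,U,U,U,U,U,R] : Word 15) ∈ V 8 15 :=
  V_step p56 (switch 13 14) _ (by decide) (by decide) (by decide) (by decide)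
theorem p58 : (![R,R,R,U,R,D,R,U,U,U,U,U,U,U,U] : Word 15) ∈ V 8 15 :=
  V_step p57 (flip 14 U) _ (by decide) (by decide) (by decide) (by decide)
theorem p59 : (![R,R,R,U,R,D,R,U,U,U,U,U,U,U,L] : Word 15) ∈ V 8 15 :=
  V_step p58 (flip 14 L) _ (by decide) (by decide) (by decide) (by decide)
theorem p60 : (![R,R,R,U,R,D,R,U,U,U,U,U,U,L,U] : Word 15) ∈ V 8 15 :=
  V_step p59 (switch 13 14) _ (by decide) (by decide) (by decide) (by decide)
theorem p61 : (![R,R,R,U,R,D,R,U,U,U,U,U,U,L,L] : Word 15) ∈ V 8 15 :=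
  V_step p60 (flip 14 L) _ (by decide) (by decide) (by decide) (by decide)
theorem p62 : (![R,R,R,U,R,D,R,U,U,U,U,U,L,U,L] : Word 15) ∈ V 8 15 :=
  V_step p61 (switch 12 13) _ (by decide) (by decide) (by decide) (by decide)
theorem p63 : (![R,R,R,U,R,D,R,U,U,U,U,U,L,L,U] : Word 15) ∈ V 8 15 :=
  V_step p62 (switch 13 14) _ (by decide) (by decide) (by decide) (by decide)
theorem p64 : (![R,R,R,U,R,D,R,U,U,U,U,U,L,L,L] : Word 15) ∈ V 8 15 :=
  V_step p63 (flip 14 L) _ (by decide) (by decide) (by decide) (by decide)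
theorem p65 : (![R,R,R,U,R,D,R,U,U,U,U,L,U,L,L] : Word 15) ∈ V 8 15 :=
  V_step p64 (switch 11 12) _ (by decide) (by decide) (by decide) (by decide)
theorem p66 : (![R,R,R,U,R,D,R,U,U,U,U,L,L,U,L] : Word 15) ∈ V 8 15 :=
  V_step p65 (switch 12 13) _ (by decide) (by decide) (by decide) (by decide)
theorem p67 : (![R,R,R,U,R,D,R,U,U,U,U,L,L,L,U] : Word 15) ∈ V 8 15 :=
  V_step p66 (switch 13 14) _ (by decide) (by decide) (by decide) (by decide)
theorem p68 : (![R,R,R,U,R,D,R,U,U,U,U,L,L,L,L] : Word 15) ∈ V 8 15 :=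
  V_step p67 (flip 14 L) _ (by decide) (by decide) (by decide) (by decide)
theorem p69 : (![R,R,R,U,R,D,R,U,U,U,L,U,L,L,L] : Word 15) ∈ V 8 15 :=
  V_step p68 (switch 10 11) _ (by decide) (by decide) (by decide) (by decide)
theorem p70 : (![R,R,R,U,R,D,R,U,U,U,L,L,U,L,L] : Word 15) ∈ V 8 15 :=
  V_step p69 (switch 11 12) _ (by decide) (by decide) (by decide) (by decide)
theorem p71 : (![R,R,R,U,R,D,R,U,U,U,L,L,L,U,L] : Word 15) ∈ V 8 15 :=
  V_step p70 (switch 12 13) _ (by decide) (by decide) (by decide) (by decide)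
theorem p72 : (![R,R,R,U,R,D,R,U,U,U,L,L,L,L,U] : Word 15) ∈ V 8 15 :=
  V_step p71 (switch 13 14) _ (by decide) (by decide) (by decide) (by decide)
theorem p73 : (![R,R,R,U,R,D,R,U,U,U,L,L,L,L,L] : Word 15) ∈ V 8 15 :=
  V_step p72 (flip 14 L) _ (by decide) (by decide) (by decide) (by decide)
theorem p74 : (![R,R,R,U,R,D,R,U,U,U,L,L,L,L,D] : Word 15) ∈ V 8 15 :=
  V_step p73 (flip 14 D) _ (by decide) (by decide) (by decide) (by decide)
theorem p75 : (![R,R,R,U,R,D,R,U,U,U,L,L,L,D,L] : Word 15) ∈ V 8 15 :=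
  V_step p74 (switch 13 14) _ (by decide) (by decide) (by decide) (by decide)
theorem p76 : (![R,R,R,U,R,D,R,U,U,U,L,L,L,D,D] : Word 15) ∈ V 8 15 :=
  V_step p75 (flip 14 D) _ (by decide) (by decide) (by decide) (by decide)
theorem p77 : (![R,R,R,U,R,D,R,U,U,U,L,L,L,D,R] : Word 15) ∈ V 8 15 :=
  V_step p76 (flip 14 R) _ (by decide) (by decide) (by decide) (by decide)

theorem qR1 : (![R,R,U,R,R,D,R,U,U,U,L,L,L,D,R] : Word 15) ∈ V 8 15 :=
  V_step p77 (switch 2 3) _ (by decide) (by decide) (by decide) (by decide)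
theorem qR2 : (![R,R,U,R,D,R,R,U,U,U,L,L,L,D,R] : Word 15) ∈ V 8 15 :=
  V_step qR1 (switch 4 5) _ (by decide) (by decide) (by decide) (by decide)
theorem qR3 : (![R,U,R,R,D,R,R,U,U,U,L,L,L,D,R] : Word 15) ∈ V 8 15 :=
  V_step qR2 (switch 1 2) _ (by decide) (by decide) (by decide) (by decide)
theorem qR4 : (![R,U,R,D,R,R,R,U,U,U,L,L,L,D,R] : Word 15) ∈ V 8 15 :=
  V_step qR3 (switch 3 4) _ (by decide) (by decide) (by decide) (by decide)
theorem qR5 : (![U,R,R,D,R,R,R,U,U,U,L,L,L,D,R] : Word 15) ∈ V 8 15 :=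
  V_step qR4 (switch 0 1) _ (by decide) (by decide) (by decide) (by decide)
theorem qR6 : (![U,R,D,R,R,R,R,U,U,U,L,L,L,D,R] : Word 15) ∈ V 8 15 :=
  V_step qR5 (switch 2 3) _ (by decide) (by decide) (by decide) (by decide)
theorem qL1 : (![R,R,U,R,R,D,R,U,U,U,L,L,L,D,L] : Word 15) ∈ V 8 15 :=
  V_step p75 (switch 2 3) _ (by decide) (by decide) (by decide) (by decide)
theorem qL2 : (![R,R,U,R,D,R,R,U,U,U,L,L,L,D,L] : Word 15) ∈ V 8 15 :=
  V_step qL1 (switch 4 5) _ (by decide) (by decide) (by decide) (by decide)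
theorem qL3 : (![R,U,R,R,D,R,R,U,U,U,L,L,L,D,L] : Word 15) ∈ V 8 15 :=
  V_step qL2 (switch 1 2) _ (by decide) (by decide) (by decide) (by decide)
theorem qL4 : (![R,U,R,D,R,R,R,U,U,U,L,L,L,D,L] : Word 15) ∈ V 8 15 :=
  V_step qL3 (switch 3 4) _ (by decide) (by decide) (by decide) (by decide)
theorem qL5 : (![U,R,R,D,R,R,R,U,U,U,L,L,L,D,L] : Word 15) ∈ V 8 15 :=
  V_step qL4 (switch 0 1) _ (by decide) (by decide) (by decide) (by decide)
theorem qL6 : (![U,R,D,R,R,R,R,U,U,U,L,L,L,D,L] : Word 15) ∈ V 8 15 :=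
  V_step qL5 (switch 2 3) _ (by decide) (by decide) (by decide) (by decide)
theorem qD6 : (![U,R,D,R,R,R,R,U,U,U,L,L,L,D,D] : Word 15) ∈ V 8 15 :=
  V_step qR6 (flip 14 D) _ (by decide) (by decide) (by decide) (by decide)

end Pool.Agent.R107.Arm
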