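import Mathlib
import Pool.Agent.R107.ArmP

namespace Pool.Agent.R107.Arm

open Set

def LiftP (x y : C) (δ : ℝ) : Prop :=
  ∃ (γ : Path x y) (a b : ℝ) (Λ : Path a b), b - a = δ ∧
    ∀ s, ((Λ s : ℝ) : AddCircle (1 : ℝ)) = F (γ s)

theorem LiftP.symm {x y : C} {δ : ℝ} (h : LiftP x y δ) : LiftP y x (-δ) := by
  obtain ⟨γ, a, b, Λ, h1, h2⟩ := h
  refine ⟨γ.symm, b, a, Λ.symm, by rw [← h1]; ring, fun s => ?_⟩
  exact h2 _

theorem LiftP.trans {x y z : C} {δ ε : ℝ} (h : LiftP x y δ) (h' : LiftP y z ε) :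
    LiftP x z (δ + ε) := by
  obtain ⟨γ, a, b, Λ, h1, h2⟩ := h
  obtain ⟨γ', a', b', Λ', h1', h2'⟩ := h'
  have e : ((b : ℝ) : AddCircle (1 : ℝ)) = a' := by
    have e1 := h2 1
    have e2 := h2' 0
    rw [Λ.target, γ.target] at e1
    rw [Λ'.source, γ'.source] at e2
    rw [e1, e2]
  have e0 : ((b - a' : ℝ) : AddCircle (1 : ℝ)) = 0 := by rw [AddCircle.coe_sub, e, sub_self]
  let Λ'' : Path b (b' + (b - a')) :=
    { toFun := fun s => Λ' s + (b - a')
      continuous_toFun := by fun_prop
      source' := by rw [Λ'.source]; ring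
      target' := by rw [Λ'.target] }
  refine ⟨γ.trans γ', a, b' + (b - a'), Λ.trans Λ'', by rw [← h1, ← h1']; ring, fun s => ?_⟩
  rw [Path.trans_apply, Path.trans_apply]
  split_ifs with hs
  · exact h2 _
  · change ((Λ' _ + (b - a') : ℝ) : AddCircle (1 : ℝ)) = _
    rw [AddCircle.coe_add, e0, add_zero]
    exact h2' _

/-- The vertex of a reachable word. -/
noncomputable def vt (w : Word 15) (hw : w ∈ V 8 15) : C :=
  vert w hw (isState_of_mem hw (isState_R 8 15))

theorem cube_edge {w w' : Word 15} (hw : w ∈ V 8 15) (hw' : w' ∈ V 8 15) (a : Move 15)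
    (ha : Applicable w a) (he : act w a = w') : IsCube 8 w {a} := by
  subst he
  exact isCube_single hw (isState_of_mem hw (isState_R 8 15)) a ha
    (isState_of_mem hw' (isState_R 8 15))

theorem edge_lift {w w' : Word 15} (hw : w ∈ V 8 15) (hw' : w' ∈ V 8 15) (a : Move 15)
    (ha : Applicable w a) (he : act w a = w') (g : ℝ → ℝ) (hg : Continuous g)
    (hF : ∀ t ∈ Icc (0 : ℝ) 1, ∀ x : C, x.1 = ev w {a} (fun _ => t) →
      F x = ((g t : ℝ) : AddCircle (1 : ℝ))) :
    LiftP (vt w hw) (vt w' hw') (g 1 - g 0) := by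
  have hc := cube_edge hw hw' a ha he
  subst he
  let γ : Path (vt w hw) (vt (act w a) hw') :=
    { toFun := fun s => mk w {a} hc (fun _ => (s : ℝ)) (fun _ => s.2)
      continuous_toFun := by
        apply LipschitzWith.continuous (K := 1)
        apply LipschitzWith.of_dist_le_mul
        intro s t
        rw [NNReal.coe_one, one_mul, dist_def]
        refine (len_le (Chain.single (inCube_mk w {a} hc (fun _ => (s : ℝ)) (fun _ => s.2)
          (fun _ => (t : ℝ)) (fun _ => t.2)))).trans ?_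
        rw [Finset.sum_singleton, Real.sqrt_sq_eq_abs]
        exact le_rfl
      source' := by
        apply mk_zero
        intro _ _
        rfl
      target' := by
        apply mk_one
        rfl }
  let Λ : Path (g 0) (g 1) :=
    { toFun := fun s => g s
      continuous_toFun := by fun_prop
      source' := by simp
      target' := by simp }
  refine ⟨γ, g 0, g 1, Λ, rfl, fun s => ?_⟩
  exact (hF s s.2 (γ s) rfl).symm

theorem edge_zero {w w' : Word 15} (hw : w ∈ V 8 15) (hw' : w' ∈ V 8 15) (a : Move 15)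
    (ha : Applicable w a) (he : act w a = w')
    (hz : ∀ t ∈ Icc (0 : ℝ) 1, ¬ Cond (ev w {a} (fun _ => t))) :
    LiftP (vt w hw) (vt w' hw') 0 := by
  have := edge_lift hw hw' a ha he (fun _ => 0) continuous_const (by
    intro t ht x hx
    unfold F
    rw [if_neg (by rw [hx]; exact hz t ht)]
    rfl)
  simpa using this

theorem not_onSeg_int (p : ℤ × ℤ) : ¬ OnSeg (toR p) := by
  rintro ⟨ha, hb, -⟩
  simp only [toR] at ha hb
  have a3 : 2 < p.1 := by exact_mod_cast ha
  have a4 : p.1 < 3 := by exact_mod_cast hb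
  omega

theorem edge_switch {w w' : Word 15} (hw : w ∈ V 8 15) (hw' : w' ∈ V 8 15) (i j : Fin 15)
    (ha : Applicable w (.switch i j)) (he : act w (.switch i j) = w') :
    LiftP (vt w hw) (vt w' hw') 0 := by
  apply edge_zero hw hw' _ ha he
  intro t _ hcond
  have hc := cube_edge hw hw' _ ha he
  have h15 := hcond.2
  rw [ev15_none hc (by intro d; simp)] at h15
  exact not_onSeg_int _ h15

theorem edge_flip {w w' : Word 15} (hw : w ∈ V 8 15) (hw' : w' ∈ V 8 15) (d : Step)
    (ha : Applicable w (.flip 14 d)) (he : act w (.flip 14 d) = w') (h3 : joint w 3 = (1, 0)) :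
    LiftP (vt w hw) (vt w' hw') 0 := by
  apply edge_zero hw hw' _ ha he
  intro t _ hcond
  have hc := cube_edge hw hw' _ ha he
  have h := hcond.1
  rw [ev3_none hc (by simp), h3] at h
  simp [toR] at h

open Step Move

theorem edge_DL : LiftP (vt _ p76) (vt _ p75) 0 := by
  have ha : Applicable (![R,R,R,U,R,D,R,U,U,U,L,L,L,D,D] : Word 15) (.flip 14 L) := by decide
  have he : act (![R,R,R,U,R,D,R,U,U,U,L,L,L,D,D] : Word 15) (.flip 14 L) = ![R,R,R,U,R,D,R,U,U,U,L,L,L,D,L] := by decide
  apply edge_zero p76 p75 (.flip 14 L) ha he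
  intro t ht hcond
  have hc := cube_edge p76 p75 _ ha he
  have h15 := hcond.2
  rw [ev15_flip hc (Finset.mem_singleton_self _)] at h15
  have e1 : joint (![R,R,R,U,R,D,R,U,U,U,L,L,L,D,D] : Word 15) 15 = (2, 1) := by decide
  rw [e1] at h15
  have h1 := h15.1
  have e2 : (L.vec - ((![R,R,R,U,R,D,R,U,U,U,L,L,L,D,D] : Word 15) 14).vec) = (-1, 1) := by decide
  rw [e2] at h1
  simp only [toR, Prod.fst_add, Prod.smul_fst, smul_eq_mul] at h1
  push_cast at h1
  linarith [ht.1]

theorem edge_DR : ∃ e : ℝ, |e| = 1 ∧ LiftP (vt _ p76) (vt _ p77) e := by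
  have ha : Applicable (![R,R,R,U,R,D,R,U,U,U,L,L,L,D,D] : Word 15) (.flip 14 R) := by decide
  have he : act (![R,R,R,U,R,D,R,U,U,U,L,L,L,D,D] : Word 15) (.flip 14 R) = ![R,R,R,U,R,D,R,U,U,U,L,L,L,D,R] := by decide
  have hc := cube_edge p76 p77 _ ha he
  have hD : Data (![R,R,R,U,R,D,R,U,U,U,L,L,L,D,D] : Word 15) {.flip 14 R} R := by
    refine ⟨Finset.mem_singleton_self _, by decide, by decide, Or.inl ⟨by decide, by decide⟩⟩
  obtain ⟨e, h1, h2⟩ := F_of_data hc hD
  refine ⟨e, h1, ?_⟩
  have := edge_lift p76 p77 (.flip 14 R) ha he (fun t => e * t) (by fun_prop) (by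
    intro t ht x hx
    exact h2 (fun _ => t) (fun _ => ht) x hx)
  simpa using this

theorem side_R : LiftP (vt _ p77) (vt _ qR6) 0 := by
  have h := ((((((edge_switch p77 qR1 2 3 (by decide) (by decide))).trans
    (edge_switch qR1 qR2 4 5 (by decide) (by decide))).trans
    (edge_switch qR2 qR3 1 2 (by decide) (by decide))).trans
    (edge_switch qR3 qR4 3 4 (by decide) (by decide))).trans
    (edge_switch qR4 qR5 0 1 (by decide) (by decide))).trans
    (edge_switch qR5 qR6 2 3 (by decide) (by decide))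
  simpa using h

theorem side_L : LiftP (vt _ p75) (vt _ qL6) 0 := by
  have h := ((((((edge_switch p75 qL1 2 3 (by decide) (by decide))).trans
    (edge_switch qL1 qL2 4 5 (by decide) (by decide))).trans
    (edge_switch qL2 qL3 1 2 (by decide) (by decide))).trans
    (edge_switch qL3 qL4 3 4 (by decide) (by decide))).trans
    (edge_switch qL4 qL5 0 1 (by decide) (by decide))).trans
    (edge_switch qL5 qL6 2 3 (by decide) (by decide))
  simpa using h

theorem top_side : LiftP (vt _ qR6) (vt _ qL6) 0 := by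
  have h := (edge_flip qR6 qD6 D (by decide) (by decide) (by decide)).trans
    (edge_flip qD6 qL6 L (by decide) (by decide) (by decide))
  simpa using h

theorem loop : ∃ e : ℝ, |e| = 1 ∧ LiftP (vt _ p77) (vt _ p77) e := by
  obtain ⟨e, h1, h2⟩ := edge_DR
  refine ⟨e, h1, ?_⟩
  have h := (((side_R.trans top_side).trans side_L.symm).trans edge_DL.symm).trans h2
  simpa using h

/-- The configuration space of width 8 and length 15 is not CAT(0). -/
theorem main : ¬ Cat0.IsCAT0 (Conf 8 15) := by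
  obtain ⟨e, h1, γ, a, b, Λ, h3, h4⟩ := loop
  apply Cat0.not_cat0 F F_lip.continuous _ γ a b Λ h4
  intro hab
  rw [hab, sub_self] at h3
  rw [← h3] at h1
  simp at h1

end Pool.Agent.R107.Arm
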