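import Pool.Agent.R107.BMMain

/-!
# Log-concavity of the second-order ratios of the transposed Boros-Moll sequence
-/

set_option autoImplicit false

namespace Pool.Agent.R107.BM

open BMPoly PolyRef

theorem ineq_N (l n : ℕ) (hl : 1 ≤ l) (hn : l ≤ n) (m s : ℝ) (hm : m = (n : ℝ) + 2)
    (hs : s = m - l) :
    (N l (n + 1)) ^ 3 * N l (n + 3) * (((m + 1) * (s + 1)) ^ 3 * (m - 1) * (s - 1)) ≤
      (N l (n + 2)) ^ 3 * N l n * ((m * s) ^ 3 * (m + 2) * (s + 2)) := by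
  have hlr : (1 : ℝ) ≤ l := by exact_mod_cast hl
  have hnr : (l : ℝ) ≤ n := by exact_mod_cast hn
  have hw := N_pos l n hn
  have hy := N_pos l (n + 1) (by omega)
  have hz := N_pos l (n + 2) (by omega)
  have hz' := N_pos l (n + 3) (by omega)
  obtain ⟨he0, he1⟩ := e_bound l hl (n + 1) (by omega)
  have r1 := N_succ l n hn
  have r2 := N_succ l (n + 1) (by omega)
  have r3 := N_succ l (n + 2) (by omega)
  have ey : N l (n + 1) = 4 * m ^ 2 - 1 - e l (n + 1) := by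
    unfold e; rw [hm]; push_cast; ring
  push_cast at he1 r2 r3
  set w := N l n with hwd
  set y := N l (n + 1) with hyd
  set z := N l (n + 2) with hzd
  set z' := N l (n + 3) with hzd'
  set ε := e l (n + 1) with hε
  have c1 : (n : ℝ) + 1 = m - 1 := by rw [hm]; ring
  have c2 : (n : ℝ) + 1 + 1 = m := by rw [hm]; ring
  have c3 : (n : ℝ) + 2 + 1 = m + 1 := by rw [hm]
  rw [c2] at r2
  rw [c3] at r3
  rw [c1] at r1 he1
  have hu : (0 : ℝ) ≤ l - 1 := by linarith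
  have hv : (0 : ℝ) ≤ m - l - 1 := by rw [hm]; linarith
  have vl : El.ev ((l : ℝ) - 1) (m - l - 1) = l := by
    simp only [El, ev_add, ev_x, ev_one]; ring
  have vm : Em.ev ((l : ℝ) - 1) (m - l - 1) = m := by
    simp only [Em, ev_add, ev_x, ev_y, ev_2]; ring
  have vs : Es.ev ((l : ℝ) - 1) (m - l - 1) = s := by
    simp only [Es, ev_add, ev_y, ev_one]; rw [hs]; ring
  have va : Ea.ev ((l : ℝ) - 1) (m - l - 1) = 8 * m ^ 2 + 8 * m + 3 - 4 * (l : ℝ) ^ 2 := by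
    simp only [Ea, ev_add, ev_sub, ev_mul, ev_pow, vl, vm, ev_8, ev_3, ev_4]
  have vap : Eap.ev ((l : ℝ) - 1) (m - l - 1) =
      8 * (m + 1) ^ 2 + 8 * (m + 1) + 3 - 4 * (l : ℝ) ^ 2 := by
    simp only [Eap, ev_add, ev_sub, ev_mul, ev_pow, vl, vm, ev_8, ev_3, ev_4, ev_one]
  have van : Ean.ev ((l : ℝ) - 1) (m - l - 1) =
      8 * (m - 1) ^ 2 + 8 * (m - 1) + 3 - 4 * (l : ℝ) ^ 2 := by
    simp only [Ean, ev_add, ev_sub, ev_mul, ev_pow, vl, vm, ev_8, ev_3, ev_4, ev_one]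
  have vb : Eb.ev ((l : ℝ) - 1) (m - l - 1) = (m ^ 2 - (l : ℝ) ^ 2) * (16 * m ^ 2 - 1) := by
    simp only [Eb, ev_sub, ev_mul, ev_pow, vl, vm, ev_16, ev_one]
  have vbp : Ebp.ev ((l : ℝ) - 1) (m - l - 1) =
      ((m + 1) ^ 2 - (l : ℝ) ^ 2) * (16 * (m + 1) ^ 2 - 1) := by
    simp only [Ebp, ev_add, ev_sub, ev_mul, ev_pow, vl, vm, ev_16, ev_one]
  have vB : EB.ev ((l : ℝ) - 1) (m - l - 1) =
      (m - 1 + l) * (4 * m - 5) * (4 * m - 3) * (m * s) ^ 3 * (m + 2) * (s + 2) := by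
    simp only [EB, ev_add, ev_sub, ev_mul, ev_pow, vl, vm, vs, ev_one, ev_2, ev_3, ev_4, ev_5]
  have vQ : EQ.ev ((l : ℝ) - 1) (m - l - 1) = ((m + 1) * (s + 1)) ^ 3 * (m - 1) := by
    simp only [EQ, ev_add, ev_sub, ev_mul, ev_pow, vm, vs, ev_one]
  have vga : Ega.ev ((l : ℝ) - 1) (m - l - 1) = 4 * m ^ 2 - 1 := by
    simp only [Ega, ev_sub, ev_mul, ev_pow, vm, ev_one, ev_4]
  have val : Eal.ev ((l : ℝ) - 1) (m - l - 1) =
      (8 * m ^ 2 + 8 * m + 3 - 4 * (l : ℝ) ^ 2) * (4 * m ^ 2 - 1) -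
        (m ^ 2 - (l : ℝ) ^ 2) * (16 * m ^ 2 - 1) := by
    simp only [Eal, ev_sub, ev_mul, va, vga, vb]
  have vla : Ela.ev ((l : ℝ) - 1) (m - l - 1) =
      (8 * (m + 1) ^ 2 + 8 * (m + 1) + 3 - 4 * (l : ℝ) ^ 2) *
        (8 * m ^ 2 + 8 * m + 3 - 4 * (l : ℝ) ^ 2) -
        ((m + 1) ^ 2 - (l : ℝ) ^ 2) * (16 * (m + 1) ^ 2 - 1) := by
    simp only [Ela, ev_sub, ev_mul, va, vap, vbp]
  have vka : Eka.ev ((l : ℝ) - 1) (m - l - 1) =
      ((8 * (m + 1) ^ 2 + 8 * (m + 1) + 3 - 4 * (l : ℝ) ^ 2) *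
        (8 * m ^ 2 + 8 * m + 3 - 4 * (l : ℝ) ^ 2) -
        ((m + 1) ^ 2 - (l : ℝ) ^ 2) * (16 * (m + 1) ^ 2 - 1)) * (4 * m ^ 2 - 1) -
      (8 * (m + 1) ^ 2 + 8 * (m + 1) + 3 - 4 * (l : ℝ) ^ 2) *
        ((m ^ 2 - (l : ℝ) ^ 2) * (16 * m ^ 2 - 1)) := by
    simp only [Eka, ev_sub, ev_mul, vla, vga, vap, vb]
  have vmu : Emu.ev ((l : ℝ) - 1) (m - l - 1) =
      8 * (m - 1) ^ 2 + 8 * (m - 1) + 3 - 4 * (l : ℝ) ^ 2 - 4 * m ^ 2 + 1 := by
    simp only [Emu, ev_sub, ev_add, ev_mul, ev_pow, van, vm, ev_4, ev_one]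
  have vD : ED.ev ((l : ℝ) - 1) (m - l - 1) =
      3 * ((m - 1) ^ 2 - (l : ℝ) ^ 2) + 4 * (l : ℝ) ^ 2 * (m - 1) := by
    simp only [ED, ev_sub, ev_add, ev_mul, ev_pow, vl, vm, ev_3, ev_4, ev_one]
  have vN : EN.ev ((l : ℝ) - 1) (m - l - 1) =
      3 * (m - 1) * ((m - 1) ^ 2 - (l : ℝ) ^ 2) := by
    simp only [EN, ev_sub, ev_mul, ev_pow, vl, vm, ev_3, ev_one]
  have hD : 0 < ED.ev ((l : ℝ) - 1) (m - l - 1) := by
    rw [vD]
    have h1 : (l : ℝ) ^ 2 ≤ (m - 1) ^ 2 :=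
      pow_le_pow_left₀ (by linarith) (by rw [hm]; linarith) 2
    have h2 : 0 < (l : ℝ) ^ 2 * (m - 1) := by
      have : 0 < m - 1 := by linarith
      positivity
    linarith
  have hP := P_nonneg ((l : ℝ) - 1) (m - l - 1) ε hu hv he0 hD (by rw [vD, vN]; exact he1)
  rw [vB, val, va, vQ, vga, vka, vla, vmu] at hP
  -- rewrite in terms of the ratios
  set a := 8 * m ^ 2 + 8 * m + 3 - 4 * (l : ℝ) ^ 2 with ha
  set ap := 8 * (m + 1) ^ 2 + 8 * (m + 1) + 3 - 4 * (l : ℝ) ^ 2 with hap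
  set an := 8 * (m - 1) ^ 2 + 8 * (m - 1) + 3 - 4 * (l : ℝ) ^ 2 with han
  set b := (m ^ 2 - (l : ℝ) ^ 2) * (16 * m ^ 2 - 1) with hb
  set bp := ((m + 1) ^ 2 - (l : ℝ) ^ 2) * (16 * (m + 1) ^ 2 - 1) with hbp
  set B := (m - 1 + l) * (4 * m - 5) * (4 * m - 3) * (m * s) ^ 3 * (m + 2) * (s + 2) with hB
  set Q := ((m + 1) * (s + 1)) ^ 3 * (m - 1) with hQ
  have f1 : a * (4 * m ^ 2 - 1) - b - a * ε = z * y := by
    rw [r2, ey]; ring
  have f2 : 4 * m ^ 2 - 1 - ε = y := ey.symm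
  have f3 : (ap * a - bp) * (4 * m ^ 2 - 1) - ap * b - (ap * a - bp) * ε = y * (z' * z) := by
    have : (ap * a - bp) * (4 * m ^ 2 - 1) - ap * b - (ap * a - bp) * ε =
        ap * (a * (4 * m ^ 2 - 1) - b - a * ε) - bp * (4 * m ^ 2 - 1 - ε) := by ring
    rw [this, f1, f2, r3]
    ring
  have f4 : an - 4 * m ^ 2 + 1 + ε = an - y := by rw [ey]; ring
  rw [f1, f2, f3, f4] at hP
  have hP2 : 0 ≤ (z * y ^ 4) * (B * z ^ 3 * y ^ 0 - Q * y ^ 3 * (z' * (an - y))) := by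
    have : (z * y ^ 4) * (B * z ^ 3 * y ^ 0 - Q * y ^ 3 * (z' * (an - y))) =
        B * (z * y) ^ 4 - Q * y ^ 6 * (y * (z' * z) * (an - y)) := by ring
    rw [this]; exact hP
  have hzy : 0 < z * y ^ 4 := by positivity
  have hP3 := nonneg_of_mul_nonneg_right hP2 hzy
  have hs1 : 0 < s - 1 := by rw [hs, hm]; linarith
  have hw2 : (an - y) * w = (s - 1) * ((m - 1 + l) * (4 * m - 5) * (4 * m - 3)) := by
    have : (an - y) * w = an * w - y * w := by ring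
    rw [this, r1, hs]
    ring
  have hm2 : (3 : ℝ) ≤ m := by rw [hm]; linarith
  have hK : 0 < (s - 1) * ((m - 1 + l) * (4 * m - 5) * (4 * m - 3)) := by
    have h1 : 0 < m - 1 + l := by linarith
    have h2 : 0 < 4 * m - 5 := by linarith
    have h3 : 0 < 4 * m - 3 := by linarith
    positivity
  have fin : 0 ≤ ((s - 1) * ((m - 1 + l) * (4 * m - 5) * (4 * m - 3))) *
      ((z ^ 3 * w * ((m * s) ^ 3 * (m + 2) * (s + 2))) -
        y ^ 3 * z' * (((m + 1) * (s + 1)) ^ 3 * (m - 1) * (s - 1))) := by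
    have e1 : ((s - 1) * ((m - 1 + l) * (4 * m - 5) * (4 * m - 3))) *
      ((z ^ 3 * w * ((m * s) ^ 3 * (m + 2) * (s + 2))) -
        y ^ 3 * z' * (((m + 1) * (s + 1)) ^ 3 * (m - 1) * (s - 1))) =
        (s - 1) * w * (B * z ^ 3) - Q * y ^ 3 * z' * (s - 1) *
          ((s - 1) * ((m - 1 + l) * (4 * m - 5) * (4 * m - 3))) := by
      rw [hB, hQ]; ring
    rw [e1, ← hw2]
    have e2 : (s - 1) * w * (B * z ^ 3) - Q * y ^ 3 * z' * (s - 1) * ((an - y) * w) =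
        (s - 1) * w * (B * z ^ 3 * y ^ 0 - Q * y ^ 3 * (z' * (an - y))) := by ring
    rw [e2]
    have : 0 < (s - 1) * w := by positivity
    exact mul_nonneg this.le hP3
  have := nonneg_of_mul_nonneg_right fin hK
  linarith

theorem ineq_dd (l n : ℕ) (hl : 1 ≤ l) (hn : l ≤ n) :
    dd l n * dd l (n + 2) ^ 6 * dd l (n + 4) ≤ dd l (n + 1) ^ 4 * dd l (n + 3) ^ 4 := by
  have h := ineq_N l n hl hn ((n : ℝ) + 2) ((n : ℝ) + 2 - l) rfl rfl
  have hnr : (l : ℝ) ≤ n := by exact_mod_cast hn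
  have p0 := dd_pos l n hn
  have p1 := dd_pos l (n + 1) (by omega)
  have p2 := dd_pos l (n + 2) (by omega)
  have p3 := dd_pos l (n + 3) (by omega)
  have m0 := N_mul l n hn
  have m1 := N_mul l (n + 1) (by omega)
  have m2 := N_mul l (n + 2) (by omega)
  have m3 := N_mul l (n + 3) (by omega)
  push_cast at m1 m2 m3
  have i1 : n + 1 + 1 = n + 2 := by ring
  have i2 : n + 2 + 1 = n + 3 := by ring
  have i3 : n + 3 + 1 = n + 4 := by ring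
  rw [i1] at m1
  rw [i2] at m2
  rw [i3] at m3
  set m : ℝ := (n : ℝ) + 2 with hm
  set s : ℝ := m - l with hs
  have c0 : (n : ℝ) + 1 = m - 1 := by rw [hm]; ring
  have c1 : (n : ℝ) + 1 + 1 = m := by rw [hm]; ring
  have c3 : (n : ℝ) + 3 + 1 = m + 2 := by rw [hm]; ring
  rw [c1] at m1
  rw [c0] at m0
  rw [c3] at m3
  have d0 : m - 1 - l = s - 1 := by rw [hs]; ring
  have d2 : m + 1 - l = s + 1 := by rw [hs]; ring
  have d3 : m + 2 - l = s + 2 := by rw [hs]; ring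
  rw [d0] at m0
  rw [← hs] at m1
  rw [d2] at m2
  rw [d3] at m3
  have hm0 : (1 : ℝ) < m := by rw [hm]; have : (0:ℝ) ≤ n := by positivity
                               linarith
  have hs0 : (1 : ℝ) < s := by rw [hs, hm]; linarith
  set A := dd l n
  set B := dd l (n + 1)
  set C := dd l (n + 2)
  set D := dd l (n + 3)
  set E := dd l (n + 4)
  set w := N l n
  set y := N l (n + 1)
  set z := N l (n + 2)
  set z' := N l (n + 3)
  have q1 : 0 < m - 1 := by linarith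
  have q2 : 0 < s - 1 := by linarith
  have q3 : 0 < m := by linarith
  have q4 : 0 < s := by linarith
  have hK : 0 < 16 * ((m + 1) * (s + 1)) ^ 3 * ((m - 1) * (s - 1)) * (m * s) ^ 3 *
      ((m + 2) * (s + 2)) := by positivity
  have hM : 0 < C ^ 3 * A * D * B ^ 3 := by positivity
  have key : 0 ≤ (16 * ((m + 1) * (s + 1)) ^ 3 * ((m - 1) * (s - 1)) * (m * s) ^ 3 *
      ((m + 2) * (s + 2))) * (B ^ 4 * D ^ 4 - A * C ^ 6 * E) := by
    have e1 : (16 * ((m + 1) * (s + 1)) ^ 3 * ((m - 1) * (s - 1)) * (m * s) ^ 3 *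
      ((m + 2) * (s + 2))) * (B ^ 4 * D ^ 4 - A * C ^ 6 * E) =
      (2 * (m + 1) * (s + 1) * D) ^ 3 * (2 * (m - 1) * (s - 1) * B) *
        ((m * s) ^ 3 * (m + 2) * (s + 2)) * (D * B ^ 3) -
      (2 * m * s * C) ^ 3 * (2 * (m + 2) * (s + 2) * E) *
        (((m + 1) * (s + 1)) ^ 3 * (m - 1) * (s - 1)) * (C ^ 3 * A) := by ring
    rw [e1, ← m0, ← m1, ← m2, ← m3]
    have e2 : (z * C) ^ 3 * (w * A) * ((m * s) ^ 3 * (m + 2) * (s + 2)) * (D * B ^ 3) -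
      (y * B) ^ 3 * (z' * D) * (((m + 1) * (s + 1)) ^ 3 * (m - 1) * (s - 1)) * (C ^ 3 * A) =
      (C ^ 3 * A * D * B ^ 3) * (z ^ 3 * w * ((m * s) ^ 3 * (m + 2) * (s + 2)) -
        y ^ 3 * z' * (((m + 1) * (s + 1)) ^ 3 * (m - 1) * (s - 1))) := by ring
    rw [e2]
    have : 0 ≤ z ^ 3 * w * ((m * s) ^ 3 * (m + 2) * (s + 2)) -
        y ^ 3 * z' * (((m + 1) * (s + 1)) ^ 3 * (m - 1) * (s - 1)) := by linarith
    exact mul_nonneg hM.le this
  have := nonneg_of_mul_nonneg_right key hK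
  linarith

end Pool.Agent.R107.BM
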