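import Pool.Agent.R107.BMPoly

/-!
# The polynomial inequality behind log-concavity of the second-order ratios
-/

set_option autoImplicit false

namespace Pool.Agent.R107.BMPoly

open PolyRef

theorem ev_x (u v : ℝ) : (Ex.x).ev u v = u := rfl
theorem ev_y (u v : ℝ) : (Ex.y).ev u v = v := rfl
theorem ev_one (u v : ℝ) : (1 : Ex).ev u v = 1 := by
  have : (1 : Ex).ev u v = ((1 : ℤ) : ℝ) := rfl
  rw [this]; simp
theorem ev_2 (u v : ℝ) : (2 : Ex).ev u v = 2 := by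
  have : (2 : Ex).ev u v = ((2 : ℤ) : ℝ) := rfl
  rw [this]; norm_num
theorem ev_3 (u v : ℝ) : (3 : Ex).ev u v = 3 := by
  have : (3 : Ex).ev u v = ((3 : ℤ) : ℝ) := rfl
  rw [this]; norm_num
theorem ev_4 (u v : ℝ) : (4 : Ex).ev u v = 4 := by
  have : (4 : Ex).ev u v = ((4 : ℤ) : ℝ) := rfl
  rw [this]; norm_num
theorem ev_5 (u v : ℝ) : (5 : Ex).ev u v = 5 := by
  have : (5 : Ex).ev u v = ((5 : ℤ) : ℝ) := rfl
  rw [this]; norm_num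
theorem ev_6 (u v : ℝ) : (6 : Ex).ev u v = 6 := by
  have : (6 : Ex).ev u v = ((6 : ℤ) : ℝ) := rfl
  rw [this]; norm_num
theorem ev_8 (u v : ℝ) : (8 : Ex).ev u v = 8 := by
  have : (8 : Ex).ev u v = ((8 : ℤ) : ℝ) := rfl
  rw [this]; norm_num
theorem ev_15 (u v : ℝ) : (15 : Ex).ev u v = 15 := by
  have : (15 : Ex).ev u v = ((15 : ℤ) : ℝ) := rfl
  rw [this]; norm_num
theorem ev_16 (u v : ℝ) : (16 : Ex).ev u v = 16 := by
  have : (16 : Ex).ev u v = ((16 : ℤ) : ℝ) := rfl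
  rw [this]; norm_num
theorem ev_20 (u v : ℝ) : (20 : Ex).ev u v = 20 := by
  have : (20 : Ex).ev u v = ((20 : ℤ) : ℝ) := rfl
  rw [this]; norm_num

theorem P_nonneg (u v e : ℝ) (hu : 0 ≤ u) (hv : 0 ≤ v) (he : 0 ≤ e)
    (hD : 0 < ED.ev u v) (hE : ED.ev u v * e ≤ EN.ev u v) :
    0 ≤ EB.ev u v * (Eal.ev u v - Ea.ev u v * e) ^ 4 -
      EQ.ev u v * (Ega.ev u v - e) ^ 6 * ((Eka.ev u v - Ela.ev u v * e) * (Emu.ev u v + e)) := by
  have h1 := Ex.nonneg Ek1 k1 hu hv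
  have h3 := Ex.nonneg Ek3 k3 hu hv
  have h5 := Ex.nonneg Ek5 k5 hu hv
  have h7 := Ex.nonneg Ek7 k7 hu hv
  have h8 := Ex.nonneg Ec8 c8 hu hv
  have g0 := Ex.nonneg _ t0 hu hv
  have g2 := Ex.nonneg _ t2 hu hv
  have g4 := Ex.nonneg _ t4 hu hv
  have g6 := Ex.nonneg _ t6 hu hv
  rw [ev_sub, ev_mul, ev_mul] at g0 g2 g4 g6
  have id : EB.ev u v * (Eal.ev u v - Ea.ev u v * e) ^ 4 -
      EQ.ev u v * (Ega.ev u v - e) ^ 6 * ((Eka.ev u v - Ela.ev u v * e) * (Emu.ev u v + e)) =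
      (Ec0.ev u v - Ek1.ev u v * e) + e ^ 2 * (Ec2.ev u v - Ek3.ev u v * e) +
      e ^ 4 * (Ec4.ev u v - Ek5.ev u v * e) + e ^ 6 * (Ec6.ev u v - Ek7.ev u v * e) +
      e ^ 8 * Ec8.ev u v := by
    simp only [Ec0, Ek1, Ec2, Ek3, Ec4, Ek5, Ec6, Ek7, Ec8, Ekm, ev_sub, ev_mul, ev_pow, ev_add,
      ev_4, ev_6, ev_15, ev_20]
    ring
  rw [id]
  have aux : ∀ c k : ℝ, 0 ≤ k → 0 ≤ ED.ev u v * c - EN.ev u v * k → 0 ≤ c - k * e := by
    intro c k hk hc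
    have : 0 ≤ ED.ev u v * (c - k * e) := by nlinarith
    exact nonneg_of_mul_nonneg_right this hD
  have a0 := aux _ _ h1 g0
  have a2 := aux _ _ h3 g2
  have a4 := aux _ _ h5 g4
  have a6 := aux _ _ h7 g6
  positivity

end Pool.Agent.R107.BMPoly
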