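import Mathlib

/-!
# The three-term recurrence of the transposed Boros-Moll sequence
-/

set_option autoImplicit false

namespace Pool.Agent.R107.BM

open Finset

/-- summand -/
noncomputable def t (l m k : ℕ) : ℝ :=
  2 ^ k * (Nat.centralBinom (m - k)) * ((m + k).choose m) * (k.choose l)

theorem t_m (l k j : ℕ) : ((k : ℝ) + j + 1) * (j + 1) * t l (k + j + 1) k =
    2 * (2 * j + 1) * (2 * k + j + 1) * t l (k + j) k := by
  have h1 : ((j : ℝ) + 1) * Nat.centralBinom (j + 1) = 2 * (2 * j + 1) * Nat.centralBinom j := by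
    exact_mod_cast Nat.succ_mul_centralBinom_succ j
  have h2 : (2 * (k : ℝ) + j + 1) * ((k + j + k).choose (k + j)) =
      ((k + j + 1 + k).choose (k + j + 1)) * (k + j + 1) := by
    have h := Nat.add_one_mul_choose_eq (k + j + k) (k + j)
    have e : k + j + 1 + k = (k + j + k).succ := by omega
    rw [e]
    have h' : (((k + j + k).succ : ℕ) : ℝ) * ((k + j + k).choose (k + j) : ℕ) =
        ((k + j + k).succ.choose (k + j).succ : ℕ) * ((k + j).succ : ℕ) := by exact_mod_cast h
    push_cast at h'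
    simp only [Nat.succ_eq_add_one] at h' ⊢
    push_cast at h' ⊢
    linarith
  unfold t
  have e1 : k + j + 1 - k = j + 1 := by omega
  have e2 : k + j - k = j := by omega
  rw [e1, e2]
  calc ((k : ℝ) + j + 1) * (j + 1) * (2 ^ k * (Nat.centralBinom (j + 1)) *
        ((k + j + 1 + k).choose (k + j + 1)) * (k.choose l))
      = 2 ^ k * (((j : ℝ) + 1) * Nat.centralBinom (j + 1)) *
        (((k + j + 1 + k).choose (k + j + 1)) * ((k : ℝ) + j + 1)) * (k.choose l) := by ring
    _ = _ := by rw [h1, ← h2]; ring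

theorem t_k (l k j : ℕ) : (2 * (j : ℝ) + 1) * ((k : ℝ) + 1 - l) * t l (k + 1 + j) (k + 1) =
    (j + 1) * (2 * k + j + 2) * t l (k + 1 + j) k := by
  have h1 : ((j : ℝ) + 1) * Nat.centralBinom (j + 1) = 2 * (2 * j + 1) * Nat.centralBinom j := by
    exact_mod_cast Nat.succ_mul_centralBinom_succ j
  have h2 : (2 * (k : ℝ) + j + 2) * ((k + 1 + j + k).choose (k + 1 + j)) =
      ((k + 1 + j + (k + 1)).choose (k + 1 + j)) * (k + 1) := by
    have h := Nat.add_one_mul_choose_eq (k + 1 + j + k) k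
    have e : k + 1 + j + (k + 1) = (k + 1 + j + k).succ := by omega
    have s1 : (k + 1 + j + k).choose (k + 1 + j) = (k + 1 + j + k).choose k := by
      rw [Nat.choose_symm_add]
    have s2 : (k + 1 + j + k).succ.choose (k + 1 + j) = (k + 1 + j + k).succ.choose k.succ := by
      have := Nat.choose_symm_add (a := k + 1 + j) (b := k + 1)
      rw [e] at this
      exact this
    rw [e, s1, s2]
    have h' : (((k + 1 + j + k).succ : ℕ) : ℝ) * ((k + 1 + j + k).choose k : ℕ) =
        ((k + 1 + j + k).succ.choose k.succ : ℕ) * (k.succ : ℕ) := by exact_mod_cast h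
    simp only [Nat.succ_eq_add_one] at h' ⊢
    push_cast at h' ⊢
    linarith
  have h3 : ((k : ℝ) + 1 - l) * ((k + 1).choose l) = (k + 1) * (k.choose l) := by
    rcases Nat.lt_or_ge (k + 1) l with h | h
    · rw [Nat.choose_eq_zero_of_lt h, Nat.choose_eq_zero_of_lt (by omega)]; simp
    · have h' := Nat.choose_mul_succ_eq k l
      have h'' : ((k.choose l : ℕ) : ℝ) * ((k + 1 : ℕ) : ℝ) =
          ((k + 1).choose l : ℕ) * ((k + 1 - l : ℕ) : ℝ) := by exact_mod_cast h'
      rw [Nat.cast_sub h] at h''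
      push_cast at h''
      linarith
  unfold t
  have e1 : k + 1 + j - (k + 1) = j := by omega
  have e2 : k + 1 + j - k = j + 1 := by omega
  rw [e1, e2]
  have goal1 : (2 * (j : ℝ) + 1) * ((k : ℝ) + 1 - l) * (2 ^ (k + 1) * (Nat.centralBinom j) *
        ((k + 1 + j + (k + 1)).choose (k + 1 + j)) * ((k + 1).choose l)) =
      2 ^ k * (2 * (2 * (j : ℝ) + 1) * Nat.centralBinom j) *
        ((k + 1 + j + (k + 1)).choose (k + 1 + j)) *
        (((k : ℝ) + 1 - l) * ((k + 1).choose l)) := by ring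
  rw [goal1, h3, ← h1]
  calc _ = 2 ^ k * (((j : ℝ) + 1) * Nat.centralBinom (j + 1)) *
        (((k + 1 + j + (k + 1)).choose (k + 1 + j)) * ((k : ℝ) + 1)) * (k.choose l) := by ring
    _ = _ := by rw [← h2]; ring

/-- certificate polynomial -/
noncomputable def c (l m k : ℝ) : ℝ := 16 * (m + 2 - l) * (k - m - 2) * (k + m + 1) +
  8 * (2 * m + 3) * (m + 2) - 8 * (2 * m + 1) * (2 * m + 3) * (k - m - 2)

/-- termwise recurrence combination -/
noncomputable def LT (l m k : ℕ) : ℝ :=
  ((m : ℝ) + 2 - l) * (m + 1) * (m + 2) * t l (m + 2) k -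
    2 * (m + 1) * (8 * m ^ 2 + 24 * m + 19 - 4 * l ^ 2) * t l (m + 1) k +
    4 * (m + l + 1) * (4 * m + 3) * (4 * m + 5) * t l m k

theorem LT_term (l k j : ℕ) : ((j : ℝ) + 1) * (j + 2) * LT l (k + j) k =
    (((k : ℝ) + j + k + 1) * (j + 2) * c l (k + j) (k + 1) -
      (k - l) * (2 * j + 1) * c l (k + j) k) * t l (k + j) k := by
  have h1 := t_m l k j
  have h2 := t_m l k (j + 1)
  have e : k + (j + 1) = k + j + 1 := by ring
  rw [e] at h2
  push_cast at h2
  have e2 : k + j + 1 + 1 = k + j + 2 := by ring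
  rw [e2] at h2
  unfold LT
  push_cast
  have key : ((k : ℝ) + j + 1) * (k + j + 2) * (j + 1) * (j + 2) * t l (k + j + 2) k =
      4 * (2 * j + 1) * (2 * j + 3) * (2 * k + j + 1) * (2 * k + j + 2) * t l (k + j) k := by
    have : ((k : ℝ) + j + 1) * (k + j + 2) * (j + 1) * (j + 2) * t l (k + j + 2) k =
        ((k : ℝ) + j + 1) * (j + 1) * ((k + (j + 1) + 1) * (j + 1 + 1) * t l (k + j + 2) k) := by
      ring
    rw [this, h2]
    calc _ = 2 * (2 * (j + 1) + 1) * (2 * k + (j + 1) + 1) *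
          (((k : ℝ) + j + 1) * (j + 1) * t l (k + j + 1) k) := by ring
      _ = _ := by rw [h1]; ring
  have expand : ((j : ℝ) + 1) * (j + 2) *
      (((k : ℝ) + j + 2 - l) * (k + j + 1) * (k + j + 2) * t l (k + j + 2) k -
        2 * (k + j + 1) * (8 * (k + j) ^ 2 + 24 * (k + j) + 19 - 4 * l ^ 2) * t l (k + j + 1) k +
        4 * (k + j + l + 1) * (4 * (k + j) + 3) * (4 * (k + j) + 5) * t l (k + j) k) =
      ((k : ℝ) + j + 2 - l) *
        (((k : ℝ) + j + 1) * (k + j + 2) * (j + 1) * (j + 2) * t l (k + j + 2) k) -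
      2 * (j + 2) * (8 * (k + j) ^ 2 + 24 * (k + j) + 19 - 4 * l ^ 2) *
        (((k : ℝ) + j + 1) * (j + 1) * t l (k + j + 1) k) +
      (j + 1) * (j + 2) *
        (4 * (k + j + l + 1) * (4 * (k + j) + 3) * (4 * (k + j) + 5)) * t l (k + j) k := by ring
  rw [expand, key, h1]
  unfold c
  ring

theorem tele (l m : ℕ) : ∀ K : ℕ, K ≤ m → ((m : ℝ) + 1 - K) * ∑ k ∈ range (K + 1), LT l m k =
    (m + K + 1) * c l m (K + 1) * t l m K := by
  intro K
  induction K with
  | zero =>
    intro _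
    have h := LT_term l 0 m
    simp only [zero_add, Nat.cast_zero] at h
    have h0 : (l : ℝ) * t l m 0 = 0 := by
      rcases Nat.eq_zero_or_pos l with hl | hl
      · simp [hl]
      · unfold t
        rw [Nat.choose_eq_zero_of_lt hl]
        simp
    have hm : (m : ℝ) + 2 ≠ 0 := by positivity
    simp only [zero_add, sum_range_one, Nat.cast_zero]
    have h2 : ((m : ℝ) + 2) * (((m : ℝ) + 1) * LT l m 0) =
        (m + 2) * ((m + 1) * c l m 1 * t l m 0) := by
      have : ((m : ℝ) + 1) * (m + 2) * LT l m 0 =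
          (m + 1) * (m + 2) * c l m 1 * t l m 0 + (2 * m + 1) * c l m 0 * (l * t l m 0) := by
        rw [h]; ring
      rw [h0] at this
      linarith
    have h3 := mul_left_cancel₀ hm h2
    rw [sub_zero, h3]
    ring
  | succ K ih =>
    intro hK
    obtain ⟨j, hj⟩ : ∃ j, m = K + 1 + j := ⟨m - (K + 1), by omega⟩
    have ih' := ih (by omega)
    rw [sum_range_succ]
    have hT := LT_term l (K + 1) j
    have hk := t_k l K j
    rw [← hj] at hT hk
    have hmr : (m : ℝ) = K + 1 + j := by rw [hj]; push_cast; ring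
    have e1 : (((K + 1 : ℕ) : ℝ) + j) = m := by rw [hmr]; push_cast; ring
    rw [e1] at hT
    push_cast at hT ⊢
    have hj2 : (j : ℝ) + 2 ≠ 0 := by positivity
    apply mul_left_cancel₀ hj2
    have f1 : (m : ℝ) + 1 - (K + 1) = j + 1 := by rw [hmr]; ring
    have f2 : (m : ℝ) + 1 - K = j + 2 := by rw [hmr]; ring
    rw [f1]
    rw [f2] at ih'
    have hk2 : ((K : ℝ) + 1 - l) * (2 * j + 1) * t l m (K + 1) =
        (j + 1) * (m + K + 1) * t l m K := by
      have g : (2 * (K : ℝ) + j + 2) = m + K + 1 := by rw [hmr]; ring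
      rw [g] at hk
      linarith
    calc ((j : ℝ) + 2) * ((j + 1) * (∑ x ∈ range (K + 1), LT l m x + LT l m (K + 1)))
        = (j + 1) * (((j : ℝ) + 2) * ∑ x ∈ range (K + 1), LT l m x) +
          ((j + 1) * (j + 2) * LT l m (K + 1)) := by ring
      _ = (j + 1) * ((m + K + 1) * c l m (K + 1) * t l m K) +
          ((m + (K + 1) + 1) * (j + 2) * c l m (K + 1 + 1) -
            (K + 1 - l) * (2 * j + 1) * c l m (K + 1)) * t l m (K + 1) := by rw [ih', hT]
      _ = c l m (K + 1) * ((j + 1) * (m + K + 1) * t l m K) +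
          (m + (K + 1) + 1) * (j + 2) * c l m (K + 1 + 1) * t l m (K + 1) -
            c l m (K + 1) * ((K + 1 - l) * (2 * j + 1) * t l m (K + 1)) := by ring
      _ = _ := by rw [hk2]; ring

/-- the sum -/
noncomputable def S (l m : ℕ) : ℝ := ∑ k ∈ range (m + 1), t l m k

theorem S_rec (l m : ℕ) (hl : l ≤ m) :
    ((m : ℝ) + 2 - l) * (m + 1) * (m + 2) * S l (m + 2) -
      2 * (m + 1) * (8 * m ^ 2 + 24 * m + 19 - 4 * l ^ 2) * S l (m + 1) +
      4 * (m + l + 1) * (4 * m + 3) * (4 * m + 5) * S l m = 0 := by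
  have h := tele l m m le_rfl
  have e0 : (m : ℝ) + 1 - m = 1 := by ring
  rw [e0, one_mul] at h
  have hS : ((m : ℝ) + 2 - l) * (m + 1) * (m + 2) * S l (m + 2) -
      2 * (m + 1) * (8 * m ^ 2 + 24 * m + 19 - 4 * l ^ 2) * S l (m + 1) +
      4 * (m + l + 1) * (4 * m + 3) * (4 * m + 5) * S l m =
      ∑ k ∈ range (m + 1), LT l m k +
        ((m : ℝ) + 2 - l) * (m + 1) * (m + 2) * (t l (m + 2) (m + 1) + t l (m + 2) (m + 2)) -
        2 * (m + 1) * (8 * m ^ 2 + 24 * m + 19 - 4 * l ^ 2) * t l (m + 1) (m + 1) := by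
    unfold S LT
    rw [sum_range_succ (n := m + 2), sum_range_succ (n := m + 1), sum_range_succ (n := m + 1)]
    simp only [sum_add_distrib, sum_sub_distrib, ← mul_sum]
    ring
  rw [hS, h]
  -- boundary
  have cb1 : ((m : ℝ) + 1) * Nat.centralBinom (m + 1) = 2 * (2 * m + 1) * Nat.centralBinom m := by
    exact_mod_cast Nat.succ_mul_centralBinom_succ m
  have cb2 : ((m : ℝ) + 2) * Nat.centralBinom (m + 2) =
      2 * (2 * m + 3) * Nat.centralBinom (m + 1) := by
    have := Nat.succ_mul_centralBinom_succ (m + 1)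
    have h' : (((m + 1 + 1 : ℕ)) : ℝ) * (Nat.centralBinom (m + 1 + 1) : ℕ) =
      ((2 * (2 * (m + 1) + 1) * Nat.centralBinom (m + 1) : ℕ) : ℝ) := by exact_mod_cast this
    push_cast at h'
    linarith
  have half : ((m + 2 + (m + 1)).choose (m + 2) : ℝ) * 2 = Nat.centralBinom (m + 2) := by
    have h1 : Nat.centralBinom (m + 2) =
        (m + 2 + (m + 1)).choose (m + 2) + (m + 2 + (m + 1)).choose (m + 1) := by
      rw [Nat.centralBinom]
      have e : 2 * (m + 2) = (m + 2 + (m + 1)) + 1 := by ring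
      rw [e, Nat.choose_succ_succ' (m + 2 + (m + 1)) (m + 1)]
      ring
    have h2 : (m + 2 + (m + 1)).choose (m + 2) = (m + 2 + (m + 1)).choose (m + 1) :=
      Nat.choose_symm_add
    rw [h1, ← h2]
    push_cast
    ring
  have ch1 : ((m : ℝ) + 1 - l) * ((m + 1).choose l) = (m + 1) * (m.choose l) := by
    have h' := Nat.choose_mul_succ_eq m l
    have h'' : ((m.choose l : ℕ) : ℝ) * ((m + 1 : ℕ) : ℝ) =
        ((m + 1).choose l : ℕ) * ((m + 1 - l : ℕ) : ℝ) := by exact_mod_cast h'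
    rw [Nat.cast_sub (by omega)] at h''
    push_cast at h''
    linarith
  have ch2 : ((m : ℝ) + 2 - l) * ((m + 2).choose l) = (m + 2) * ((m + 1).choose l) := by
    have h' := Nat.choose_mul_succ_eq (m + 1) l
    have h'' : (((m + 1).choose l : ℕ) : ℝ) * ((m + 1 + 1 : ℕ) : ℝ) =
        ((m + 1 + 1).choose l : ℕ) * ((m + 1 + 1 - l : ℕ) : ℝ) := by exact_mod_cast h'
    rw [Nat.cast_sub (by omega)] at h''
    push_cast at h''
    linarith
  have T1 : t l (m + 2) (m + 1) = 2 ^ m * 2 * Nat.centralBinom (m + 2) * ((m + 1).choose l) := by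
    unfold t
    have e : m + 2 - (m + 1) = 1 := by omega
    have e1 : Nat.centralBinom 1 = 2 := by decide
    rw [e, e1, pow_succ, ← half]
    push_cast
    ring
  have T2 : t l (m + 2) (m + 2) = 2 ^ m * 4 * Nat.centralBinom (m + 2) * ((m + 2).choose l) := by
    unfold t
    rw [Nat.sub_self, Nat.centralBinom_zero, Nat.centralBinom, two_mul (m + 2), pow_add]
    push_cast
    ring
  have T3 : t l (m + 1) (m + 1) = 2 ^ m * 2 * Nat.centralBinom (m + 1) * ((m + 1).choose l) := by
    unfold t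
    rw [Nat.sub_self, Nat.centralBinom_zero, Nat.centralBinom, two_mul (m + 1), pow_add]
    push_cast
    ring
  have T4 : t l m m = 2 ^ m * Nat.centralBinom m * (m.choose l) := by
    unfold t
    rw [Nat.sub_self, Nat.centralBinom_zero, Nat.centralBinom, two_mul m]
    push_cast
    ring
  rw [T1, T2, T3, T4]
  have hne : ((m : ℝ) + 1 - l) ≠ 0 := by
    have : (l : ℝ) ≤ m := by exact_mod_cast hl
    intro hc
    linarith
  have hm1 : (m : ℝ) + 1 ≠ 0 := by positivity
  have hm2 : (m : ℝ) + 2 ≠ 0 := by positivity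
  apply mul_left_cancel₀ hne
  rw [mul_zero]
  set A := (Nat.centralBinom m : ℝ) with hA
  set B := (Nat.centralBinom (m + 1) : ℝ) with hB
  set C := (Nat.centralBinom (m + 2) : ℝ) with hC
  set X := (m.choose l : ℝ) with hX
  set Y := ((m + 1).choose l : ℝ) with hY
  set Z := ((m + 2).choose l : ℝ) with hZ
  set q := (2 : ℝ) ^ m with hq
  have hCe : C = 2 * (2 * m + 3) * B / (m + 2) := by field_simp; linarith
  have hAe : A = (m + 1) * B / (2 * (2 * m + 1)) := by
    have : (2 : ℝ) * m + 1 ≠ 0 := by positivity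
    field_simp
    linarith
  have hXe : X = (m + 1 - l) * Y / (m + 1) := by field_simp; linarith
  have step : ((m : ℝ) + 2 - l) * (m + 1) * (m + 2) * (q * 2 * C * Y + q * 4 * C * Z) =
      (m + 1) * (m + 2) * q * 2 * C * Y * (m + 2 - l + 2 * (m + 2)) := by
    calc _ = (m + 1) * (m + 2) * q * C * (2 * (m + 2 - l) * Y + 4 * ((m + 2 - l) * Z)) := by ring
      _ = _ := by rw [ch2]; ring
  rw [step, hCe, hAe, hXe]
  unfold c
  have : (2 : ℝ) * m + 1 ≠ 0 := by positivity
  field_simp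
  ring

end Pool.Agent.R107.BM
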