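import Pool.Agent.R107.BMIneq
import Pool.Agent.R107.BMRec

/-!
# Bounds for the ratios of the transposed Boros-Moll sequence
-/

set_option autoImplicit false

namespace Pool.Agent.R107.BM

open Finset

/-- the numbers `S / 4^m` -/
noncomputable def dd (l m : ℕ) : ℝ := S l m / 4 ^ m

theorem t_nonneg (l m k : ℕ) : 0 ≤ t l m k := by unfold t; positivity

theorem S_pos (l m : ℕ) (h : l ≤ m) : 0 < S l m := by
  unfold S
  apply sum_pos' (fun k _ => t_nonneg l m k)
  refine ⟨m, by simp, ?_⟩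
  unfold t
  have h1 : 0 < m.choose l := Nat.choose_pos h
  have h2 : 0 < (m + m).choose m := Nat.choose_pos (by omega)
  have h3 := Nat.centralBinom_pos (m - m)
  have h1' : (0 : ℝ) < m.choose l := by exact_mod_cast h1
  have h2' : (0 : ℝ) < (m + m).choose m := by exact_mod_cast h2
  have h3' : (0 : ℝ) < Nat.centralBinom (m - m) := by exact_mod_cast h3
  positivity

theorem dd_pos (l m : ℕ) (h : l ≤ m) : 0 < dd l m := div_pos (S_pos l m h) (by positivity)

theorem dd_rec (l m : ℕ) (hl : l ≤ m) :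
    4 * ((m : ℝ) + 2 - l) * (m + 1) * (m + 2) * dd l (m + 2) =
      2 * (m + 1) * (8 * m ^ 2 + 24 * m + 19 - 4 * l ^ 2) * dd l (m + 1) -
      (m + l + 1) * (4 * m + 3) * (4 * m + 5) * dd l m := by
  have h := S_rec l m hl
  have e0 : S l m = 4 ^ m * dd l m := by unfold dd; field_simp
  have e1 : S l (m + 1) = 4 ^ m * 4 * dd l (m + 1) := by unfold dd; rw [pow_succ]; field_simp
  have e2 : S l (m + 2) = 4 ^ m * 16 * dd l (m + 2) := by
    unfold dd
    rw [pow_add]
    norm_num
    field_simp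
  rw [e0, e1, e2] at h
  have hp : (4 : ℝ) ^ m * 4 ≠ 0 := by positivity
  apply mul_left_cancel₀ hp
  linarith

/-- normalised ratio -/
noncomputable def N (l m : ℕ) : ℝ := 2 * ((m : ℝ) + 1) * (m + 1 - l) * dd l (m + 1) / dd l m

theorem N_mul (l m : ℕ) (h : l ≤ m) :
    N l m * dd l m = 2 * ((m : ℝ) + 1) * (m + 1 - l) * dd l (m + 1) := by
  unfold N
  have := (dd_pos l m h).ne'
  field_simp

theorem N_pos (l m : ℕ) (h : l ≤ m) : 0 < N l m := by
  unfold N
  have h1 := dd_pos l m h
  have h2 := dd_pos l (m + 1) (by omega)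
  have h3 : (l : ℝ) ≤ m := by exact_mod_cast h
  have h4 : (0 : ℝ) < (m : ℝ) + 1 - l := by linarith
  positivity

theorem N_base (l : ℕ) : N l l = (2 * (l : ℝ) + 1) * (2 * l + 3) := by
  have cb1 : ((l : ℝ) + 1) * Nat.centralBinom (l + 1) = 2 * (2 * l + 1) * Nat.centralBinom l := by
    exact_mod_cast Nat.succ_mul_centralBinom_succ l
  have half : ((l + 1 + l).choose (l + 1) : ℝ) * 2 = Nat.centralBinom (l + 1) := by
    have h1 : Nat.centralBinom (l + 1) =
        (l + 1 + l).choose (l + 1) + (l + 1 + l).choose l := by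
      rw [Nat.centralBinom]
      have e : 2 * (l + 1) = (l + 1 + l) + 1 := by ring
      rw [e, Nat.choose_succ_succ' (l + 1 + l) l]
      ring
    have h2 : (l + 1 + l).choose (l + 1) = (l + 1 + l).choose l := Nat.choose_symm_add
    rw [h1, ← h2]
    push_cast
    ring
  have z : ∀ k ∈ range l, t l l k = 0 := by
    intro k hk
    unfold t
    rw [Nat.choose_eq_zero_of_lt (mem_range.mp hk)]
    simp
  have z1 : ∀ k ∈ range l, t l (l + 1) k = 0 := by
    intro k hk
    unfold t
    rw [Nat.choose_eq_zero_of_lt (mem_range.mp hk)]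
    simp
  have s0 : S l l = 2 ^ l * Nat.centralBinom l := by
    unfold S
    rw [sum_range_succ, sum_eq_zero z, zero_add]
    unfold t
    rw [Nat.sub_self, Nat.centralBinom_zero, Nat.choose_self, Nat.centralBinom, two_mul l]
    push_cast
    ring
  have s1 : S l (l + 1) = 2 ^ l * Nat.centralBinom (l + 1) * (2 * l + 3) := by
    unfold S
    rw [sum_range_succ, sum_range_succ, sum_eq_zero z1, zero_add]
    have a1 : t l (l + 1) l = 2 ^ l * Nat.centralBinom (l + 1) := by
      unfold t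
      have e : l + 1 - l = 1 := by omega
      have e1 : Nat.centralBinom 1 = 2 := by decide
      rw [e, e1, Nat.choose_self, ← half]
      push_cast
      ring
    have a2 : t l (l + 1) (l + 1) = 2 ^ l * 2 * Nat.centralBinom (l + 1) * (l + 1) := by
      unfold t
      rw [Nat.sub_self, Nat.centralBinom_zero, Nat.choose_succ_self_right, Nat.centralBinom,
        two_mul (l + 1)]
      push_cast
      ring
    rw [a1, a2]
    ring
  unfold N dd
  rw [s0, s1]
  have hA : (0 : ℝ) < Nat.centralBinom l := by exact_mod_cast Nat.centralBinom_pos l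
  have hA' := hA.ne'
  rw [pow_succ]
  have e : (l : ℝ) + 1 - l = 1 := by ring
  rw [e]
  field_simp
  linear_combination 2 * cb1

theorem N_succ (l m : ℕ) (h : l ≤ m) : N l (m + 1) * N l m =
    (8 * ((m : ℝ) + 1) ^ 2 + 8 * (m + 1) + 3 - 4 * l ^ 2) * N l m -
      (((m : ℝ) + 1) ^ 2 - l ^ 2) * (16 * (m + 1) ^ 2 - 1) := by
  have hr := dd_rec l m h
  have h0 := N_mul l m h
  have h1 := N_mul l (m + 1) (by omega)
  push_cast at h1
  have p0 := dd_pos l m h
  have p1 := dd_pos l (m + 1) (by omega)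
  have hx : (0 : ℝ) < (m : ℝ) + 1 := by positivity
  have hne : (dd l (m + 1) * dd l m) * (2 * ((m : ℝ) + 1)) ≠ 0 := by positivity
  apply mul_left_cancel₀ hne
  have e2 : (m : ℝ) + 1 + 1 = m + 2 := by ring
  rw [e2] at h1
  -- both sides in terms of dd
  calc dd l (m + 1) * dd l m * (2 * ((m : ℝ) + 1)) * (N l (m + 1) * N l m)
      = (N l (m + 1) * dd l (m + 1)) * (N l m * dd l m) * (2 * ((m : ℝ) + 1)) := by ring
    _ = (4 * ((m : ℝ) + 2 - l) * (m + 1) * (m + 2) * dd l (m + 2)) * (N l m * dd l m) := by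
        rw [h1]; ring
    _ = (2 * (m + 1) * (8 * m ^ 2 + 24 * m + 19 - 4 * l ^ 2) * dd l (m + 1)) *
          (N l m * dd l m) -
        (m + l + 1) * (4 * m + 3) * (4 * m + 5) * dd l m *
          (2 * ((m : ℝ) + 1) * (m + 1 - l) * dd l (m + 1)) := by
        rw [hr]
        rw [sub_mul]
        congr 1
        rw [h0]
    _ = _ := by ring

/-- deficiency -/
noncomputable def e (l m : ℕ) : ℝ := 4 * ((m : ℝ) + 1) ^ 2 - 1 - N l m

theorem step_poly (L s : ℝ) (hL : 0 ≤ L) (hs : 0 ≤ s) :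
    0 ≤ 3 * (L + s + 2) * ((4 * (L + s + 2) ^ 2 - 1) *
      (3 * ((L + s + 1) ^ 2 - (L + 1) ^ 2) + 4 * (L + 1) ^ 2 * (L + s + 1)) -
        3 * (L + s + 1) * ((L + s + 1) ^ 2 - (L + 1) ^ 2)) -
      (3 * ((L + s + 2) ^ 2 - (L + 1) ^ 2) + 4 * (L + 1) ^ 2 * (L + s + 2)) *
        (3 * (3 * ((L + s + 1) ^ 2 - (L + 1) ^ 2) + 4 * (L + 1) ^ 2 * (L + s + 1)) +
          4 * (3 * (L + s + 1) * ((L + s + 1) ^ 2 - (L + 1) ^ 2))) := by
  ring_nf
  positivity

theorem e_bound (l : ℕ) (hl : 1 ≤ l) : ∀ m : ℕ, l ≤ m → 0 ≤ e l m ∧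
    (3 * ((m : ℝ) ^ 2 - l ^ 2) + 4 * l ^ 2 * m) * e l m ≤ 3 * m * ((m : ℝ) ^ 2 - l ^ 2) := by
  intro m hm
  induction m, hm using Nat.le_induction with
  | base =>
    have : e l l = 0 := by
      unfold e
      rw [N_base]
      ring
    rw [this]
    simp
  | succ m hm ih =>
    obtain ⟨h0, h1⟩ := ih
    have hs := N_succ l m hm
    have hy := N_pos l m hm
    have hmr : (l : ℝ) ≤ m := by exact_mod_cast hm
    have hlr : (1 : ℝ) ≤ l := by exact_mod_cast hl
    set x : ℝ := (m : ℝ) + 1 with hx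
    have ey : N l m = 4 * x ^ 2 - 1 - e l m := by unfold e; rw [hx]; ring
    have key : e l (m + 1) * N l m = (x ^ 2 - (l : ℝ) ^ 2) * (3 + 4 * e l m) := by
      have : e l (m + 1) * N l m = (4 * (x + 1) ^ 2 - 1) * N l m - N l (m + 1) * N l m := by
        unfold e
        push_cast
        rw [hx]
        ring
      rw [this, hs, ey]
      ring
    have hxl : 0 ≤ x ^ 2 - (l : ℝ) ^ 2 := by nlinarith
    constructor
    · have : 0 ≤ e l (m + 1) * N l m := by
        rw [key]
        positivity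
      exact nonneg_of_mul_nonneg_left this hy
    · have cast : ((m + 1 : ℕ) : ℝ) = x := by rw [hx]; push_cast; ring
      rw [cast]
      have hmx : (m : ℝ) = x - 1 := by rw [hx]; ring
      rw [hmx] at h1 hmr
      set D1 := 3 * ((x - 1) ^ 2 - (l : ℝ) ^ 2) + 4 * (l : ℝ) ^ 2 * (x - 1) with hD1
      set D := 3 * (x ^ 2 - (l : ℝ) ^ 2) + 4 * (l : ℝ) ^ 2 * x with hD
      have hD1pos : 0 < D1 := by
        have : (l : ℝ) ^ 2 ≤ (x - 1) ^ 2 := by nlinarith
        have h2 : 0 < (l : ℝ) ^ 2 * (x - 1) := by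
          have : 0 < x - 1 := by linarith
          positivity
        rw [hD1]; nlinarith
      have hDpos : 0 < D := by
        have h2 : 0 < (l : ℝ) ^ 2 * x := by
          have : 0 < x := by linarith
          positivity
        rw [hD]; nlinarith
      have hpoly := step_poly ((l : ℝ) - 1) (x - 1 - l) (by linarith) (by linarith)
      have f1 : (l : ℝ) - 1 + (x - 1 - l) + 2 = x := by ring
      have f2 : (l : ℝ) - 1 + (x - 1 - l) + 1 = x - 1 := by ring
      have f3 : (l : ℝ) - 1 + 1 = l := by ring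
      rw [f1, f2, f3, ← hD1, ← hD] at hpoly
      -- D (3 + 4 e) ≤ 3 x (4x² - 1 - e)
      have main : D * (3 + 4 * e l m) ≤ 3 * x * (4 * x ^ 2 - 1 - e l m) := by
        have hx0 : 0 ≤ 4 * D + 3 * x := by nlinarith
        have : 0 ≤ D1 * (3 * x * (4 * x ^ 2 - 1 - e l m) - D * (3 + 4 * e l m)) := by
          have h2 : D1 * (3 * x * (4 * x ^ 2 - 1 - e l m) - D * (3 + 4 * e l m)) =
              D1 * (3 * x * (4 * x ^ 2 - 1) - 3 * D) - (4 * D + 3 * x) * (D1 * e l m) := by ring
          rw [h2]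
          have h3 := mul_le_mul_of_nonneg_left h1 hx0
          nlinarith
        have h4 := nonneg_of_mul_nonneg_right this hD1pos
        linarith
      have : D * e l (m + 1) * N l m ≤ 3 * x * (x ^ 2 - (l : ℝ) ^ 2) * N l m := by
        calc D * e l (m + 1) * N l m = D * (e l (m + 1) * N l m) := by ring
          _ = (x ^ 2 - (l : ℝ) ^ 2) * (D * (3 + 4 * e l m)) := by rw [key]; ring
          _ ≤ (x ^ 2 - (l : ℝ) ^ 2) * (3 * x * (4 * x ^ 2 - 1 - e l m)) :=
              mul_le_mul_of_nonneg_left main hxl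
          _ = _ := by rw [ey]; ring
      exact le_of_mul_le_mul_right this hy

end Pool.Agent.R107.BM
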