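import Pool.Agent.R107.PolyRef

/-!
# Polynomial inequalities for the Boros-Moll ratio recursion

All polynomials are written in `x = ℓ - 1` and `y = m - ℓ - 1`.
-/

set_option autoImplicit false

namespace Pool.Agent.R107.BMPoly

open PolyRef

def El : Ex := .x + 1
def Em : Ex := .x + .y + 2
def Es : Ex := .y + 1
def Ea : Ex := 8 * Em ^ 2 + 8 * Em + 3 - 4 * El ^ 2
def Eap : Ex := 8 * (Em + 1) ^ 2 + 8 * (Em + 1) + 3 - 4 * El ^ 2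
def Ean : Ex := 8 * (Em - 1) ^ 2 + 8 * (Em - 1) + 3 - 4 * El ^ 2
def Eb : Ex := (Em ^ 2 - El ^ 2) * (16 * Em ^ 2 - 1)
def Ebp : Ex := ((Em + 1) ^ 2 - El ^ 2) * (16 * (Em + 1) ^ 2 - 1)
def EB : Ex := (Em - 1 + El) * (4 * Em - 5) * (4 * Em - 3) * (Em * Es) ^ 3 * (Em + 2) * (Es + 2)
def EQ : Ex := ((Em + 1) * (Es + 1)) ^ 3 * (Em - 1)
def Ega : Ex := 4 * Em ^ 2 - 1
def Eal : Ex := Ea * Ega - Eb
def Ela : Ex := Eap * Ea - Ebp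
def Eka : Ex := Ela * Ega - Eap * Eb
def Emu : Ex := Ean - 4 * Em ^ 2 + 1
def ED : Ex := 3 * ((Em - 1) ^ 2 - El ^ 2) + 4 * El ^ 2 * (Em - 1)
def EN : Ex := 3 * (Em - 1) * ((Em - 1) ^ 2 - El ^ 2)
def Ekm : Ex := Eka - Ela * Emu

def Ec0 : Ex := EB * Eal ^ 4 - EQ * (Ega ^ 6 * (Eka * Emu))
def Ek1 : Ex := 4 * EB * (Eal ^ 3 * Ea) + EQ * (Ega ^ 6 * Ekm - 6 * (Ega ^ 5 * (Eka * Emu)))
def Ec2 : Ex := 6 * EB * (Eal ^ 2 * Ea ^ 2) -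
  EQ * (15 * (Ega ^ 4 * (Eka * Emu)) - 6 * (Ega ^ 5 * Ekm) - Ega ^ 6 * Ela)
def Ek3 : Ex := 4 * EB * (Eal * Ea ^ 3) +
  EQ * (15 * (Ega ^ 4 * Ekm) + 6 * (Ega ^ 5 * Ela) - 20 * (Ega ^ 3 * (Eka * Emu)))
def Ec4 : Ex := EB * Ea ^ 4 -
  EQ * (15 * (Ega ^ 2 * (Eka * Emu)) - 20 * (Ega ^ 3 * Ekm) - 15 * (Ega ^ 4 * Ela))
def Ek5 : Ex := EQ * (15 * (Ega ^ 2 * Ekm) + 20 * (Ega ^ 3 * Ela) - 6 * (Ega * (Eka * Emu)))
def Ec6 : Ex := EQ * (6 * (Ega * Ekm) + 15 * (Ega ^ 2 * Ela) - Eka * Emu)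
def Ek7 : Ex := EQ * (Ekm + 6 * (Ega * Ela))
def Ec8 : Ex := EQ * Ela

theorem k1 : nn2 Ek1.norm = true := by decide +kernel
theorem k3 : nn2 Ek3.norm = true := by decide +kernel
theorem k5 : nn2 Ek5.norm = true := by decide +kernel
theorem k7 : nn2 Ek7.norm = true := by decide +kernel
theorem c8 : nn2 Ec8.norm = true := by decide +kernel
theorem t0 : nn2 (ED * Ec0 - EN * Ek1).norm = true := by decide +kernel
theorem t2 : nn2 (ED * Ec2 - EN * Ek3).norm = true := by decide +kernel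
theorem t4 : nn2 (ED * Ec4 - EN * Ek5).norm = true := by decide +kernel
theorem t6 : nn2 (ED * Ec6 - EN * Ek7).norm = true := by decide +kernel

end Pool.Agent.R107.BMPoly
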