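import Mathlib

namespace Pool.Agent.R107.TruncTheta

open PowerSeries PowerSeries.WithPiTopology Finset

/-- generating function of the partitions all of whose parts satisfy `pr` -/
noncomputable def R (pr : ℕ → Prop) [DecidablePred pr] : ℤ⟦X⟧ :=
  PowerSeries.mk fun n => ((Nat.Partition.restricted n pr).card : ℤ)

lemma R_eq (pr : ℕ → Prop) [DecidablePred pr] :
    R pr = ∏' i, if pr (i + 1) then ∑' j : ℕ, (X : ℤ⟦X⟧) ^ ((i + 1) * j) else 1 :=
  Nat.Partition.powerSeriesMk_card_restricted_eq_tprod ℤ pr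

lemma R_split (pr : ℕ → Prop) [DecidablePred pr] (d : ℕ) (hd : pr (d + 1)) :
    (1 - X ^ (d + 1)) * R pr = R (fun i => pr i ∧ i ≠ d + 1) := by
  rw [R_eq, R_eq]
  have hm := Nat.Partition.multipliable_powerSeriesMk_card_restricted ℤ
    (fun i => pr i ∧ i ≠ d + 1)
  rw [Multipliable.tprod_eq_mul_tprod_ite' d]
  · rw [if_pos hd, ← mul_assoc]
    have h1 : (1 - X ^ (d + 1)) * ∑' j : ℕ, (X : ℤ⟦X⟧) ^ ((d + 1) * j) = 1 := by
      simp_rw [pow_mul]
      rw [mul_comm]
      exact tsum_pow_mul_one_sub_of_constantCoeff_eq_zero (by simp)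
    rw [h1, one_mul]
    apply tprod_congr
    intro i
    by_cases hi : i = d
    · subst hi
      simp
    · by_cases hp : pr (i + 1)
      · simp [hi, hp]
      · simp [hi, hp]
  · have e : Function.update (fun i => if pr (i + 1) then
        ∑' j : ℕ, (X : ℤ⟦X⟧) ^ ((i + 1) * j) else 1) d 1 =
        fun i => if pr (i + 1) ∧ i + 1 ≠ d + 1 then ∑' j : ℕ, (X : ℤ⟦X⟧) ^ ((i + 1) * j) else 1 := by
      funext i
      by_cases hi : i = d
      · subst hi
        simp
      · by_cases hp : pr (i + 1)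
        · simp [hi, hp]
        · simp [hi, hp]
    rw [e]
    exact hm

lemma coeff_R_nonneg (pr : ℕ → Prop) [DecidablePred pr] (n : ℕ) : 0 ≤ coeff n (R pr) := by
  unfold R
  rw [PowerSeries.coeff_mk]
  positivity

/-- the infinite product `∏ (1 + q^i)` -/
noncomputable def A : ℤ⟦X⟧ := ∏' i : ℕ, (1 + X ^ (i + 1))

lemma A_eq_R : A = R (fun i => ¬ 2 ∣ i) := by
  unfold A R
  rw [Nat.Partition.powerSeriesMk_card_restricted_eq_powerSeriesMk_card_countRestricted
    (R := ℤ) (m := 2) (by norm_num)]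
  rw [Nat.Partition.powerSeriesMk_card_countRestricted_eq_tprod ℤ (m := 2) (by norm_num)]
  apply tprod_congr
  intro i
  simp [Finset.sum_range_succ]

/-- the number of partitions of `n` into parts `1`, `3`, `5` -/
def p (n : ℤ) : ℤ := if n < 0 then 0 else (n ^ 2 + 9 * n) / 30 + 1

/-- the extension -/
def q (n : ℤ) : ℤ := (n ^ 2 + 9 * n) / 30 + 1

lemma q_shift (m r : ℤ) : q (30 * m + r) = (30 * m ^ 2 + 2 * m * r + 9 * m) + q r := by
  unfold q
  have : (30 * m + r) ^ 2 + 9 * (30 * m + r) =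
    (r ^ 2 + 9 * r) + 30 * (30 * m ^ 2 + 2 * m * r + 9 * m) := by ring
  rw [this, Int.add_mul_ediv_left _ _ (by norm_num)]
  ring

lemma p_eq_q {n : ℤ} (h : -8 ≤ n) : p n = q n := by
  unfold p q
  split_ifs with h0
  · have : n = -8 ∨ n = -7 ∨ n = -6 ∨ n = -5 ∨ n = -4 ∨ n = -3 ∨ n = -2 ∨ n = -1 := by omega
    rcases this with rfl | rfl | rfl | rfl | rfl | rfl | rfl | rfl <;> rfl
  · rfl

lemma p_neg {n : ℤ} (h : n < 0) : p n = 0 := by
  unfold p
  rw [if_pos h]

lemma p_rec {n : ℤ} (h : 1 ≤ n) :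
    p n - p (n - 1) - p (n - 3) + p (n - 4) - p (n - 5) + p (n - 6) + p (n - 8) - p (n - 9) = 0 := by
  rw [p_eq_q (n := n) (by omega), p_eq_q (n := n - 1) (by omega), p_eq_q (n := n - 3) (by omega),
    p_eq_q (n := n - 4) (by omega), p_eq_q (n := n - 5) (by omega), p_eq_q (n := n - 6) (by omega),
    p_eq_q (n := n - 8) (by omega), p_eq_q (n := n - 9) (by omega)]
  obtain ⟨m, r, hr0, hr1, rfl⟩ : ∃ m r : ℤ, 0 ≤ r ∧ r < 30 ∧ n = 30 * m + r :=
    ⟨n / 30, n % 30, Int.emod_nonneg _ (by norm_num), Int.emod_lt_of_pos _ (by norm_num),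
      by have := Int.mul_ediv_add_emod n 30; omega⟩
  have key : ∀ r : ℤ, 0 ≤ r → r < 30 →
      q r - q (r - 1) - q (r - 3) + q (r - 4) - q (r - 5) + q (r - 6) + q (r - 8) - q (r - 9) = 0 := by
    intro r h0 h1
    interval_cases r <;> decide
  rw [q_shift, show 30 * m + r - 1 = 30 * m + (r - 1) by ring, q_shift,
    show 30 * m + r - 3 = 30 * m + (r - 3) by ring, q_shift,
    show 30 * m + r - 4 = 30 * m + (r - 4) by ring, q_shift,
    show 30 * m + r - 5 = 30 * m + (r - 5) by ring, q_shift,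
    show 30 * m + r - 6 = 30 * m + (r - 6) by ring, q_shift,
    show 30 * m + r - 8 = 30 * m + (r - 8) by ring, q_shift,
    show 30 * m + r - 9 = 30 * m + (r - 9) by ring, q_shift]
  have := key r hr0 hr1
  linear_combination this

lemma p_bounds {n : ℤ} (h : 0 ≤ n) :
    n ^ 2 + 9 * n + 8 ≤ 30 * p n ∧ 30 * p n ≤ n ^ 2 + 9 * n + 30 := by
  rw [p_eq_q (by omega)]
  obtain ⟨m, r, hr0, hr1, rfl⟩ : ∃ m r : ℤ, 0 ≤ r ∧ r < 30 ∧ n = 30 * m + r :=
    ⟨n / 30, n % 30, Int.emod_nonneg _ (by norm_num), Int.emod_lt_of_pos _ (by norm_num),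
      by have := Int.mul_ediv_add_emod n 30; omega⟩
  have key : ∀ r : ℤ, 0 ≤ r → r < 30 → r ^ 2 + 9 * r + 8 ≤ 30 * q r ∧
      30 * q r ≤ r ^ 2 + 9 * r + 30 := by
    intro r h0 h1
    interval_cases r <;> decide
  have := key r hr0 hr1
  rw [q_shift]
  constructor
  · nlinarith [this.1]
  · nlinarith [this.2]

lemma p_nonneg (n : ℤ) : 0 ≤ p n := by
  rcases lt_or_ge n 0 with h | h
  · rw [p_neg h]
  · have := (p_bounds h).1
    nlinarith

/-- generating function of `p` -/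
noncomputable def P : ℤ⟦X⟧ := PowerSeries.mk fun n => p n

lemma one_sub_mul (f : ℤ → ℤ) (hf : ∀ n < 0, f n = 0) (d : ℕ) :
    (1 - X ^ d) * (PowerSeries.mk fun n : ℕ => f n) =
      PowerSeries.mk fun n : ℕ => f n - f (n - d) := by
  ext n
  rw [sub_mul, one_mul, map_sub, PowerSeries.coeff_X_pow_mul']
  simp only [PowerSeries.coeff_mk]
  split_ifs with h
  · rw [Nat.cast_sub h]
  · rw [hf ((n : ℤ) - d) (by omega)]

lemma P_inv : (1 - X ^ 5) * ((1 - X ^ 3) * ((1 - X ^ 1) * P)) = 1 := by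
  unfold P
  rw [one_sub_mul p (fun n hn => p_neg hn) 1,
    one_sub_mul (fun n => p n - p (n - (1 : ℕ))) (fun n hn => by
      rw [p_neg hn, p_neg (by push_cast; omega), sub_zero]) 3,
    one_sub_mul (fun n => (p n - p (n - (1 : ℕ))) - (p (n - (3 : ℕ)) - p (n - (3 : ℕ) - (1 : ℕ))))
      (fun n hn => by
      rw [p_neg hn, p_neg (by push_cast; omega), p_neg (by push_cast; omega),
        p_neg (by push_cast; omega)]
      norm_num) 5]
  ext n
  rw [PowerSeries.coeff_mk, PowerSeries.coeff_one]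
  split_ifs with h
  · subst h
    decide
  · have := p_rec (n := n) (by omega)
    push_cast
    rw [show (n : ℤ) - 3 - 1 = n - 4 by ring, show (n : ℤ) - 5 - 1 = n - 6 by ring,
      show (n : ℤ) - 5 - 3 = n - 8 by ring, show (n : ℤ) - 8 - 1 = n - 9 by ring]
    linear_combination this

/-- generating function of partitions into odd parts other than 1, 3, 5 -/
noncomputable def B : ℤ⟦X⟧ := R (fun i => ((¬ 2 ∣ i ∧ i ≠ 0 + 1) ∧ i ≠ 2 + 1) ∧ i ≠ 4 + 1)

lemma A_eq : A = P * B := by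
  have h1 := R_split (fun i => ¬ 2 ∣ i) 0 (by norm_num)
  have h2 := R_split (fun i => (¬ 2 ∣ i ∧ i ≠ 0 + 1)) 2 (by norm_num)
  have h3 := R_split (fun i => (¬ 2 ∣ i ∧ i ≠ 0 + 1) ∧ i ≠ 2 + 1) 4 (by norm_num)
  have hB : B = (1 - X ^ 5) * ((1 - X ^ 3) * ((1 - X ^ 1) * A)) := by
    unfold B
    rw [A_eq_R, ← h3, ← h2, ← h1]
  rw [hB]
  calc A = 1 * A := by ring
    _ = ((1 - X ^ 5) * ((1 - X ^ 3) * ((1 - X ^ 1) * P))) * A := by rw [P_inv]
    _ = _ := by ring

lemma coeff_mul_nonneg {f g : ℤ⟦X⟧} (hf : ∀ n, 0 ≤ coeff n f) (hg : ∀ n, 0 ≤ coeff n g) (n : ℕ) :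
    0 ≤ coeff n (f * g) := by
  rw [PowerSeries.coeff_mul]
  exact Finset.sum_nonneg fun x _ => mul_nonneg (hf _) (hg _)


/-- one pair of terms -/
def D (e : ℕ → ℕ) (J : ℕ) (N : ℤ) : ℤ := p (N - e (2 * J)) - p (N - e (2 * J + 1))

/-- alternating sum of `L` pairs starting from index `k` -/
def cc (e : ℕ → ℕ) : ℕ → ℕ → ℤ → ℤ
  | 0, _, _ => 0
  | L + 1, k, N => D e k N - cc e L (k + 1) N

/-- the truncated theta series with exponents `e (n + 2k)` -/
noncomputable def Th (e : ℕ → ℕ) (k : ℕ) : ℤ⟦X⟧ :=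
  PowerSeries.mk fun N => ∑ n ∈ Finset.range (N + 1),
    if e (n + 2 * k) = N then (-1 : ℤ) ^ (n * (n + 1) / 2) else 0

lemma sum_eq_cc (e : ℕ → ℕ) (L k : ℕ) (N : ℤ) :
    ∑ n ∈ Finset.range (2 * L), (-1 : ℤ) ^ (n * (n + 1) / 2) * p (N - e (n + 2 * k)) =
      cc e L k N := by
  induction L generalizing k with
  | zero => simp [cc]
  | succ L ih =>
    rw [cc, ← ih, show 2 * (L + 1) = 2 * L + 1 + 1 by ring, Finset.sum_range_succ',
      Finset.sum_range_succ']
    have h : ∀ n, (-1 : ℤ) ^ ((n + 1 + 1) * (n + 1 + 1 + 1) / 2) =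
        - (-1 : ℤ) ^ (n * (n + 1) / 2) := by
      intro n
      have : (n + 1 + 1) * (n + 1 + 1 + 1) / 2 = n * (n + 1) / 2 + (2 * n + 3) := by
        rw [show (n + 1 + 1) * (n + 1 + 1 + 1) = n * (n + 1) + (2 * n + 3) * 2 by ring,
          Nat.add_mul_div_right _ _ (by norm_num)]
      rw [this, pow_add, Odd.neg_one_pow (n := 2 * n + 3) ⟨n + 1, by ring⟩]
      ring
    have h2 : ∀ n, n + 1 + 1 + 2 * k = n + 2 * (k + 1) := by intro n; ring
    simp only [h, h2]
    unfold D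
    rw [show 0 + 1 + 2 * k = 2 * k + 1 by ring, show 0 + 2 * k = 2 * k by ring]
    simp only [neg_mul, Finset.sum_neg_distrib]
    norm_num
    ring

lemma coeff_P_mul_Th (e : ℕ → ℕ) (he : ∀ n, n ≤ e n) (k N L : ℕ) (hL : N + 1 ≤ 2 * L) :
    coeff N (P * Th e k) = cc e L k N := by
  rw [← sum_eq_cc, mul_comm P, PowerSeries.coeff_mul,
    Finset.Nat.sum_antidiagonal_eq_sum_range_succ (fun i j => coeff i (Th e k) * coeff j P)]
  have h1 : ∀ j ∈ Finset.range N.succ, coeff j (Th e k) * coeff (N - j) P =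
      ∑ n ∈ Finset.range (2 * L), if e (n + 2 * k) = j then
        (-1 : ℤ) ^ (n * (n + 1) / 2) * p (N - j) else 0 := by
    intro j hj
    rw [Finset.mem_range, Nat.lt_succ_iff] at hj
    unfold P Th
    rw [PowerSeries.coeff_mk, PowerSeries.coeff_mk, Finset.sum_mul,
      ← Finset.sum_subset (s₁ := Finset.range (j + 1)) (s₂ := Finset.range (2 * L))]
    · apply Finset.sum_congr rfl
      intro n _
      rw [Nat.cast_sub hj]
      split_ifs <;> ring
    · intro x hx
      rw [Finset.mem_range] at hx ⊢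
      omega
    · intro x _ hx
      rw [Finset.mem_range] at hx
      rw [if_neg]
      have := he (x + 2 * k)
      omega
  rw [Finset.sum_congr rfl h1, Finset.sum_comm]
  apply Finset.sum_congr rfl
  intro n _
  rw [Finset.sum_ite_eq]
  split_ifs with h
  · rfl
  · rw [Finset.mem_range, Nat.lt_succ_iff, not_le] at h
    rw [p_neg (n := (N : ℤ) - e (n + 2 * k)) (by omega), mul_zero]

lemma cc_append (e : ℕ → ℕ) (L L' k : ℕ) (N : ℤ) :
    cc e (L + L') k N = cc e L k N + (-1) ^ L * cc e L' (k + L) N := by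
  induction L generalizing k with
  | zero => simp [cc]
  | succ L ih =>
    rw [show L + 1 + L' = (L + L') + 1 by ring, cc, cc, ih, show k + 1 + L = k + (L + 1) by ring,
      pow_succ]
    ring

lemma cc_zero (e : ℕ → ℕ) (hmono : Monotone e) (L k : ℕ) (N : ℤ) (h : N < e (2 * k)) :
    cc e L k N = 0 := by
  induction L generalizing k with
  | zero => rfl
  | succ L ih =>
    have h1 : e (2 * k) ≤ e (2 * k + 1) := hmono (by omega)
    have h2 : e (2 * k) ≤ e (2 * (k + 1)) := hmono (by omega)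
    rw [cc, ih (k + 1) (by omega), D, p_neg (by omega), p_neg (by omega)]
    ring

/-- Error bound for the alternating sum. -/
lemma cc_est (e : ℕ → ℕ) (g : ℕ → ℤ → ℤ)
    (hg : ∀ J N, (e (2 * J + 1) : ℤ) ≤ N → |30 * D e J N - (g J N + g (J + 1) N)| ≤ 22)
    (L k : ℕ) (N : ℤ) (h : ∀ i < L, (e (2 * (k + i) + 1) : ℤ) ≤ N) :
    |30 * cc e L k N - (g k N - (-1) ^ L * g (k + L) N)| ≤ 22 * L := by
  induction L generalizing k with
  | zero => simp [cc]
  | succ L ih =>
    have h1 := hg k N (by simpa using h 0 (by omega))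
    have h2 := ih (k + 1) (fun i hi => by
      have := h (i + 1) (by omega)
      rwa [show k + (i + 1) = k + 1 + i by ring] at this)
    rw [cc, show k + (L + 1) = k + 1 + L by ring]
    have e1 : 30 * (D e k N - cc e L (k + 1) N) - (g k N - (-1) ^ (L + 1) * g (k + 1 + L) N) =
      (30 * D e k N - (g k N + g (k + 1) N)) -
        (30 * cc e L (k + 1) N - (g (k + 1) N - (-1) ^ L * g (k + 1 + L) N)) := by
      rw [pow_succ]; ring
    rw [e1]
    calc _ ≤ |30 * D e k N - (g k N + g (k + 1) N)| +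
        |30 * cc e L (k + 1) N - (g (k + 1) N - (-1) ^ L * g (k + 1 + L) N)| := abs_sub _ _
      _ ≤ 22 + 22 * L := add_le_add h1 h2
      _ = _ := by push_cast; ring

/-- checking all alternating sums for one `N` -/
def chk (e : ℕ → ℕ) (N : ℤ) : ℕ → ℤ → Bool
  | 0, _ => true
  | J + 1, acc => decide (0 ≤ D e (J + 1) N - acc) && chk e N J (D e (J + 1) N - acc)

lemma chk_spec (e : ℕ → ℕ) (N : ℤ) (J L : ℕ) (h : chk e N J (cc e L (J + 1) N) = true) :
    ∀ k, 1 ≤ k → k ≤ J → 0 ≤ cc e (L + (J + 1 - k)) k N := by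
  induction J generalizing L with
  | zero => intro k h1 h2; omega
  | succ J ih =>
    intro k h1 h2
    rw [chk, Bool.and_eq_true, decide_eq_true_eq] at h
    have e1 : D e (J + 1) N - cc e L (J + 1 + 1) N = cc e (L + 1) (J + 1) N := by
      rw [cc]
    rw [e1] at h
    rcases Nat.lt_or_ge J k with hk | hk
    · have : k = J + 1 := by omega
      subst this
      rw [show J + 1 + 1 - (J + 1) = 1 by omega]
      exact h.1
    · have := ih (L + 1) h.2 k h1 hk
      rwa [show L + 1 + (J + 1 - k) = L + (J + 1 + 1 - k) by omega] at this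

/-- Reduction of nonnegativity to a finite check and an estimate. -/
lemma coeff_nonneg_of (e : ℕ → ℕ) (he : ∀ n, n ≤ e n) (hmono : Monotone e) (he0 : e 0 = 0)
    (k : ℕ)
    (H : ∀ (M N : ℕ), e (2 * M) ≤ N → N < e (2 * (M + 1)) → k ≤ M →
      0 ≤ cc e (M + 1 - k) k N) (N : ℕ) :
    0 ≤ coeff N (A * Th e k) := by
  rw [A_eq, mul_comm P B, mul_assoc]
  apply coeff_mul_nonneg
  · intro n; exact coeff_R_nonneg _ n
  · intro N
    rw [coeff_P_mul_Th e he k N (N + 1) (by omega)]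
    obtain ⟨M, hM1, hM2⟩ : ∃ M, e (2 * M) ≤ N ∧ N < e (2 * (M + 1)) := by
      by_contra hcon
      push Not at hcon
      have : ∀ M, e (2 * M) ≤ N := by
        intro M
        induction M with
        | zero => simp [he0]
        | succ M ih => exact hcon M ih
      have h1 := this (N + 1)
      have h2 := he (2 * (N + 1))
      omega
    rcases Nat.lt_or_ge M k with hk | hk
    · have h3 : e (2 * (M + 1)) ≤ e (2 * k) := hmono (by omega)
      rw [cc_zero e hmono (N + 1) k N (by exact_mod_cast lt_of_lt_of_le hM2 h3)]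
    · have h2 := he (2 * M)
      have h4 := H M N hM1 hM2 hk
      have h5 := cc_append e (M + 1 - k) (N + 1 - (M + 1 - k)) k N
      rw [show M + 1 - k + (N + 1 - (M + 1 - k)) = N + 1 by omega,
        show k + (M + 1 - k) = M + 1 by omega,
        cc_zero e hmono _ (M + 1) N (by exact_mod_cast hM2), mul_zero, add_zero] at h5
      rw [h5]
      exact h4

/-- Finite part. -/
lemma small_of_chk (e : ℕ → ℕ) (hmono : Monotone e) (M0 : ℕ)
    (hc : ∀ N < e (2 * (M0 + 1)), chk e (N : ℤ) M0 0 = true) (k : ℕ) (hk1 : 1 ≤ k)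
    (M N : ℕ) (hM : M ≤ M0) (hN : N < e (2 * (M + 1))) (hk : k ≤ M) :
    0 ≤ cc e (M + 1 - k) k N := by
  have h1 : e (2 * (M + 1)) ≤ e (2 * (M0 + 1)) := hmono (by omega)
  have h2 := hc N (by omega)
  have h3 := chk_spec e N M0 0 (by simpa [cc] using h2) k hk1 (by omega)
  have h5 := cc_append e (M + 1 - k) (M0 - M) k N
  rw [show M + 1 - k + (M0 - M) = 0 + (M0 + 1 - k) by omega,
    show k + (M + 1 - k) = M + 1 by omega,
    cc_zero e hmono _ (M + 1) N (by exact_mod_cast hN), mul_zero, add_zero] at h5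
  rw [← h5]
  exact h3

end Pool.Agent.R107.TruncTheta
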