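import Mathlib
import Pool.Agent.R107.QProd
import Pool.Agent.R107.QuasiTheta
import Pool.Agent.R153.Hook2

/-!
Hooks of length two in `t`-regular partitions: generating function.
-/

namespace Pool.Agent.R107.HookMono

open PowerSeries PowerSeries.WithPiTopology Finset
open Pool.Agent.R107.TruncTheta (R R_eq R_split coeff_R_nonneg coeff_mul_nonneg)
open Pool.Agent.R107.QProd
open Pool.Agent.R107.QT (geo one_sub_mul_geo coeff_geo_mul R_split' R_eq_geo_mul)
open Pool.Agent.R153.Hook2 (hooks2 hooks2_eq)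

/-- counting the restricted partitions that contain a given multiset of parts -/
lemma card_contain (pr : ℕ → Prop) [DecidablePred pr] (s : Multiset ℕ)
    (hs : ∀ x ∈ s, pr x ∧ 0 < x) (n : ℕ) :
    (((Nat.Partition.restricted n pr).filter (fun p => s ≤ p.parts)).card : ℤ) =
      coeff n (X ^ s.sum * R pr) := by
  rw [PowerSeries.coeff_X_pow_mul']
  split_ifs with h
  · unfold R
    rw [PowerSeries.coeff_mk]
    norm_cast
    symm
    refine Finset.card_bij' (fun (q : (n - s.sum).Partition) _ =>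
        (⟨q.parts + s, by
          intro x hx
          rw [Multiset.mem_add] at hx
          rcases hx with hx | hx
          · exact q.parts_pos hx
          · exact (hs _ hx).2, by
          rw [Multiset.sum_add, q.parts_sum]; omega⟩ : n.Partition))
      (fun (p : n.Partition) hp =>
        (⟨p.parts - s, by
          intro x hx
          exact p.parts_pos (Multiset.mem_of_le (Multiset.sub_le_self _ _) hx), by
          have h1 : s ≤ p.parts := (Finset.mem_filter.1 hp).2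
          have h2 := congrArg Multiset.sum (Multiset.sub_add_cancel h1)
          rw [Multiset.sum_add, p.parts_sum] at h2
          omega⟩ : (n - s.sum).Partition)) ?_ ?_ ?_ ?_
    · intro q hq
      unfold Nat.Partition.restricted at hq ⊢
      rw [Finset.mem_filter] at hq
      rw [Finset.mem_filter, Finset.mem_filter]
      refine ⟨⟨Finset.mem_univ _, ?_⟩, ?_⟩
      · intro x hx
        simp only at hx
        rw [Multiset.mem_add] at hx
        rcases hx with hx | hx
        · exact hq.2 x hx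
        · exact (hs x hx).1
      · exact Multiset.le_add_left s q.parts
    · intro p hp
      unfold Nat.Partition.restricted at hp ⊢
      rw [Finset.mem_filter, Finset.mem_filter] at hp
      rw [Finset.mem_filter]
      refine ⟨Finset.mem_univ _, ?_⟩
      intro x hx
      exact hp.1.2 x (Multiset.mem_of_le (Multiset.sub_le_self _ _) hx)
    · intro q hq
      apply Nat.Partition.ext
      simp
    · intro p hp
      apply Nat.Partition.ext
      simp only
      rw [Finset.mem_filter] at hp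
      exact Multiset.sub_add_cancel hp.2
  · norm_cast
    rw [Finset.card_eq_zero, Finset.filter_eq_empty_iff]
    intro p _ hp
    apply h
    obtain ⟨u, hu⟩ := Multiset.le_iff_exists_add.1 hp
    have h2 := congrArg Multiset.sum hu
    rw [Multiset.sum_add, p.parts_sum] at h2
    omega

/-- the partitions without parts divisible by `t` -/
abbrev reg (t n : ℕ) : Finset n.Partition := Nat.Partition.restricted n (fun x => ¬ t ∣ x)

lemma mem_reg {t n : ℕ} {p : n.Partition} : p ∈ reg t n ↔ ∀ x ∈ p.parts, ¬ t ∣ x := by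
  unfold reg Nat.Partition.restricted
  rw [Finset.mem_filter]
  simp

lemma hooks2_sum {n : ℕ} (p : n.Partition) : (hooks2 p : ℤ) =
    ∑ x ∈ Finset.range (n + 1), ((if x ∈ p.parts ∧ 2 ≤ x ∧ x - 1 ∉ p.parts then 1 else 0) +
      (if 2 ≤ p.parts.count x then 1 else 0)) := by
  rw [hooks2_eq, Finset.sum_add_distrib]
  push_cast
  congr 1
  · rw [← Finset.sum_filter, Finset.sum_const, nsmul_eq_mul, mul_one]
    congr 1
    apply congrArg
    ext x
    simp only [Finset.mem_filter, Multiset.mem_toFinset, Finset.mem_range]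
    constructor
    · rintro ⟨h1, h2, h3⟩
      have := Nat.Partition.le_of_mem_parts h1
      exact ⟨by omega, h1, h2, h3⟩
    · rintro ⟨_, h1, h2, h3⟩
      exact ⟨h1, h2, h3⟩
  · rw [← Finset.sum_filter, Finset.sum_const, nsmul_eq_mul, mul_one]
    congr 1
    apply congrArg
    ext x
    simp only [Finset.mem_filter, Multiset.mem_toFinset, Finset.mem_range]
    constructor
    · rintro ⟨h1, h2⟩
      have := Nat.Partition.le_of_mem_parts h1
      exact ⟨by omega, h2⟩
    · rintro ⟨_, h2⟩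
      exact ⟨Multiset.one_le_count_iff_mem.1 (by omega), h2⟩

/-- the local contribution of the part size `x` -/
noncomputable def loc (t x : ℕ) : ℤ⟦X⟧ :=
  (if 1 ≤ x ∧ ¬ t ∣ x then X ^ (2 * x) else 0) +
  ((if 2 ≤ x ∧ ¬ t ∣ x then X ^ x else 0) -
    (if 2 ≤ x ∧ ¬ t ∣ x ∧ ¬ t ∣ x - 1 then X ^ (2 * x - 1) else 0))

lemma card_term1 (t n x : ℕ) :
    (((reg t n).filter (fun p => 2 ≤ p.parts.count x)).card : ℤ) =
      coeff n ((if 1 ≤ x ∧ ¬ t ∣ x then X ^ (2 * x) else 0) * R (fun x => ¬ t ∣ x)) := by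
  split_ifs with h
  · have h1 := card_contain (fun x => ¬ t ∣ x) ({x, x} : Multiset ℕ) (by
      intro y hy
      simp at hy
      subst hy
      exact ⟨h.2, h.1⟩) n
    have h2 : ({x, x} : Multiset ℕ).sum = 2 * x := by
      simp
      ring
    rw [h2] at h1
    rw [← h1]
    congr 2
    apply Finset.filter_congr
    intro p _
    have : ({x, x} : Multiset ℕ) = Multiset.replicate 2 x := rfl
    rw [this, ← Multiset.le_count_iff_replicate_le]
  · rw [zero_mul, map_zero]
    norm_cast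
    rw [Finset.card_eq_zero, Finset.filter_eq_empty_iff]
    intro p hp hc
    rw [mem_reg] at hp
    have hx : x ∈ p.parts := Multiset.one_le_count_iff_mem.1 (by omega)
    exact h ⟨p.parts_pos hx, hp x hx⟩

lemma card_term2 (t n x : ℕ) :
    (((reg t n).filter (fun p => x ∈ p.parts ∧ 2 ≤ x ∧ x - 1 ∉ p.parts)).card : ℤ) =
      coeff n (((if 2 ≤ x ∧ ¬ t ∣ x then X ^ x else 0) -
    (if 2 ≤ x ∧ ¬ t ∣ x ∧ ¬ t ∣ x - 1 then X ^ (2 * x - 1) else 0)) * R (fun x => ¬ t ∣ x)) := by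
  by_cases h : 2 ≤ x ∧ ¬ t ∣ x
  · have h1 := card_contain (fun x => ¬ t ∣ x) ({x} : Multiset ℕ) (by
      intro y hy
      simp at hy
      subst hy
      exact ⟨h.2, by omega⟩) n
    rw [Multiset.sum_singleton] at h1
    rw [if_pos h, sub_mul, map_sub, ← h1]
    have hsplit : (reg t n).filter (fun p => ({x} : Multiset ℕ) ≤ p.parts) =
        (reg t n).filter (fun p => x ∈ p.parts ∧ 2 ≤ x ∧ x - 1 ∉ p.parts) ∪
        (reg t n).filter (fun p => x ∈ p.parts ∧ x - 1 ∈ p.parts) := by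
      rw [← Finset.filter_or]
      apply Finset.filter_congr
      intro p _
      rw [Multiset.singleton_le]
      constructor
      · intro hx
        by_cases h3 : x - 1 ∈ p.parts
        · exact Or.inr ⟨hx, h3⟩
        · exact Or.inl ⟨hx, h.1, h3⟩
      · rintro (h3 | h3)
        · exact h3.1
        · exact h3.1
    have hdisj : Disjoint ((reg t n).filter (fun p => x ∈ p.parts ∧ 2 ≤ x ∧ x - 1 ∉ p.parts))
        ((reg t n).filter (fun p => x ∈ p.parts ∧ x - 1 ∈ p.parts)) := by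
      rw [Finset.disjoint_left]
      intro p hp hq
      rw [Finset.mem_filter] at hp hq
      exact hp.2.2.2 hq.2.2
    rw [hsplit, Finset.card_union_of_disjoint hdisj]
    have h4 : (((reg t n).filter (fun p => x ∈ p.parts ∧ x - 1 ∈ p.parts)).card : ℤ) =
        coeff n ((if 2 ≤ x ∧ ¬ t ∣ x ∧ ¬ t ∣ x - 1 then X ^ (2 * x - 1) else 0) *
          R (fun x => ¬ t ∣ x)) := by
      split_ifs with h5
      · have h6 := card_contain (fun x => ¬ t ∣ x) ({x, x - 1} : Multiset ℕ) (by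
          intro y hy
          simp at hy
          rcases hy with rfl | rfl
          · exact ⟨h.2, by omega⟩
          · exact ⟨h5.2.2, by omega⟩) n
        have h7 : ({x, x - 1} : Multiset ℕ).sum = 2 * x - 1 := by
          simp
          omega
        rw [h7] at h6
        rw [← h6]
        congr 2
        apply Finset.filter_congr
        intro p _
        have hne : x ∉ ({x - 1} : Multiset ℕ) := by
          rw [Multiset.mem_singleton]
          omega
        rw [Multiset.insert_eq_cons, Multiset.le_iff_subset (by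
          rw [Multiset.nodup_cons]
          exact ⟨hne, Multiset.nodup_singleton _⟩), Multiset.cons_subset,
          Multiset.singleton_subset]
      · rw [zero_mul, map_zero]
        norm_cast
        rw [Finset.card_eq_zero, Finset.filter_eq_empty_iff]
        intro p hp hc
        rw [mem_reg] at hp
        exact h5 ⟨h.1, h.2, hp _ hc.2⟩
    rw [← h4]
    push_cast
    ring
  · rw [if_neg h, if_neg (fun h2 => h ⟨h2.1, h2.2.1⟩), sub_zero, zero_mul, map_zero]
    norm_cast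
    rw [Finset.card_eq_zero, Finset.filter_eq_empty_iff]
    intro p hp hc
    rw [mem_reg] at hp
    exact h ⟨hc.2.1, hp _ hc.1⟩

lemma total_eq_loc (t n : ℕ) : (∑ p ∈ reg t n, (hooks2 p : ℤ)) =
    coeff n ((∑ x ∈ Finset.range (n + 1), loc t x) * R (fun x => ¬ t ∣ x)) := by
  have h1 : ∀ p ∈ reg t n, (hooks2 p : ℤ) = ∑ x ∈ Finset.range (n + 1),
      ((if x ∈ p.parts ∧ 2 ≤ x ∧ x - 1 ∉ p.parts then 1 else 0) +
      (if 2 ≤ p.parts.count x then 1 else 0)) := fun p _ => hooks2_sum p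
  rw [Finset.sum_congr rfl h1, Finset.sum_comm, Finset.sum_mul, map_sum]
  apply Finset.sum_congr rfl
  intro x _
  rw [Finset.sum_add_distrib, ← Finset.sum_filter, ← Finset.sum_filter, Finset.sum_const,
    Finset.sum_const, nsmul_eq_mul, nsmul_eq_mul, mul_one, mul_one, card_term1, card_term2]
  unfold loc
  rw [add_mul, map_add]
  ring

/-- closed form of the sum of the local contributions -/
noncomputable def cT (t : ℕ) : ℤ⟦X⟧ :=
  2 * (X ^ 2 * geo 2) - X ^ t * geo (2 * t) - 2 * (X ^ (2 * t) * geo (2 * t)) +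
    X ^ (2 * t - 1) * geo (2 * t) + X ^ (2 * t + 1) * geo (2 * t)

lemma coeff_X_geo (e d m : ℕ) :
    coeff m ((X : ℤ⟦X⟧) ^ e * geo d) = if e ≤ m ∧ d ∣ m - e then 1 else 0 := by
  rw [PowerSeries.coeff_X_pow_mul']
  unfold geo
  by_cases h : e ≤ m
  · rw [if_pos h, PowerSeries.coeff_mk]
    simp [h]
  · rw [if_neg h, if_neg (fun h2 => h h2.1)]

lemma coeff_two_mul (m : ℕ) (f : ℤ⟦X⟧) : coeff m (2 * f) = 2 * coeff m f := by
  rw [two_mul, map_add]; ring

lemma coeff_cT (t m : ℕ) : coeff m (cT t) =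
    2 * (if 2 ≤ m ∧ 2 ∣ m - 2 then 1 else 0) - (if t ≤ m ∧ 2 * t ∣ m - t then 1 else 0) -
    2 * (if 2 * t ≤ m ∧ 2 * t ∣ m - 2 * t then 1 else 0) +
    (if 2 * t - 1 ≤ m ∧ 2 * t ∣ m - (2 * t - 1) then 1 else 0) +
    (if 2 * t + 1 ≤ m ∧ 2 * t ∣ m - (2 * t + 1) then 1 else 0) := by
  unfold cT
  simp only [map_add, map_sub, coeff_two_mul, coeff_X_geo]

lemma coeff_loc_sum (t n m : ℕ) (hm : m ≤ n) : coeff m (∑ x ∈ Finset.range (n + 1), loc t x) =
    (if 2 ∣ m ∧ 1 ≤ m / 2 ∧ ¬ t ∣ m / 2 then 1 else 0) +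
    ((if 2 ≤ m ∧ ¬ t ∣ m then 1 else 0) -
      (if ¬ 2 ∣ m ∧ 2 ≤ (m + 1) / 2 ∧ ¬ t ∣ (m + 1) / 2 ∧ ¬ t ∣ (m + 1) / 2 - 1 then 1 else 0)) := by
  unfold loc
  rw [Finset.sum_add_distrib, Finset.sum_sub_distrib, map_add, map_sub, map_sum, map_sum, map_sum]
  have e1 : ∀ x ∈ Finset.range (n + 1),
      coeff m (if 1 ≤ x ∧ ¬ t ∣ x then (X : ℤ⟦X⟧) ^ (2 * x) else 0) =
      if x = m / 2 then (if 2 ∣ m ∧ 1 ≤ m / 2 ∧ ¬ t ∣ m / 2 then 1 else 0) else 0 := by
    intro x _
    by_cases h : m = 2 * x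
    · subst h
      have e : 2 * x / 2 = x := by omega
      rw [e, if_pos rfl]
      by_cases h2 : 1 ≤ x ∧ ¬ t ∣ x
      · rw [if_pos h2, if_pos ⟨Dvd.intro _ rfl, h2⟩, PowerSeries.coeff_X_pow, if_pos rfl]
      · rw [if_neg h2, if_neg (fun h3 => h2 h3.2), map_zero]
    · have lhs : coeff m (if 1 ≤ x ∧ ¬ t ∣ x then (X : ℤ⟦X⟧) ^ (2 * x) else 0) = 0 := by
        split_ifs
        · rw [PowerSeries.coeff_X_pow, if_neg h]
        · rw [map_zero]
      rw [lhs]
      split_ifs with h3 h4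
      · exfalso
        apply h
        have := Nat.div_mul_cancel h4.1
        omega
      · rfl
      · rfl
  have e2 : ∀ x ∈ Finset.range (n + 1),
      coeff m (if 2 ≤ x ∧ ¬ t ∣ x then (X : ℤ⟦X⟧) ^ x else 0) =
      if x = m then (if 2 ≤ m ∧ ¬ t ∣ m then 1 else 0) else 0 := by
    intro x _
    by_cases h : m = x
    · subst h
      by_cases h2 : 2 ≤ m ∧ ¬ t ∣ m
      · simp [h2, PowerSeries.coeff_X_pow]
      · simp only [h2, if_false, map_zero, if_true]
    · have h' : x ≠ m := fun h2 => h h2.symm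
      simp only [h', if_false]
      split_ifs
      · rw [PowerSeries.coeff_X_pow, if_neg h]
      · rw [map_zero]
  have e3 : ∀ x ∈ Finset.range (n + 1),
      coeff m (if 2 ≤ x ∧ ¬ t ∣ x ∧ ¬ t ∣ x - 1 then (X : ℤ⟦X⟧) ^ (2 * x - 1) else 0) =
      if x = (m + 1) / 2 then (if ¬ 2 ∣ m ∧ 2 ≤ (m + 1) / 2 ∧ ¬ t ∣ (m + 1) / 2 ∧
        ¬ t ∣ (m + 1) / 2 - 1 then 1 else 0) else 0 := by
    intro x _
    by_cases h : m = 2 * x - 1 ∧ 1 ≤ x
    · obtain ⟨h, h0⟩ := h
      have e : (m + 1) / 2 = x := by omega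
      rw [e, if_pos rfl]
      by_cases h2 : 2 ≤ x ∧ ¬ t ∣ x ∧ ¬ t ∣ x - 1
      · rw [if_pos h2, if_pos ⟨by omega, h2⟩, PowerSeries.coeff_X_pow, if_pos h]
      · rw [if_neg h2, if_neg (fun h3 => h2 h3.2), map_zero]
    · have lhs : coeff m (if 2 ≤ x ∧ ¬ t ∣ x ∧ ¬ t ∣ x - 1 then
          (X : ℤ⟦X⟧) ^ (2 * x - 1) else 0) = 0 := by
        split_ifs with h5
        · rw [PowerSeries.coeff_X_pow, if_neg (fun h6 => h ⟨h6, by omega⟩)]
        · rw [map_zero]
      rw [lhs]
      split_ifs with h3 h4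
      · exfalso
        apply h
        omega
      · rfl
      · rfl
  rw [Finset.sum_congr rfl e1, Finset.sum_congr rfl e2, Finset.sum_congr rfl e3]
  rw [Finset.sum_ite_eq', Finset.sum_ite_eq', Finset.sum_ite_eq']
  have r1 : m / 2 ∈ Finset.range (n + 1) := by rw [Finset.mem_range]; omega
  have r2 : m ∈ Finset.range (n + 1) := by rw [Finset.mem_range]; omega
  simp only [r1, r2, if_true]
  by_cases h : (m + 1) / 2 ∈ Finset.range (n + 1)
  · simp only [h, if_true]
  · have h' : ¬ (¬ 2 ∣ m ∧ 2 ≤ (m + 1) / 2 ∧ ¬ t ∣ (m + 1) / 2 ∧ ¬ t ∣ (m + 1) / 2 - 1) := by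
      rintro ⟨h1, h2, -⟩
      apply h
      rw [Finset.mem_range]
      omega
    simp only [h, h', if_false]

lemma even_case (t x : ℕ) (ht : 2 ≤ t) :
    ((if 1 ≤ x ∧ ¬ t ∣ x then 1 else 0) + (if 2 ≤ 2 * x ∧ ¬ t ∣ 2 * x then 1 else 0) : ℤ) =
    2 * (if 1 ≤ x then 1 else 0) - (if t ≤ 2 * x ∧ 2 * t ∣ 2 * x - t then 1 else 0) -
    2 * (if 2 * t ≤ 2 * x ∧ 2 * t ∣ 2 * x - 2 * t then 1 else 0) := by
  rcases Nat.eq_zero_or_pos x with rfl | hx
  · have z1 : ¬ (t ≤ 2 * 0 ∧ 2 * t ∣ 2 * 0 - t) := by omega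
    have z2 : ¬ (2 * t ≤ 2 * 0 ∧ 2 * t ∣ 2 * 0 - 2 * t) := by omega
    simp [z1, z2]
    omega
  have hx1 : 1 ≤ x := hx
  have hx2 : 2 ≤ 2 * x := by omega
  have c3 : (2 * t ≤ 2 * x ∧ 2 * t ∣ 2 * x - 2 * t) ↔ t ∣ x := by
    constructor
    · rintro ⟨h1, h2⟩
      obtain ⟨c, hc⟩ := h2
      refine ⟨c + 1, ?_⟩
      have : 2 * x = 2 * t * c + 2 * t := by omega
      nlinarith
    · rintro ⟨c, hc⟩
      have hc0 : 1 ≤ c := by
        by_contra h
        have : c = 0 := by omega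
        subst this
        omega
      obtain ⟨c', rfl⟩ : ∃ c', c = c' + 1 := ⟨c - 1, by omega⟩
      refine ⟨by rw [hc]; nlinarith, ⟨c', ?_⟩⟩
      rw [hc]
      have : 2 * (t * (c' + 1)) = 2 * t * c' + 2 * t := by ring
      omega
  have c2 : (t ≤ 2 * x ∧ 2 * t ∣ 2 * x - t) ↔ (t ∣ 2 * x ∧ ¬ t ∣ x) := by
    constructor
    · rintro ⟨h1, c, hc⟩
      have h2 : 2 * x = t * (2 * c + 1) := by
        have : 2 * x = 2 * t * c + t := by omega
        rw [this]; ring
      refine ⟨⟨2 * c + 1, h2⟩, ?_⟩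
      rintro ⟨d, hd⟩
      rw [hd] at h2
      have h3 : t * (2 * d) = t * (2 * c + 1) := by rw [← h2]; ring
      have := Nat.eq_of_mul_eq_mul_left (by omega) h3
      omega
    · rintro ⟨⟨c, hc⟩, hnd⟩
      rcases Nat.even_or_odd c with ⟨e, he⟩ | ⟨e, he⟩
      · exfalso
        apply hnd
        refine ⟨e, ?_⟩
        rw [he] at hc
        have : 2 * x = 2 * (t * e) := by rw [hc]; ring
        omega
      · rw [he] at hc
        have h4 : 2 * x = 2 * t * e + t := by rw [hc]; ring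
        refine ⟨by rw [h4]; omega, ⟨e, by omega⟩⟩
  simp only [c2, c3]
  by_cases h1 : t ∣ x
  · have h2 : t ∣ 2 * x := Dvd.dvd.mul_left h1 2
    simp only [h1, h2, hx1, hx2, not_true_eq_false, and_false, if_false, if_true]
    norm_num
  · by_cases h2 : t ∣ 2 * x
    · simp only [h1, h2, hx1, hx2, not_true_eq_false, not_false_eq_true, and_false, and_true,
        if_false, if_true]
      norm_num
    · simp only [h1, h2, hx1, hx2, not_false_eq_true, and_true, false_and,
        if_false, if_true]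
      norm_num

lemma odd_case (t x : ℕ) (ht : 2 ≤ t) :
    ((if 2 ≤ 2 * x + 1 ∧ ¬ t ∣ 2 * x + 1 then 1 else 0) -
      (if 1 ≤ x ∧ ¬ t ∣ x + 1 ∧ ¬ t ∣ x then 1 else 0) : ℤ) =
    - (if t ≤ 2 * x + 1 ∧ 2 * t ∣ 2 * x + 1 - t then 1 else 0) +
    (if 2 * t - 1 ≤ 2 * x + 1 ∧ 2 * t ∣ 2 * x + 1 - (2 * t - 1) then 1 else 0) +
    (if 2 * t + 1 ≤ 2 * x + 1 ∧ 2 * t ∣ 2 * x + 1 - (2 * t + 1) then 1 else 0) := by
  have c2 : (t ≤ 2 * x + 1 ∧ 2 * t ∣ 2 * x + 1 - t) ↔ t ∣ 2 * x + 1 := by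
    constructor
    · rintro ⟨h1, c, hc⟩
      refine ⟨2 * c + 1, ?_⟩
      have : 2 * x + 1 = 2 * t * c + t := by omega
      rw [this]; ring
    · rintro ⟨c, hc⟩
      rcases Nat.even_or_odd c with ⟨e, he⟩ | ⟨e, he⟩
      · exfalso
        rw [he] at hc
        have : t * (e + e) = 2 * (t * e) := by ring
        omega
      · rw [he] at hc
        have h4 : 2 * x + 1 = 2 * t * e + t := by rw [hc]; ring
        refine ⟨by rw [h4]; omega, ⟨e, by omega⟩⟩
  have c4 : (2 * t - 1 ≤ 2 * x + 1 ∧ 2 * t ∣ 2 * x + 1 - (2 * t - 1)) ↔ t ∣ x + 1 := by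
    constructor
    · rintro ⟨h1, c, hc⟩
      refine ⟨c + 1, ?_⟩
      have h5 : 2 * (x + 1) = 2 * (t * (c + 1)) := by
        have : 2 * (t * (c + 1)) = 2 * t * c + 2 * t := by ring
        omega
      omega
    · rintro ⟨c, hc⟩
      have hc0 : 1 ≤ c := by
        by_contra h
        have : c = 0 := by omega
        subst this
        omega
      obtain ⟨c', rfl⟩ : ∃ c', c = c' + 1 := ⟨c - 1, by omega⟩
      have h5 : 2 * (x + 1) = 2 * t * c' + 2 * t := by rw [hc]; ring
      exact ⟨by omega, ⟨c', by omega⟩⟩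
  have c5 : (2 * t + 1 ≤ 2 * x + 1 ∧ 2 * t ∣ 2 * x + 1 - (2 * t + 1)) ↔ (1 ≤ x ∧ t ∣ x) := by
    constructor
    · rintro ⟨h1, c, hc⟩
      refine ⟨by omega, ⟨c + 1, ?_⟩⟩
      have h5 : 2 * x = 2 * (t * (c + 1)) := by
        have : 2 * (t * (c + 1)) = 2 * t * c + 2 * t := by ring
        omega
      omega
    · rintro ⟨h0, c, hc⟩
      have hc0 : 1 ≤ c := by
        by_contra h
        have : c = 0 := by omega
        subst this
        omega
      obtain ⟨c', rfl⟩ : ∃ c', c = c' + 1 := ⟨c - 1, by omega⟩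
      have h5 : 2 * x = 2 * t * c' + 2 * t := by rw [hc]; ring
      exact ⟨by omega, ⟨c', by omega⟩⟩
  simp only [c2, c4, c5]
  rcases Nat.eq_zero_or_pos x with rfl | hx
  · have h1 : ¬ t ∣ 1 := fun h => by have := Nat.le_of_dvd (by norm_num) h; omega
    simp [h1]
  · have hexcl : ¬ (t ∣ x + 1 ∧ t ∣ x) := by
      rintro ⟨h1, h2⟩
      have h3 := (Nat.dvd_add_right h2).1 h1
      have := Nat.le_of_dvd (by norm_num) h3
      omega
    by_cases h1 : t ∣ 2 * x + 1 <;> by_cases h2 : t ∣ x + 1 <;> by_cases h3 : t ∣ x <;>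
      simp [h1, h2, h3] <;> first | omega | (exfalso; exact hexcl ⟨h2, h3⟩) | skip

lemma coeff_loc_eq (t n m : ℕ) (ht : 2 ≤ t) (hm : m ≤ n) :
    coeff m (∑ x ∈ Finset.range (n + 1), loc t x) = coeff m (cT t) := by
  rw [coeff_loc_sum t n m hm, coeff_cT]
  rcases Nat.even_or_odd m with ⟨x, hx⟩ | ⟨x, hx⟩
  · have hx2 : m = 2 * x := by omega
    subst hx2
    have h := even_case t x ht
    have e : 2 * x / 2 = x := by omega
    have d1 : 2 ∣ 2 * x := Dvd.intro _ rfl
    have f1 : ¬ (2 * t - 1 ≤ 2 * x ∧ 2 * t ∣ 2 * x - (2 * t - 1)) := by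
      rintro ⟨h1, c, hc⟩
      have : 2 * t * c = 2 * (t * c) := by ring
      omega
    have f2 : ¬ (2 * t + 1 ≤ 2 * x ∧ 2 * t ∣ 2 * x - (2 * t + 1)) := by
      rintro ⟨h1, c, hc⟩
      have : 2 * t * c = 2 * (t * c) := by ring
      omega
    have f3 : (2 ≤ 2 * x ∧ 2 ∣ 2 * x - 2) ↔ 1 ≤ x := by omega
    rw [if_neg f1, if_neg f2, e]
    simp only [f3, d1, true_and, not_true_eq_false, false_and, if_false]
    linarith
  · subst hx
    have h := odd_case t x ht
    have d1 : ¬ 2 ∣ 2 * x + 1 := by omega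
    have e1 : (2 * x + 1 + 1) / 2 = x + 1 := by omega
    have e2 : x + 1 - 1 = x := by omega
    have f3 : ¬ (2 ≤ 2 * x + 1 ∧ 2 ∣ 2 * x + 1 - 2) := by omega
    have f4 : ¬ (2 * t ≤ 2 * x + 1 ∧ 2 * t ∣ 2 * x + 1 - 2 * t) := by
      rintro ⟨h1, c, hc⟩
      have : 2 * t * c = 2 * (t * c) := by ring
      omega
    have f5 : (2 ≤ x + 1) ↔ 1 ≤ x := by omega
    rw [if_neg f3, if_neg f4, e1, e2]
    simp only [d1, false_and, if_false, not_false_eq_true, true_and, f5]
    linarith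

lemma coeff_mul_congr (f g h : ℤ⟦X⟧) (n : ℕ) (hfg : ∀ m ≤ n, coeff m f = coeff m g) :
    coeff n (f * h) = coeff n (g * h) := by
  rw [PowerSeries.coeff_mul, PowerSeries.coeff_mul]
  apply Finset.sum_congr rfl
  intro x hx
  rw [Finset.HasAntidiagonal.mem_antidiagonal] at hx
  rw [hfg x.1 (by omega)]

/-- the generating function of the hooks of length two in `t`-regular partitions -/
theorem total_eq (t n : ℕ) (ht : 2 ≤ t) : (∑ p ∈ reg t n, (hooks2 p : ℤ)) =
    coeff n (cT t * R (fun x => ¬ t ∣ x)) := by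
  rw [total_eq_loc]
  exact coeff_mul_congr _ _ _ n (fun m hm => coeff_loc_eq t n m ht hm)

end Pool.Agent.R107.HookMono
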