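import Mathlib
import Pool.Agent.R107.HookMono1

/-!
Hooks of length two in `t`-regular partitions: positivity.
-/

namespace Pool.Agent.R107.HookMono

open PowerSeries PowerSeries.WithPiTopology Finset
open Pool.Agent.R107.TruncTheta (R R_eq R_split coeff_R_nonneg coeff_mul_nonneg)
open Pool.Agent.R107.QProd
open Pool.Agent.R107.QT (geo one_sub_mul_geo coeff_geo_mul coeff_geo_eq gs R_split' R_eq_geo_mul)

/-- all coefficients nonnegative -/
def NN (f : ℤ⟦X⟧) : Prop := ∀ n, 0 ≤ coeff n f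

lemma NN.mul {f g : ℤ⟦X⟧} (hf : NN f) (hg : NN g) : NN (f * g) := fun n => coeff_mul_nonneg hf hg n

lemma NN.add {f g : ℤ⟦X⟧} (hf : NN f) (hg : NN g) : NN (f + g) := fun n => by
  rw [map_add]; exact add_nonneg (hf n) (hg n)

lemma NN_geo (e : ℕ) : NN (geo e) := fun n => by
  unfold geo
  rw [PowerSeries.coeff_mk]
  split_ifs <;> norm_num

lemma NN_X_pow (e : ℕ) : NN (X ^ e) := fun n => by
  rw [PowerSeries.coeff_X_pow]
  split_ifs <;> norm_num

lemma NN_one : NN 1 := fun n => by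
  rw [PowerSeries.coeff_one]
  split_ifs <;> norm_num

lemma NN_R (pr : ℕ → Prop) [DecidablePred pr] : NN (R pr) := fun n => coeff_R_nonneg pr n

lemma coeff_geo_one_mul (f : ℤ⟦X⟧) (n : ℕ) :
    coeff n (geo 1 * f) = ∑ i ∈ Finset.range (n + 1), coeff i f := by
  induction n with
  | zero =>
    rw [coeff_geo_mul 1 (by norm_num), if_neg (by norm_num)]
    simp
  | succ n ih =>
    rw [coeff_geo_mul 1 (by norm_num), if_pos (by omega), Nat.add_sub_cancel, ih,
      Finset.sum_range_succ _ (n + 1)]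
    ring

lemma geo_sub (u v : ℕ) (hu : 0 < u) (huv : u ≤ v) : NN (geo 1 * (geo u - geo v)) := by
  intro n
  have h : ∀ w, 0 < w → coeff n (geo 1 * geo w) = (n / w + 1 : ℕ) := by
    intro w hw
    rw [mul_comm, coeff_geo_eq w hw (geo 1) (fun _ => 1) (n + 1) _ n (by omega)]
    · unfold gs
      simp
    · intro m _
      unfold geo
      rw [PowerSeries.coeff_mk, if_pos (one_dvd m)]
  rw [mul_sub, map_sub, h u hu, h v (by omega)]
  have := Nat.div_le_div_left (a := n) huv hu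
  push_cast
  have : ((n / v : ℕ) : ℤ) ≤ ((n / u : ℕ) : ℤ) := by exact_mod_cast this
  push_cast at this
  linarith

lemma NN_prod_geo (S : Finset ℕ) (φ : ℕ → ℕ) : NN (∏ j ∈ S, geo (φ j)) := by
  classical
  induction S using Finset.induction_on with
  | empty => rw [Finset.prod_empty]; exact NN_one
  | insert a S ha ih => rw [Finset.prod_insert ha]; exact (NN_geo _).mul ih

lemma prod_compare (S : Finset ℕ) (φ : ℕ → ℕ) (h : ∀ j ∈ S, 0 < φ j ∧ φ j ≤ j) :
    NN (geo 1 * (∏ j ∈ S, geo (φ j) - ∏ j ∈ S, geo j)) := by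
  classical
  induction S using Finset.induction_on with
  | empty =>
    rw [Finset.prod_empty, Finset.prod_empty, sub_self, mul_zero]
    intro n; rw [map_zero]
  | insert a S ha ih =>
    rw [Finset.prod_insert ha, Finset.prod_insert ha]
    have h1 := h a (Finset.mem_insert_self a S)
    have h2 := ih (fun j hj => h j (Finset.mem_insert_of_mem hj))
    have e : geo 1 * (geo (φ a) * ∏ j ∈ S, geo (φ j) - geo a * ∏ j ∈ S, geo j) =
        (geo 1 * (geo (φ a) - geo a)) * ∏ j ∈ S, geo (φ j) +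
        geo a * (geo 1 * (∏ j ∈ S, geo (φ j) - ∏ j ∈ S, geo j)) := by ring
    rw [e]
    exact ((geo_sub _ _ h1.1 h1.2).mul (NN_prod_geo S φ)).add ((NN_geo a).mul h2)

lemma prod_sub_one (S : Finset ℕ) (hS : ∀ j ∈ S, 0 < j) : NN (∏ j ∈ S, geo j - 1) := by
  classical
  induction S using Finset.induction_on with
  | empty =>
    rw [Finset.prod_empty, sub_self]
    intro n; rw [map_zero]
  | insert a S ha ih =>
    rw [Finset.prod_insert ha]
    have e : geo a * ∏ j ∈ S, geo j - 1 = (geo a - 1) * ∏ j ∈ S, geo j +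
        (∏ j ∈ S, geo j - 1) := by ring
    rw [e]
    have h1 : NN (geo a - 1) := by
      intro n
      rw [map_sub, PowerSeries.coeff_one]
      unfold geo
      rw [PowerSeries.coeff_mk]
      rcases Nat.eq_zero_or_pos n with rfl | hn
      · simp
      · rw [if_neg (show ¬ n = 0 by omega)]
        split_ifs <;> norm_num
    have h2 := NN_prod_geo S id
    exact (h1.mul h2).add (ih (fun j hj => hS j (Finset.mem_insert_of_mem hj)))

lemma R_congr (pr qr : ℕ → Prop) [DecidablePred pr] [DecidablePred qr]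
    (h : ∀ n, 0 < n → (pr n ↔ qr n)) : R pr = R qr := by
  unfold R
  ext n
  rw [PowerSeries.coeff_mk, PowerSeries.coeff_mk]
  congr 2
  unfold Nat.Partition.restricted
  apply Finset.filter_congr
  intro p _
  constructor
  · intro h1 i hi
    exact (h i (p.parts_pos hi)).1 (h1 i hi)
  · intro h1 i hi
    exact (h i (p.parts_pos hi)).2 (h1 i hi)

lemma R_false (pr : ℕ → Prop) [DecidablePred pr] (h : ∀ n, 0 < n → ¬ pr n) : R pr = 1 := by
  rw [R_eq]
  have : ∀ i : ℕ, (if pr (i + 1) then ∑' j : ℕ, (X : ℤ⟦X⟧) ^ ((i + 1) * j) else 1) = 1 := by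
    intro i
    rw [if_neg (h _ (by omega))]
  simp only [this]
  exact tprod_one

lemma R_finite (pr : ℕ → Prop) [DecidablePred pr] (n : ℕ) :
    R (fun i => pr i ∧ i ≤ n) = ∏ j ∈ (Finset.Icc 1 n).filter pr, geo j := by
  induction n with
  | zero =>
    rw [R_false _ (fun n hn h => by omega)]
    simp
  | succ n ih =>
    by_cases h : pr (n + 1)
    · rw [R_eq_geo_mul (fun i => pr i ∧ i ≤ n + 1) (n + 1) (by omega) ⟨h, le_rfl⟩]
      have h1 : R (fun i => (pr i ∧ i ≤ n + 1) ∧ i ≠ n + 1) = R (fun i => pr i ∧ i ≤ n) := by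
        apply R_congr
        intro i _
        constructor
        · rintro ⟨⟨h2, h3⟩, h4⟩
          exact ⟨h2, by omega⟩
        · rintro ⟨h2, h3⟩
          exact ⟨⟨h2, by omega⟩, by omega⟩
      rw [h1, ih]
      have h2 : (Finset.Icc 1 (n + 1)).filter pr = insert (n + 1) ((Finset.Icc 1 n).filter pr) := by
        ext i
        simp only [Finset.mem_filter, Finset.mem_Icc, Finset.mem_insert]
        constructor
        · rintro ⟨h3, h4⟩
          by_cases h5 : i = n + 1
          · exact Or.inl h5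
          · exact Or.inr ⟨by omega, h4⟩
        · rintro (h3 | ⟨h3, h4⟩)
          · subst h3
            exact ⟨by omega, h⟩
          · exact ⟨by omega, h4⟩
      rw [h2, Finset.prod_insert]
      intro h3
      rw [Finset.mem_filter, Finset.mem_Icc] at h3
      omega
    · have h1 : R (fun i => pr i ∧ i ≤ n + 1) = R (fun i => pr i ∧ i ≤ n) := by
        apply R_congr
        intro i _
        constructor
        · rintro ⟨h2, h3⟩
          refine ⟨h2, ?_⟩
          have : i ≠ n + 1 := by rintro rfl; exact h h2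
          omega
        · rintro ⟨h2, h3⟩
          exact ⟨h2, by omega⟩
      rw [h1, ih]
      congr 1
      ext i
      simp only [Finset.mem_filter, Finset.mem_Icc]
      constructor
      · rintro ⟨h3, h4⟩
        exact ⟨by omega, h4⟩
      · rintro ⟨h3, h4⟩
        have : i ≠ n + 1 := by rintro rfl; exact h h4
        exact ⟨by omega, h4⟩

lemma coeff_R_trunc (pr : ℕ → Prop) [DecidablePred pr] (m n : ℕ) (h : m ≤ n) :
    coeff m (R pr) = coeff m (∏ j ∈ (Finset.Icc 1 n).filter pr, geo j) := by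
  rw [← R_finite]
  unfold R
  rw [PowerSeries.coeff_mk, PowerSeries.coeff_mk]
  congr 2
  unfold Nat.Partition.restricted
  apply Finset.filter_congr
  intro p _
  constructor
  · intro h1 i hi
    exact ⟨h1 i hi, (Nat.Partition.le_of_mem_parts hi).trans h⟩
  · intro h1 i hi
    exact (h1 i hi).1

lemma R_mul (pr qr sr : ℕ → Prop) [DecidablePred pr] [DecidablePred qr] [DecidablePred sr]
    (h : ∀ n, 0 < n → (sr n ↔ pr n ∨ qr n)) (hd : ∀ n, 0 < n → ¬ (pr n ∧ qr n)) :
    R sr = R pr * R qr := by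
  have hE : E sr = E pr * E qr := by
    unfold E
    rw [← (multipliable_E pr).tprod_mul (multipliable_E qr)]
    apply tprod_congr
    intro n
    have h1 := h (n + 1) (by omega)
    have h2 := hd (n + 1) (by omega)
    by_cases h3 : pr (n + 1)
    · have h4 : ¬ qr (n + 1) := fun h5 => h2 ⟨h3, h5⟩
      rw [if_pos (h1.2 (Or.inl h3)), if_pos h3, if_neg h4, mul_one]
    · by_cases h4 : qr (n + 1)
      · rw [if_pos (h1.2 (Or.inr h4)), if_neg h3, if_pos h4, one_mul]
      · rw [if_neg (fun h5 => (h1.1 h5).elim h3 h4), if_neg h3, if_neg h4, mul_one]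
  calc R sr = (E pr * R pr) * (E qr * R qr) * R sr := by
        rw [E_mul_R, E_mul_R, one_mul, one_mul]
    _ = (E pr * E qr * R sr) * (R pr * R qr) := by ring
    _ = (E sr * R sr) * (R pr * R qr) := by rw [hE]
    _ = _ := by rw [E_mul_R, one_mul]

open Classical in
/-- replacing powers of `t + 1` by powers of `t` -/
noncomputable def phi (t j : ℕ) : ℕ :=
  if h : ∃ e u, ¬ (t + 1) ∣ u ∧ j = (t + 1) ^ e * u then
    t ^ h.choose * h.choose_spec.choose else j

lemma phi_spec (t j : ℕ) (ht : 1 ≤ t) (hj : 0 < j) :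
    ∃ e u, ¬ (t + 1) ∣ u ∧ j = (t + 1) ^ e * u ∧ phi t j = t ^ e * u := by
  have h : ∃ e u, ¬ (t + 1) ∣ u ∧ j = (t + 1) ^ e * u :=
    Nat.exists_eq_pow_mul_and_not_dvd (by omega) (t + 1) (by omega)
  unfold phi
  rw [dif_pos h]
  exact ⟨h.choose, h.choose_spec.choose, h.choose_spec.choose_spec.1,
    h.choose_spec.choose_spec.2, rfl⟩

lemma pow_mul_inj {t e e' u u' : ℕ} (ht : 0 < t) (hu : ¬ t ∣ u) (hu' : ¬ t ∣ u')
    (h : t ^ e * u = t ^ e' * u') : e = e' ∧ u = u' := by
  wlog hle : e ≤ e' generalizing e e' u u'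
  · have := this hu' hu h.symm (by omega)
    exact ⟨this.1.symm, this.2.symm⟩
  obtain ⟨c, rfl⟩ := Nat.exists_eq_add_of_le hle
  rw [pow_add, mul_assoc] at h
  have h2 : u = t ^ c * u' := Nat.eq_of_mul_eq_mul_left (pow_pos ht e) h
  rcases Nat.eq_zero_or_pos c with rfl | hc
  · exact ⟨rfl, by simpa using h2⟩
  · exfalso
    apply hu
    rw [h2]
    obtain ⟨c', rfl⟩ : ∃ c', c = c' + 1 := ⟨c - 1, by omega⟩
    exact ⟨t ^ c' * u', by rw [pow_succ]; ring⟩

/-- predicates -/
abbrev pA (t x : ℕ) : Prop := t ∣ x ∧ ¬ (t + 1) ∣ x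
abbrev pB (t x : ℕ) : Prop := ¬ t ∣ x ∧ (t + 1) ∣ x
abbrev pC (t x : ℕ) : Prop := ¬ t ∣ x ∧ ¬ (t + 1) ∣ x

lemma phi_props (t j : ℕ) (ht : 1 ≤ t) (hj : 0 < j) (hB : pB t j) :
    0 < phi t j ∧ phi t j ≤ j ∧ pA t (phi t j) := by
  obtain ⟨e, u, hu, hj2, hphi⟩ := phi_spec t j ht hj
  have he : 1 ≤ e := by
    by_contra h
    have : e = 0 := by omega
    subst this
    rw [pow_zero, one_mul] at hj2
    rw [← hj2] at hu
    exact hu hB.2
  have hu0 : 0 < u := by
    rcases Nat.eq_zero_or_pos u with rfl | h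
    · simp at hu
    · exact h
  rw [hphi]
  refine ⟨Nat.mul_pos (pow_pos ht e) hu0, ?_, ?_, ?_⟩
  · rw [hj2]
    exact Nat.mul_le_mul_right u (Nat.pow_le_pow_left (by omega) e)
  · obtain ⟨e', rfl⟩ : ∃ e', e = e' + 1 := ⟨e - 1, by omega⟩
    exact ⟨t ^ e' * u, by rw [pow_succ]; ring⟩
  · intro hd
    apply hu
    have hcop : Nat.Coprime (t + 1) (t ^ e) := by
      apply Nat.Coprime.pow_right
      simp
    exact hcop.dvd_of_dvd_mul_left hd

lemma phi_inj (t i j : ℕ) (ht : 1 ≤ t) (hi : 0 < i) (hj : 0 < j) (hBi : pB t i) (hBj : pB t j)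
    (h : phi t i = phi t j) : i = j := by
  obtain ⟨e, u, hu, hi2, hphi⟩ := phi_spec t i ht hi
  obtain ⟨e', u', hu', hj2, hphi'⟩ := phi_spec t j ht hj
  rw [hphi, hphi'] at h
  have h1 : ¬ t ∣ u := fun hd => hBi.1 (by rw [hi2]; exact Dvd.dvd.mul_left hd _)
  have h2 : ¬ t ∣ u' := fun hd => hBj.1 (by rw [hj2]; exact Dvd.dvd.mul_left hd _)
  obtain ⟨h3, h4⟩ := pow_mul_inj ht h1 h2 h
  rw [hi2, hj2, h3, h4]

/-- the comparison of the two products -/
lemma NN_AB (t : ℕ) (ht : 1 ≤ t) : NN (geo 1 * (R (pA t) - R (pB t))) := by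
  intro n
  classical
  have hcoef : coeff n (geo 1 * (R (pA t) - R (pB t))) =
      coeff n (geo 1 * (∏ j ∈ (Finset.Icc 1 n).filter (pA t), geo j -
        ∏ j ∈ (Finset.Icc 1 n).filter (pB t), geo j)) := by
    rw [mul_comm (geo 1), mul_comm (geo 1)]
    apply coeff_mul_congr
    intro m hm
    rw [map_sub, map_sub, coeff_R_trunc _ m n hm, coeff_R_trunc _ m n hm]
  rw [hcoef]
  set SA := (Finset.Icc 1 n).filter (pA t) with hSA
  set SB := (Finset.Icc 1 n).filter (pB t) with hSB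
  have hmem : ∀ j ∈ SB, 0 < j ∧ j ≤ n ∧ pB t j := by
    intro j hj
    rw [hSB, Finset.mem_filter, Finset.mem_Icc] at hj
    exact ⟨by omega, hj.1.2, hj.2⟩
  have hsub : SB.image (phi t) ⊆ SA := by
    intro i hi
    rw [Finset.mem_image] at hi
    obtain ⟨j, hj, rfl⟩ := hi
    obtain ⟨h1, h2, h3⟩ := hmem j hj
    obtain ⟨h4, h5, h6⟩ := phi_props t j ht h1 h3
    rw [hSA, Finset.mem_filter, Finset.mem_Icc]
    exact ⟨by omega, h6⟩
  have himg : ∏ j ∈ SB.image (phi t), geo j = ∏ j ∈ SB, geo (phi t j) := by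
    apply Finset.prod_image
    intro i hi j hj hij
    obtain ⟨h1, _, h3⟩ := hmem i hi
    obtain ⟨h4, _, h6⟩ := hmem j hj
    exact phi_inj t i j ht h1 h4 h3 h6 hij
  have hsplit : ∏ j ∈ SA, geo j = (∏ j ∈ SA \ SB.image (phi t), geo j) *
      ∏ j ∈ SB, geo (phi t j) := by
    rw [← himg, Finset.prod_sdiff hsub]
  have e : geo 1 * (∏ j ∈ SA, geo j - ∏ j ∈ SB, geo j) =
      geo 1 * ((∏ j ∈ SA \ SB.image (phi t), geo j - 1) * ∏ j ∈ SB, geo (phi t j)) +
      geo 1 * (∏ j ∈ SB, geo (phi t j) - ∏ j ∈ SB, geo j) := by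
    rw [hsplit]; ring
  rw [e]
  have hp1 : NN (geo 1 * ((∏ j ∈ SA \ SB.image (phi t), geo j - 1) *
      ∏ j ∈ SB, geo (phi t j))) := by
    apply NN.mul (NN_geo 1)
    apply NN.mul _ (NN_prod_geo SB (phi t))
    apply prod_sub_one
    intro j hj
    rw [Finset.mem_sdiff, hSA, Finset.mem_filter, Finset.mem_Icc] at hj
    omega
  have hp2 : NN (geo 1 * (∏ j ∈ SB, geo (phi t j) - ∏ j ∈ SB, geo j)) := by
    apply prod_compare
    intro j hj
    obtain ⟨h1, _, h3⟩ := hmem j hj
    obtain ⟨h4, h5, _⟩ := phi_props t j ht h1 h3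
    exact ⟨h4, h5⟩
  exact (NN.add hp1 hp2) n

/-- `geo (s - 2) * cT s` is nonnegative for `s ≥ 4` -/
lemma NN_cT (s : ℕ) (hs : 4 ≤ s) : NN (geo (s - 2) * cT s) := by
  have hstep : ∀ m, coeff m (geo (s - 2) * cT s) = coeff m (cT s) +
      if s - 2 ≤ m then coeff (m - (s - 2)) (geo (s - 2) * cT s) else 0 :=
    fun m => coeff_geo_mul (s - 2) (by omega) (cT s) m
  intro m
  induction m using Nat.strong_induction_on with
  | _ m ih =>
    have hge : ∀ m' < m, coeff m' (cT s) ≤ coeff m' (geo (s - 2) * cT s) := by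
      intro m' hm'
      rw [hstep m']
      split_ifs with h
      · have := ih (m' - (s - 2)) (by omega)
        omega
      · omega
    rw [hstep m, coeff_cT]
    have p4 : (0 : ℤ) ≤ if 2 * s - 1 ≤ m ∧ 2 * s ∣ m - (2 * s - 1) then 1 else 0 := by
      split_ifs <;> norm_num
    have p5 : (0 : ℤ) ≤ if 2 * s + 1 ≤ m ∧ 2 * s ∣ m - (2 * s + 1) then 1 else 0 := by
      split_ifs <;> norm_num
    have h3imp : (2 * s ≤ m ∧ 2 * s ∣ m - 2 * s) → (2 ≤ m ∧ 2 ∣ m - 2) := by
      rintro ⟨h1, c, hc⟩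
      have : 2 * s * c = 2 * (s * c) := by ring
      omega
    by_cases hbad : s ≤ m ∧ 2 * s ∣ m - s
    · obtain ⟨hb1, c, hc⟩ := hbad
      have hm : m = 2 * (s * c) + s := by
        have : 2 * s * c = 2 * (s * c) := by ring
        omega
      have h3 : ¬ (2 * s ≤ m ∧ 2 * s ∣ m - 2 * s) := by
        rintro ⟨h1, c', hc'⟩
        have e1 : 2 * s * c' = 2 * (s * c') := by ring
        have e2 : 2 * (s * c) + s = 2 * (s * c') + 2 * s := by omega
        have e3 : s * (2 * c + 1) = s * (2 * c' + 2) := by nlinarith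
        have := Nat.eq_of_mul_eq_mul_left (by omega) e3
        omega
      rw [if_pos (show s ≤ m ∧ 2 * s ∣ m - s from ⟨hb1, c, hc⟩), if_neg h3,
        if_pos (show s - 2 ≤ m by omega)]
      rcases Nat.even_or_odd s with ⟨r, hr⟩ | ⟨r, hr⟩
      · rw [if_pos (show 2 ≤ m ∧ 2 ∣ m - 2 by
          refine ⟨by omega, ?_⟩
          have : s * c = 2 * (r * c) := by rw [hr]; ring
          omega)]
        have := ih (m - (s - 2)) (by omega)
        omega
      · have h1 : ¬ (2 ≤ m ∧ 2 ∣ m - 2) := by omega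
        rw [if_neg h1]
        have h6 := hge (m - (s - 2)) (by omega)
        have hm' : m - (s - 2) = 2 * (s * c) + 2 := by omega
        rw [hm', coeff_cT] at h6
        have q1 : (2 ≤ 2 * (s * c) + 2 ∧ 2 ∣ 2 * (s * c) + 2 - 2) := by omega
        have q2 : ¬ (s ≤ 2 * (s * c) + 2 ∧ 2 * s ∣ 2 * (s * c) + 2 - s) := by
          rintro ⟨h7, c', hc'⟩
          have e1 : 2 * s * c' = 2 * (s * c') := by ring
          omega
        have q3 : ¬ (2 * s ≤ 2 * (s * c) + 2 ∧ 2 * s ∣ 2 * (s * c) + 2 - 2 * s) := by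
          rintro ⟨h7, c', hc'⟩
          have e1 : 2 * (s * c) + 2 = 2 * s * (c' + 1) := by
            have : 2 * s * (c' + 1) = 2 * s * c' + 2 * s := by ring
            omega
          have e2 : 2 * s ∣ 2 := by
            have h8 : 2 * s ∣ 2 * (s * c) + 2 := ⟨c' + 1, e1⟩
            have h9 : 2 * s ∣ 2 * (s * c) := ⟨c, by ring⟩
            exact (Nat.dvd_add_right h9).1 h8
          have := Nat.le_of_dvd (by norm_num) e2
          omega
        rw [if_pos q1, if_neg q2, if_neg q3] at h6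
        have q4 : (0 : ℤ) ≤ if 2 * s - 1 ≤ 2 * (s * c) + 2 ∧
            2 * s ∣ 2 * (s * c) + 2 - (2 * s - 1) then 1 else 0 := by
          split_ifs <;> norm_num
        have q5 : (0 : ℤ) ≤ if 2 * s + 1 ≤ 2 * (s * c) + 2 ∧
            2 * s ∣ 2 * (s * c) + 2 - (2 * s + 1) then 1 else 0 := by
          split_ifs <;> norm_num
        rw [hm']
        linarith
    · rw [if_neg hbad]
      have hrest : (0 : ℤ) ≤ if s - 2 ≤ m then coeff (m - (s - 2)) (geo (s - 2) * cT s) else 0 := by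
        split_ifs with h
        · exact ih _ (by omega)
        · norm_num
      by_cases h3 : 2 * s ≤ m ∧ 2 * s ∣ m - 2 * s
      · rw [if_pos h3, if_pos (h3imp h3)]
        linarith
      · rw [if_neg h3]
        have p1 : (0 : ℤ) ≤ if 2 ≤ m ∧ 2 ∣ m - 2 then 1 else 0 := by
          split_ifs <;> norm_num
        linarith

/-- the first difference term -/
lemma NN_Z (t : ℕ) (ht : 1 ≤ t) : NN (geo 1 * (X ^ t * geo (2 * t) -
    X ^ (t + 1) * geo (2 * (t + 1))) - X ^ t * geo (2 * t)) := by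
  intro n
  rw [map_sub, coeff_geo_one_mul]
  simp only [map_sub, coeff_X_geo]
  rw [Finset.sum_sub_distrib, Finset.sum_range_succ (fun i => if t ≤ i ∧ 2 * t ∣ i - t then
    (1 : ℤ) else 0)]
  have key : (∑ i ∈ Finset.range (n + 1), (if t + 1 ≤ i ∧ 2 * (t + 1) ∣ i - (t + 1) then
      (1 : ℤ) else 0)) ≤ ∑ i ∈ Finset.range n, (if t ≤ i ∧ 2 * t ∣ i - t then (1 : ℤ) else 0) := by
    rw [← Finset.sum_filter, ← Finset.sum_filter, Finset.sum_const, Finset.sum_const,
      nsmul_eq_mul, nsmul_eq_mul, mul_one, mul_one]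
    norm_cast
    apply Finset.card_le_card_of_injOn (fun i => i / (t + 1) * t)
    · intro i hi
      rw [Finset.mem_coe, Finset.mem_filter, Finset.mem_range] at hi
      obtain ⟨h1, h2, c, hc⟩ := hi
      have hi2 : i = (2 * c + 1) * (t + 1) := by
        have : 2 * (t + 1) * c = 2 * c * (t + 1) := by ring
        have h3 : (2 * c + 1) * (t + 1) = 2 * c * (t + 1) + (t + 1) := by ring
        omega
      have hdiv : i / (t + 1) = 2 * c + 1 := by
        rw [hi2]
        exact Nat.mul_div_cancel _ (by omega)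
      rw [Finset.mem_coe, Finset.mem_filter, Finset.mem_range]
      simp only [hdiv]
      have h3 : (2 * c + 1) * (t + 1) = (2 * c + 1) * t + (2 * c + 1) := by ring
      refine ⟨by omega, ?_, ⟨c, ?_⟩⟩
      · have : (2 * c + 1) * t = 2 * c * t + t := by ring
        omega
      · have : (2 * c + 1) * t = 2 * t * c + t := by ring
        omega
    · intro i hi j hj hij
      rw [Finset.mem_coe, Finset.mem_filter, Finset.mem_range] at hi hj
      obtain ⟨h1, h2, c, hc⟩ := hi
      obtain ⟨h1', h2', c', hc'⟩ := hj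
      have hi2 : i = (2 * c + 1) * (t + 1) := by
        have : 2 * (t + 1) * c = 2 * c * (t + 1) := by ring
        have h3 : (2 * c + 1) * (t + 1) = 2 * c * (t + 1) + (t + 1) := by ring
        omega
      have hj2 : j = (2 * c' + 1) * (t + 1) := by
        have : 2 * (t + 1) * c' = 2 * c' * (t + 1) := by ring
        have h3 : (2 * c' + 1) * (t + 1) = 2 * c' * (t + 1) + (t + 1) := by ring
        omega
      simp only at hij
      rw [hi2, hj2, Nat.mul_div_cancel _ (by omega), Nat.mul_div_cancel _ (by omega)] at hij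
      have := Nat.eq_of_mul_eq_mul_right (by omega) hij
      rw [hi2, hj2, this]
  linarith

/-- the second difference term -/
lemma NN_W (t : ℕ) (ht : 1 ≤ t) : NN (geo 2 * (X ^ (2 * t) * geo (2 * t) -
    X ^ (2 * (t + 1)) * geo (2 * (t + 1)))) := by
  intro n
  rw [mul_sub, map_sub]
  have hform : ∀ w, 0 < w → coeff n (geo 2 * (X ^ (2 * w) * geo (2 * w))) =
      ∑ j ∈ Finset.range (n / 2 + 1), (if 2 * w ≤ n - 2 * j ∧ 2 * w ∣ n - 2 * j - 2 * w then
        (1 : ℤ) else 0) := by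
    intro w _
    rw [coeff_geo_eq 2 (by norm_num) _ (fun m => if 2 * w ≤ m ∧ 2 * w ∣ m - 2 * w then
        (1 : ℤ) else 0) (n + 1) (fun m _ => coeff_X_geo _ _ _) n (by omega)]
    rfl
  rw [hform t (by omega), hform (t + 1) (by omega)]
  have key : (∑ j ∈ Finset.range (n / 2 + 1), (if 2 * (t + 1) ≤ n - 2 * j ∧
      2 * (t + 1) ∣ n - 2 * j - 2 * (t + 1) then (1 : ℤ) else 0)) ≤
      ∑ j ∈ Finset.range (n / 2 + 1), (if 2 * t ≤ n - 2 * j ∧ 2 * t ∣ n - 2 * j - 2 * t then
        (1 : ℤ) else 0) := by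
    rw [← Finset.sum_filter, ← Finset.sum_filter, Finset.sum_const, Finset.sum_const,
      nsmul_eq_mul, nsmul_eq_mul, mul_one, mul_one]
    norm_cast
    apply Finset.card_le_card_of_injOn (fun j => j + (n - 2 * j) / (2 * (t + 1)))
    · intro j hj
      rw [Finset.mem_coe, Finset.mem_filter, Finset.mem_range] at hj
      obtain ⟨h1, h2, c, hc⟩ := hj
      have h3 : n - 2 * j = 2 * (t + 1) * (c + 1) := by
        have : 2 * (t + 1) * (c + 1) = 2 * (t + 1) * c + 2 * (t + 1) := by ring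
        omega
      have hdiv : (n - 2 * j) / (2 * (t + 1)) = c + 1 := by
        rw [h3]
        exact Nat.mul_div_cancel_left _ (by omega)
      rw [Finset.mem_coe, Finset.mem_filter, Finset.mem_range]
      simp only [hdiv]
      have h4 : 2 * (t + 1) * (c + 1) = 2 * t * c + 2 * t + 2 * (c + 1) := by ring
      have h5 : n - 2 * (j + (c + 1)) = 2 * t * c + 2 * t := by omega
      refine ⟨by omega, by omega, ⟨c, by omega⟩⟩
    · intro i hi j hj hij
      rw [Finset.mem_coe, Finset.mem_filter, Finset.mem_range] at hi hj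
      obtain ⟨h1, h2, c, hc⟩ := hi
      obtain ⟨h1', h2', c', hc'⟩ := hj
      have h3 : n - 2 * i = 2 * (t + 1) * (c + 1) := by
        have : 2 * (t + 1) * (c + 1) = 2 * (t + 1) * c + 2 * (t + 1) := by ring
        omega
      have h3' : n - 2 * j = 2 * (t + 1) * (c' + 1) := by
        have : 2 * (t + 1) * (c' + 1) = 2 * (t + 1) * c' + 2 * (t + 1) := by ring
        omega
      simp only at hij
      rw [h3, h3', Nat.mul_div_cancel_left _ (by omega), Nat.mul_div_cancel_left _ (by omega)]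
        at hij
      have e1 : 2 * (t + 1) * (c + 1) = 2 * (t * (c + 1)) + 2 * (c + 1) := by ring
      have e2 : 2 * (t + 1) * (c' + 1) = 2 * (t * (c' + 1)) + 2 * (c' + 1) := by ring
      have e3 : t * (c + 1) = t * (c' + 1) := by omega
      have := Nat.eq_of_mul_eq_mul_left (by omega) e3
      omega
  linarith

/-- the decomposition of the difference of the two factors -/
lemma diff_eq (t : ℕ) (ht : 1 ≤ t) : geo 1 * (cT (t + 1) - cT t) =
    (geo 1 * (X ^ t * geo (2 * t) - X ^ (t + 1) * geo (2 * (t + 1))) - X ^ t * geo (2 * t)) +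
    X ^ t * geo (2 * t) * (1 - X ^ (t - 1)) +
    (X ^ (2 * t) * geo (2 * t) - X ^ (2 * (t + 1)) * geo (2 * (t + 1))) +
    X ^ (2 * t + 1) * geo (2 * (t + 1)) := by
  have h1 := one_sub_mul_geo 1 (by norm_num)
  rw [pow_one] at h1
  obtain ⟨u, rfl⟩ : ∃ u, t = u + 1 := ⟨t - 1, by omega⟩
  unfold cT
  rw [show 2 * (u + 1) - 1 = 2 * u + 1 by omega, show 2 * (u + 1 + 1) - 1 = 2 * u + 3 by omega,
    show u + 1 - 1 = u by omega]
  have e1 : (X : ℤ⟦X⟧) ^ (2 * (u + 1)) = X ^ (2 * u + 1) * X := by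
    ring
  have e2 : (X : ℤ⟦X⟧) ^ (2 * (u + 1) + 1) = X ^ (2 * u + 1) * X ^ 2 := by
    ring
  have e3 : (X : ℤ⟦X⟧) ^ (2 * (u + 1 + 1)) = X ^ (2 * u + 1) * X ^ 3 := by
    ring
  have e4 : (X : ℤ⟦X⟧) ^ (2 * (u + 1 + 1) + 1) = X ^ (2 * u + 1) * X ^ 4 := by
    ring
  have e5 : (X : ℤ⟦X⟧) ^ (2 * u + 3) = X ^ (2 * u + 1) * X ^ 2 := by
    ring
  have e6 : (X : ℤ⟦X⟧) ^ (u + 1) * X ^ u = X ^ (2 * u + 1) := by
    rw [← pow_add]; congr 1; ring
  rw [e1, e2, e3, e4, e5]
  generalize (X : ℤ⟦X⟧) ^ (2 * u + 1) = w at *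
  generalize (X : ℤ⟦X⟧) ^ (u + 1) = v at *
  generalize geo (2 * (u + 1)) = g1 at *
  generalize geo (2 * (u + 1 + 1)) = g2 at *
  generalize (X : ℤ⟦X⟧) ^ u = v' at *
  linear_combination (-w * (1 - X) * g1 + w * X ^ 2 * (1 - X) * g2) * h1 + g1 * e6

end Pool.Agent.R107.HookMono
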