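import Mathlib

/-!
# Products of linear factors, and a combination of two interlacing polynomials
-/

set_option autoImplicit false

namespace Pool.Agent.R107.MLC

open Polynomial Finset

/-- nonnegative coefficients with all the two by two inequalities of log-concavity -/
def PF (p : ℝ[X]) : Prop := (∀ k, 0 ≤ p.coeff k) ∧
  ∀ i j, i ≤ j → p.coeff i * p.coeff (j + 2) ≤ p.coeff (i + 1) * p.coeff (j + 1)

theorem coeff_lin (p : ℝ[X]) (c d : ℝ) (k : ℕ) :
    ((C c * X + C d) * p).coeff (k + 1) = c * p.coeff k + d * p.coeff (k + 1) := by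
  rw [add_mul, coeff_add, mul_assoc, coeff_C_mul, coeff_C_mul, coeff_X_mul]

theorem coeff_lin_zero (p : ℝ[X]) (c d : ℝ) :
    ((C c * X + C d) * p).coeff 0 = d * p.coeff 0 := by
  simp [add_mul, mul_assoc, mul_coeff_zero]

theorem PF_lin (p : ℝ[X]) (hp : PF p) (c d : ℝ) (hc : 0 ≤ c) (hd : 0 ≤ d) :
    PF ((C c * X + C d) * p) := by
  obtain ⟨h0, h⟩ := hp
  constructor
  · intro k
    cases k with
    | zero =>
      rw [coeff_lin_zero]
      exact mul_nonneg hd (h0 _)
    | succ k =>
      rw [coeff_lin]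
      exact add_nonneg (mul_nonneg hc (h0 _)) (mul_nonneg hd (h0 _))
  · intro i j hij
    rw [coeff_lin, coeff_lin]
    cases i with
    | zero =>
      rw [coeff_lin_zero]
      cases j with
      | zero =>
        rw [coeff_lin]
        have a0 := h0 0
        have a1 := h0 1
        have a2 := h0 2
        have H := h 0 0 le_rfl
        simp only [zero_add] at H ⊢
        have e1 : 0 ≤ c * c * (p.coeff 0 * p.coeff 0) := by positivity
        have e2 : 0 ≤ c * d * (p.coeff 1 * p.coeff 0) := by positivity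
        have e3 : d * d * (p.coeff 0 * p.coeff 2) ≤ d * d * (p.coeff 1 * p.coeff 1) :=
          mul_le_mul_of_nonneg_left H (by positivity)
        linarith
      | succ j =>
        rw [coeff_lin]
        have a0 := h0 0
        have a1 := h0 1
        have b0 := h0 (j + 1)
        have b1 := h0 (j + 1 + 1)
        have H := h 0 (j + 1) (by omega)
        simp only [zero_add] at H ⊢
        have e1 : 0 ≤ c * c * (p.coeff 0 * p.coeff (j + 1)) := by positivity
        have e2 : 0 ≤ c * d * (p.coeff 1 * p.coeff (j + 1)) := by positivity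
        have e3 : d * d * (p.coeff 0 * p.coeff (j + 1 + 2)) ≤
            d * d * (p.coeff 1 * p.coeff (j + 1 + 1)) :=
          mul_le_mul_of_nonneg_left H (by positivity)
        have f1 : j + 1 + 1 + 1 = j + 1 + 2 := by ring
        rw [f1]
        linarith
    | succ i =>
      obtain ⟨j, rfl⟩ : ∃ j', j = j' + 1 := ⟨j - 1, by omega⟩
      rw [coeff_lin, coeff_lin]
      have hij' : i ≤ j := by omega
      have H1 := h i j hij'
      have H2 := h (i + 1) (j + 1) hij
      have H3 := h i (j + 1) (by omega)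
      have H4 : p.coeff (i + 1) * p.coeff (j + 2) ≤ p.coeff (i + 2) * p.coeff (j + 1) := by
        rcases Nat.lt_or_ge i j with hlt | hge
        · obtain ⟨j', rfl⟩ : ∃ j', j = j' + 1 := ⟨j - 1, by omega⟩
          have H := h (i + 1) (j' + 1) (by omega)
          exact H
        · have : i = j := le_antisymm hij' hge
          subst this
          rw [mul_comm]
      have e1 := mul_le_mul_of_nonneg_left H1 (mul_nonneg hc hc)
      have e2 := mul_le_mul_of_nonneg_left H2 (mul_nonneg hd hd)
      have e3 := mul_le_mul_of_nonneg_left (H3.trans H4) (mul_nonneg hc hd)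
      have f1 : j + 1 + 1 = j + 2 := by ring
      have f2 : j + 1 + 2 = j + 3 := by ring
      have f3 : i + 1 + 1 = i + 2 := by ring
      have f4 : j + 1 + 1 + 1 = j + 3 := by ring
      rw [f2] at e3
      rw [f2, f1, f3] at e2
      rw [f4, f1, f3]
      linarith

theorem PF_one : PF (1 : ℝ[X]) := by
  constructor
  · intro k
    rw [coeff_one]
    split_ifs <;> norm_num
  · intro i j _
    rw [coeff_one, coeff_one, coeff_one, coeff_one]
    simp

theorem PF_prod {ι : Type*} (s : Finset ι) (ρ : ι → ℝ) (hρ : ∀ i ∈ s, 0 ≤ ρ i)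
    (p : ℝ[X]) (hp : PF p) : PF ((∏ i ∈ s, (X + C (ρ i))) * p) := by
  classical
  induction s using Finset.induction_on with
  | empty => simpa using hp
  | insert a s ha ih =>
    rw [prod_insert ha, mul_assoc]
    have := PF_lin _ (ih (fun i hi => hρ i (mem_insert_of_mem hi))) 1 (ρ a) zero_le_one
      (hρ a (mem_insert_self a s))
    simpa using this

/-- `(X+1)...(X+r)` -/
noncomputable def f (r : ℕ) : ℝ[X] := ∏ j ∈ range r, (X + C ((j : ℝ) + 1))

/-- `(X+1/2)...(X+r-1/2)` -/
noncomputable def g (r : ℕ) : ℝ[X] := ∏ j ∈ range r, (X + C ((j : ℝ) + 1 / 2))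

theorem sign_g (r j : ℕ) (hj : j < r) :
    0 < (-1 : ℝ) ^ (j + 1) * ∏ s ∈ range r, ((s : ℝ) - j - 1 / 2) := by
  rw [← prod_range_mul_prod_Ico _ (show j + 1 ≤ r by omega), ← mul_assoc]
  apply mul_pos
  · have : (-1 : ℝ) ^ (j + 1) * ∏ s ∈ range (j + 1), ((s : ℝ) - j - 1 / 2) =
        ∏ s ∈ range (j + 1), (-((s : ℝ) - j - 1 / 2)) := by
      rw [prod_neg, card_range]
    rw [this]
    apply prod_pos
    intro s hs
    have : (s : ℝ) ≤ j := by
      have := mem_range.mp hs
      exact_mod_cast (by omega : s ≤ j)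
    linarith
  · apply prod_pos
    intro s hs
    have : ((j + 1 : ℕ) : ℝ) ≤ s := by exact_mod_cast (mem_Ico.mp hs).1
    push_cast at this
    linarith

theorem exists_roots (r : ℕ) (α β : ℝ) (hβ : 0 < β) (j : ℕ) (hj : j + 1 < r) :
    ∃ x : ℝ, -((j : ℝ) + 2) < x ∧ x < -((j : ℝ) + 1) ∧ (C α * f r - C β * g r).eval x = 0 := by
  set B := C α * f r - C β * g r with hB
  have ev : ∀ k : ℕ, k < r → B.eval (-((k : ℝ) + 1)) =
      -β * ∏ s ∈ range r, ((s : ℝ) - k - 1 / 2) := by
    intro k hk
    have hf : (f r).eval (-((k : ℝ) + 1)) = 0 := by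
      unfold f
      rw [eval_prod]
      apply prod_eq_zero (mem_range.mpr hk)
      simp
    have hg : (g r).eval (-((k : ℝ) + 1)) = ∏ s ∈ range r, ((s : ℝ) - k - 1 / 2) := by
      unfold g
      rw [eval_prod]
      apply prod_congr rfl
      intro s _
      simp only [eval_add, eval_X, eval_C]
      ring
    rw [hB, eval_sub, eval_mul, eval_mul, eval_C, eval_C, hf, hg]
    ring
  have s1 := sign_g r j (by omega)
  have s2 := sign_g r (j + 1) hj
  have e1 := ev j (by omega)
  have e2 := ev (j + 1) hj
  push_cast at s2 e2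
  have c2 : -((j : ℝ) + 1 + 1) = -((j : ℝ) + 2) := by ring
  rw [c2] at e2
  have cont : ContinuousOn (fun x => B.eval x) (Set.Icc (-((j : ℝ) + 2)) (-((j : ℝ) + 1))) :=
    B.continuous.continuousOn
  have hle : -((j : ℝ) + 2) ≤ -((j : ℝ) + 1) := by linarith
  have opp : B.eval (-((j : ℝ) + 2)) * B.eval (-((j : ℝ) + 1)) < 0 := by
    rw [e1, e2]
    set P := ∏ s ∈ range r, ((s : ℝ) - j - 1 / 2)
    set Q := ∏ s ∈ range r, ((s : ℝ) - (j + 1) - 1 / 2)
    have h1 : 0 < ((-1 : ℝ) ^ (j + 1) * P) * ((-1 : ℝ) ^ (j + 1 + 1) * Q) := mul_pos s1 s2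
    have h2 : ((-1 : ℝ) ^ (j + 1) * P) * ((-1 : ℝ) ^ (j + 1 + 1) * Q) = -(P * Q) := by
      have : (-1 : ℝ) ^ (j + 1) * (-1 : ℝ) ^ (j + 1 + 1) = -1 := by
        rw [← pow_add]
        have : j + 1 + (j + 1 + 1) = 2 * (j + 1) + 1 := by ring
        rw [this, pow_succ, pow_mul]
        norm_num
      calc _ = ((-1 : ℝ) ^ (j + 1) * (-1 : ℝ) ^ (j + 1 + 1)) * (P * Q) := by ring
        _ = _ := by rw [this]; ring
    rw [h2] at h1
    have h3 : -β * Q * (-β * P) = β ^ 2 * (P * Q) := by ring
    rw [h3]
    have : 0 < β ^ 2 := by positivity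
    nlinarith
  have key : ∃ x ∈ Set.Icc (-((j : ℝ) + 2)) (-((j : ℝ) + 1)), B.eval x = 0 := by
    rcases lt_or_ge (B.eval (-((j : ℝ) + 2))) 0 with hneg | hpos
    · have hp : 0 < B.eval (-((j : ℝ) + 1)) := by
        by_contra hc
        push Not at hc
        have := mul_nonneg_of_nonpos_of_nonpos hneg.le hc
        linarith
      have := intermediate_value_Icc hle cont
      obtain ⟨x, hx, hx'⟩ := this ⟨hneg.le, hp.le⟩
      exact ⟨x, hx, hx'⟩
    · have hp : B.eval (-((j : ℝ) + 1)) < 0 := by
        by_contra hc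
        push Not at hc
        have := mul_nonneg hpos hc
        linarith
      have := intermediate_value_Icc' hle cont
      obtain ⟨x, hx, hx'⟩ := this ⟨hp.le, hpos⟩
      exact ⟨x, hx, hx'⟩
  obtain ⟨x, ⟨hx1, hx2⟩, hx⟩ := key
  refine ⟨x, lt_of_le_of_ne hx1 ?_, lt_of_le_of_ne hx2 ?_, hx⟩
  · rintro rfl
    rw [hx] at opp
    simp at opp
  · rintro rfl
    rw [hx] at opp
    simp at opp

theorem f_monic (r : ℕ) : (f r).Monic := monic_prod_of_monic _ _ fun _ _ => monic_X_add_C _
theorem g_monic (r : ℕ) : (g r).Monic := monic_prod_of_monic _ _ fun _ _ => monic_X_add_C _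
theorem f_natDegree (r : ℕ) : (f r).natDegree = r := by
  unfold f
  rw [natDegree_prod_of_monic _ _ fun _ _ => monic_X_add_C _]
  simp only [natDegree_X_add_C, sum_const, card_range, smul_eq_mul, mul_one]
theorem g_natDegree (r : ℕ) : (g r).natDegree = r := by
  unfold g
  rw [natDegree_prod_of_monic _ _ fun _ _ => monic_X_add_C _]
  simp only [natDegree_X_add_C, sum_const, card_range, smul_eq_mul, mul_one]

/-- A combination `α f - β g` with `α > β > 0` and positive value at `0` has the property `PF`. -/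
theorem PF_comb (r : ℕ) (hr : 1 ≤ r) (α β : ℝ) (hβ : 0 < β) (hαβ : β < α)
    (h0 : 0 < (C α * f r - C β * g r).eval 0) : PF (C α * f r - C β * g r) := by
  classical
  choose! x hx1 hx2 hx3 using exists_roots r α β hβ
  set B := C α * f r - C β * g r with hB
  have hne : B ≠ 0 := by
    intro h
    rw [h] at h0
    simp at h0
  set P := ∏ j ∈ range (r - 1), (X - C (x j)) with hP
  have hdvd : P ∣ B := by
    apply Finset.prod_dvd_of_coprime
    · intro i hi j hj hij
      have hi' : i + 1 < r := by have := mem_range.mp hi; omega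
      have hj' : j + 1 < r := by have := mem_range.mp hj; omega
      apply isCoprime_X_sub_C_of_isUnit_sub
      apply IsUnit.mk0
      intro heq
      have heq' : x i = x j := by linarith
      have a1 := hx1 i hi'
      have a2 := hx2 i hi'
      have b1 := hx1 j hj'
      have b2 := hx2 j hj'
      rcases Nat.lt_or_gt_of_ne hij with h | h
      · have : (i : ℝ) + 1 ≤ j := by exact_mod_cast h
        linarith
      · have : (j : ℝ) + 1 ≤ i := by exact_mod_cast h
        linarith
    · intro j hj
      have hj' : j + 1 < r := by have := mem_range.mp hj; omega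
      exact dvd_iff_isRoot.mpr (hx3 j hj')
  obtain ⟨q, hq⟩ := hdvd
  have hPm : P.Monic := monic_prod_of_monic _ _ fun j _ => monic_X_sub_C _
  have hPd : P.natDegree = r - 1 := by
    rw [hP, natDegree_prod_of_monic _ _ fun j _ => monic_X_sub_C _]
    simp
  have hq0 : q ≠ 0 := by
    rintro rfl
    rw [mul_zero] at hq
    exact hne hq
  have hBd : B.natDegree ≤ r := by
    rw [hB]
    refine (natDegree_sub_le _ _).trans (max_le ?_ ?_)
    · exact (natDegree_C_mul_le _ _).trans (f_natDegree r).le
    · exact (natDegree_C_mul_le _ _).trans (g_natDegree r).le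
  have hqd : q.natDegree ≤ 1 := by
    have : B.natDegree = P.natDegree + q.natDegree := by
      rw [hq, hPm.natDegree_mul' hq0]
    omega
  obtain ⟨c, d, hcd⟩ := exists_eq_X_add_C_of_natDegree_le_one hqd
  have hc : 0 < c := by
    have h1 : B.coeff r = α - β := by
      rw [hB, coeff_sub, coeff_C_mul, coeff_C_mul]
      have e1 : (f r).coeff r = 1 := by
        have := (f_monic r).coeff_natDegree
        rwa [f_natDegree] at this
      have e2 : (g r).coeff r = 1 := by
        have := (g_monic r).coeff_natDegree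
        rwa [g_natDegree] at this
      rw [e1, e2]
      ring
    obtain ⟨r', rfl⟩ : ∃ r', r = r' + 1 := ⟨r - 1, by omega⟩
    rw [hq, mul_comm, hcd, coeff_lin] at h1
    have e1 : P.coeff r' = 1 := by
      have := hPm.coeff_natDegree
      rw [hPd] at this
      simpa using this
    have e2 : P.coeff (r' + 1) = 0 := by
      apply coeff_eq_zero_of_natDegree_lt
      rw [hPd]
      omega
    rw [e1, e2] at h1
    linarith
  have hxneg : ∀ j ∈ range (r - 1), 0 ≤ -x j := by
    intro j hj
    have hj' : j + 1 < r := by have := mem_range.mp hj; omega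
    have := hx2 j hj'
    have h2 : (0 : ℝ) ≤ j := by positivity
    linarith
  have hd : 0 < d := by
    have h1 : B.eval 0 = P.eval 0 * q.eval 0 := by rw [hq, eval_mul]
    have h2 : q.eval 0 = d := by rw [hcd]; simp
    have h3 : 0 ≤ P.eval 0 := by
      rw [hP, eval_prod]
      apply prod_nonneg
      intro j hj
      have := hxneg j hj
      simpa using this
    rw [h1, h2] at h0
    by_contra hcon
    push Not at hcon
    have := mul_nonpos_of_nonneg_of_nonpos h3 hcon
    linarith
  rw [hq, mul_comm, hcd]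
  apply PF_lin _ _ c d hc.le hd.le
  have := PF_prod (range (r - 1)) (fun j => -x j) hxneg 1 PF_one
  rw [mul_one] at this
  have e : P = ∏ i ∈ range (r - 1), (X + C (-x i)) := by
    rw [hP]
    apply prod_congr rfl
    intro i _
    rw [C_neg]
    ring
  rw [e]
  exact this

end Pool.Agent.R107.MLC
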