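import Pool.Agent.R107.MLC

/-!
# Closed form of the sum with multichoose polynomials
-/

set_option autoImplicit false

namespace Pool.Agent.R107.MLC

open Polynomial Finset

/-- the multichoose polynomial `X (X+1) ... (X+a-1) / a!` over the reals -/
noncomputable def h (a : ℕ) : ℝ[X] := C (1 / (a.factorial : ℝ)) * ∏ s ∈ range a, (X + C (s : ℝ))

theorem hrec (a : ℕ) : C ((a : ℝ) + 1) * h (a + 1) = (X + C (a : ℝ)) * h a := by
  unfold h
  rw [prod_range_succ, Nat.factorial_succ]
  have e : C ((a : ℝ) + 1) * C (1 / (((a + 1) * a.factorial : ℕ) : ℝ)) =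
      C (1 / (a.factorial : ℝ)) := by
    rw [← C_mul]
    congr 1
    push_cast
    have : (a : ℝ) + 1 ≠ 0 := by positivity
    field_simp
  calc _ = (C ((a : ℝ) + 1) * C (1 / (((a + 1) * a.factorial : ℕ) : ℝ))) *
        ((∏ s ∈ range a, (X + C (s : ℝ))) * (X + C (a : ℝ))) := by ring
    _ = _ := by rw [e]; ring

theorem tele (r : ℕ) : ∀ K : ℕ, K ≤ r + 1 →
    X * ∑ i ∈ range K, C (2 * (r : ℝ) + 1 - 2 * i) * (h i * h (2 * r + 1 - i)) =
      C ((K : ℝ) * (2 * r + 2 - K)) * (h K * h (2 * r + 2 - K)) := by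
  intro K
  induction K with
  | zero => intro _; simp
  | succ K ih =>
    intro hK
    obtain ⟨u, hu⟩ : ∃ u, 2 * r + 1 = K + u := ⟨2 * r + 1 - K, by omega⟩
    have e1 : 2 * r + 2 - K = u + 1 := by omega
    have e2 : 2 * r + 1 - K = u := by omega
    have e3 : 2 * r + 2 - (K + 1) = u := by omega
    have hur : 2 * (r : ℝ) + 1 = K + u := by exact_mod_cast hu
    rw [sum_range_succ, mul_add, ih (by omega), e1, e2, e3]
    have a1 := hrec K
    have a2 := hrec u
    have c1 : (K : ℝ) * (2 * r + 2 - K) = K * (u + 1) := by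
      have : 2 * (r : ℝ) + 2 - K = u + 1 := by linarith
      rw [this]
    have c2 : 2 * (r : ℝ) + 1 - 2 * K = u - K := by linarith
    have c3 : ((K + 1 : ℕ) : ℝ) * (2 * r + 2 - ((K + 1 : ℕ) : ℝ)) = (K + 1) * u := by
      push_cast
      have : 2 * (r : ℝ) + 2 - (K + 1) = u := by linarith
      rw [this]
    rw [c1, c2, c3]
    have x1 : C ((K : ℝ) * (u + 1)) * (h K * h (u + 1)) =
        C (K : ℝ) * h K * ((X + C (u : ℝ)) * h u) := by
      rw [← a2, C_mul]; ring
    have x2 : C (((K : ℝ) + 1) * u) * (h (K + 1) * h u) =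
        C (u : ℝ) * h u * ((X + C (K : ℝ)) * h K) := by
      rw [← a1, C_mul]; ring
    rw [x1, x2, C_sub]
    ring

/-- the convolution square -/
noncomputable def V (n : ℕ) : ℝ[X] := ∑ i ∈ range (n + 1), h i * h (n - i)

theorem V_succ (n : ℕ) : C ((n : ℝ) + 1) * V (n + 1) = (2 * X + C (n : ℝ)) * V n := by
  have h1 : C ((n : ℝ) + 1) * V (n + 1) =
      ∑ i ∈ range (n + 2), C (i : ℝ) * (h i * h (n + 1 - i)) +
      ∑ i ∈ range (n + 2), C ((n : ℝ) + 1 - i) * (h i * h (n + 1 - i)) := by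
    unfold V
    rw [mul_sum, ← sum_add_distrib]
    apply sum_congr rfl
    intro i _
    rw [← add_mul, ← C_add]
    congr 2
    ring
  have h2 : ∑ i ∈ range (n + 2), C (i : ℝ) * (h i * h (n + 1 - i)) =
      ∑ i ∈ range (n + 1), (X + C (i : ℝ)) * (h i * h (n - i)) := by
    rw [sum_range_succ']
    simp only [Nat.cast_zero, C_0, zero_mul, add_zero]
    apply sum_congr rfl
    intro i hi
    have e : n + 1 - (i + 1) = n - i := by omega
    rw [e]
    have := hrec i
    push_cast
    calc _ = (C ((i : ℝ) + 1) * h (i + 1)) * h (n - i) := by simp only [C_add, C_1]; ring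
      _ = _ := by rw [this]; ring
  have h3 : ∑ i ∈ range (n + 2), C ((n : ℝ) + 1 - i) * (h i * h (n + 1 - i)) =
      ∑ i ∈ range (n + 1), (X + C ((n : ℝ) - i)) * (h i * h (n - i)) := by
    rw [sum_range_succ]
    have e0 : (n : ℝ) + 1 - ((n + 1 : ℕ) : ℝ) = 0 := by push_cast; ring
    rw [e0]
    simp only [C_0, zero_mul, add_zero]
    apply sum_congr rfl
    intro i hi
    have hi' : i ≤ n := by have := mem_range.mp hi; omega
    have e : n + 1 - i = (n - i) + 1 := by omega
    rw [e]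
    have := hrec (n - i)
    rw [Nat.cast_sub hi'] at this
    have c : (n : ℝ) + 1 - i = (n : ℝ) - i + 1 := by ring
    rw [c]
    calc _ = h i * (C ((n : ℝ) - i + 1) * h (n - i + 1)) := by ring
      _ = _ := by rw [this]; ring
  rw [h1, h2, h3, ← sum_add_distrib]
  unfold V
  rw [mul_sum]
  apply sum_congr rfl
  intro i _
  rw [C_sub]
  ring

theorem V_eq (n : ℕ) : C ((n.factorial : ℕ) : ℝ) * V n = ∏ j ∈ range n, (2 * X + C (j : ℝ)) := by
  induction n with
  | zero => simp [V, h]
  | succ n ih =>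
    rw [prod_range_succ, ← ih, Nat.factorial_succ]
    have := V_succ n
    push_cast
    rw [C_mul]
    calc _ = C ((n.factorial : ℕ) : ℝ) * (C ((n : ℝ) + 1) * V (n + 1)) := by ring
      _ = _ := by rw [this]; ring

theorem prod_two (r : ℕ) : ∏ j ∈ range (2 * r + 1), (2 * X + C (j : ℝ)) =
    C (2 * 4 ^ r : ℝ) * (X * (f r * g r)) := by
  induction r with
  | zero =>
    simp [f, g]
    exact (map_ofNat C 2).symm
  | succ r ih =>
    have e : 2 * (r + 1) + 1 = 2 * r + 1 + 1 + 1 := by ring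
    rw [e, prod_range_succ, prod_range_succ, ih]
    have f1 : f (r + 1) = f r * (X + C ((r : ℝ) + 1)) := by unfold f; rw [prod_range_succ]
    have g1 : g (r + 1) = g r * (X + C ((r : ℝ) + 1 / 2)) := by unfold g; rw [prod_range_succ]
    rw [f1, g1]
    have k1 : (2 * X + C (((2 * r + 1 : ℕ)) : ℝ) : ℝ[X]) = C 2 * (X + C ((r : ℝ) + 1 / 2)) := by
      rw [mul_add, ← C_mul]
      congr 2
      push_cast
      ring
    have k2 : (2 * X + C (((2 * r + 1 + 1 : ℕ)) : ℝ) : ℝ[X]) = C 2 * (X + C ((r : ℝ) + 1)) := by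
      rw [mul_add, ← C_mul]
      congr 2
      push_cast
      ring
    rw [k1, k2]
    have k3 : (C (2 * 4 ^ (r + 1)) : ℝ[X]) = C (2 * 4 ^ r) * C 2 * C 2 := by
      rw [← C_mul, ← C_mul]
      congr 1
      rw [pow_succ]
      ring
    rw [k3]
    ring

theorem h_succ (r : ℕ) : C (((r + 1).factorial : ℕ) : ℝ) * h (r + 1) = X * f r := by
  unfold h f
  rw [← mul_assoc, ← C_mul]
  have : (((r + 1).factorial : ℕ) : ℝ) * (1 / ((r + 1).factorial : ℕ)) = 1 := by
    have : (((r + 1).factorial : ℕ) : ℝ) ≠ 0 := by exact_mod_cast (r + 1).factorial_ne_zero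
    field_simp
  rw [this, C_1, one_mul, prod_range_succ']
  simp only [Nat.cast_zero, C_0, add_zero]
  rw [mul_comm]
  congr 1
  apply prod_congr rfl
  intro s _
  push_cast
  rfl

theorem V_odd (r : ℕ) : V (2 * r + 1) = 2 * ∑ i ∈ range (r + 1), h i * h (2 * r + 1 - i) := by
  unfold V
  have e : 2 * r + 1 + 1 = (r + 1) + (r + 1) := by ring
  have key : ∑ x ∈ range (r + 1), h (r + 1 + x) * h (2 * r + 1 - (r + 1 + x)) =
      ∑ i ∈ range (r + 1), h i * h (2 * r + 1 - i) := by
    rw [← sum_range_reflect]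
    apply sum_congr rfl
    intro i hi
    have hi' : i ≤ r := by have := mem_range.mp hi; omega
    have e1 : r + 1 + (r + 1 - 1 - i) = 2 * r + 1 - i := by omega
    have e2 : 2 * r + 1 - (r + 1 + (r + 1 - 1 - i)) = i := by omega
    rw [e2, e1, mul_comm]
  rw [e, sum_range_add, key]
  ring

/-- first constant -/
noncomputable def α (r : ℕ) : ℝ := 1 / ((r.factorial : ℕ) : ℝ) ^ 2
/-- second constant -/
noncomputable def β (r : ℕ) : ℝ := 4 ^ r / (((2 * r + 1).factorial : ℕ) : ℝ)

theorem closed (r : ℕ) : C 2 * ∑ i ∈ range r, C ((r : ℝ) - i) * (h i * h (2 * r + 1 - i)) =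
    X * (f r * (C (α r) * f r - C (β r) * g r)) := by
  have h1 : C 2 * ∑ i ∈ range r, C ((r : ℝ) - i) * (h i * h (2 * r + 1 - i)) =
      ∑ i ∈ range (r + 1), C (2 * (r : ℝ) + 1 - 2 * i) * (h i * h (2 * r + 1 - i)) -
      ∑ i ∈ range (r + 1), h i * h (2 * r + 1 - i) := by
    rw [← sum_sub_distrib, sum_range_succ]
    have e0 : C (2 * (r : ℝ) + 1 - 2 * r) * (h r * h (2 * r + 1 - r)) -
        h r * h (2 * r + 1 - r) = 0 := by
      have : 2 * (r : ℝ) + 1 - 2 * r = 1 := by ring
      rw [this, C_1]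
      ring
    rw [e0, add_zero, mul_sum]
    apply sum_congr rfl
    intro i _
    have : (2 * (r : ℝ) + 1 - 2 * i) = 2 * ((r : ℝ) - i) + 1 := by ring
    rw [this, C_add, C_mul, C_1]
    ring
  have hA := tele r (r + 1) le_rfl
  have e1 : 2 * r + 2 - (r + 1) = r + 1 := by omega
  rw [e1] at hA
  set A := ∑ i ∈ range (r + 1), C (2 * (r : ℝ) + 1 - 2 * i) * (h i * h (2 * r + 1 - i)) with hAd
  set W := ∑ i ∈ range (r + 1), h i * h (2 * r + 1 - i) with hW
  have hV := V_eq (2 * r + 1)
  rw [V_odd, prod_two] at hV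
  have hs := h_succ r
  rw [h1]
  -- multiply by constants
  set F := ((r.factorial : ℕ) : ℝ) with hF
  have hF0 : F ≠ 0 := by rw [hF]; exact_mod_cast r.factorial_ne_zero
  have hA2 : X * A = X * (X * (C (α r) * (f r * f r))) := by
    have e2 : C (F ^ 2) * (X * A) = X * X * (f r * f r) := by
      rw [hA]
      have : C (F ^ 2) * (C (((r + 1 : ℕ) : ℝ) * (2 * r + 2 - ((r + 1 : ℕ) : ℝ))) *
          (h (r + 1) * h (r + 1))) =
          (C (((r + 1).factorial : ℕ) : ℝ) * h (r + 1)) *
          (C (((r + 1).factorial : ℕ) : ℝ) * h (r + 1)) := by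
        have : (F ^ 2 * (((r + 1 : ℕ) : ℝ) * (2 * r + 2 - ((r + 1 : ℕ) : ℝ)))) =
            (((r + 1).factorial : ℕ) : ℝ) * (((r + 1).factorial : ℕ) : ℝ) := by
          rw [Nat.factorial_succ]
          push_cast
          rw [← hF]
          ring
        rw [← mul_assoc, ← C_mul, this, C_mul]
        ring
      rw [this, hs]
      ring
    have e3 : C (F ^ 2) * (X * (X * (C (α r) * (f r * f r)))) = X * X * (f r * f r) := by
      have : C (F ^ 2) * C (α r) = 1 := by
        rw [← C_mul, α, ← hF, ← C_1]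
        congr 1
        field_simp
      calc _ = (C (F ^ 2) * C (α r)) * (X * X * (f r * f r)) := by ring
        _ = _ := by rw [this, one_mul]
    have hne : (C (F ^ 2) : ℝ[X]) ≠ 0 := by
      rw [Ne, C_eq_zero]
      positivity
    exact mul_left_cancel₀ hne (e2.trans e3.symm)
  have hA3 := mul_left_cancel₀ X_ne_zero hA2
  have hW2 : W = X * (C (β r) * (f r * g r)) := by
    set G := (((2 * r + 1).factorial : ℕ) : ℝ) with hG
    have hG0 : G ≠ 0 := by rw [hG]; exact_mod_cast (2 * r + 1).factorial_ne_zero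
    have hne : (C (G * 2) : ℝ[X]) ≠ 0 := by
      rw [Ne, C_eq_zero]
      positivity
    apply mul_left_cancel₀ hne
    have e1 : C (G * 2) * W = C G * (2 * W) := by
      rw [C_mul]
      have : (C 2 : ℝ[X]) = 2 := rfl
      rw [this]
      ring
    rw [e1, hV]
    have e2 : C (G * 2) * C (β r) = C (2 * 4 ^ r) := by
      rw [← C_mul, β, ← hG]
      congr 1
      field_simp
    calc _ = C (2 * 4 ^ r) * (X * (f r * g r)) := rfl
      _ = _ := by rw [← e2]; ring
  rw [hA3, hW2]
  ring

theorem β_pos (r : ℕ) : 0 < β r := by unfold β; positivity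

theorem β_lt_α (r : ℕ) (hr : 1 ≤ r) : β r < α r := by
  unfold α β
  have h1 := Nat.four_pow_le_two_mul_self_mul_centralBinom r (by omega)
  have h2 := Nat.centralBinom_eq_two_mul_choose r
  have h3 : (2 * r).choose r * r.factorial * r.factorial = (2 * r).factorial := by
    have := Nat.choose_mul_factorial_mul_factorial (show r ≤ 2 * r by omega)
    have e : 2 * r - r = r := by omega
    rwa [e] at this
  have h4 : (2 * r + 1).factorial = (2 * r + 1) * (2 * r).factorial := Nat.factorial_succ _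
  rw [div_lt_div_iff₀ (by positivity) (by positivity), one_mul]
  have h5 : 4 ^ r * r.factorial ^ 2 < (2 * r + 1).factorial := by
    rw [h4, ← h3, ← h2]
    have hf : 0 < r.factorial * r.factorial := by positivity
    have hc := Nat.centralBinom_pos r
    calc 4 ^ r * r.factorial ^ 2 ≤ (2 * r * r.centralBinom) * r.factorial ^ 2 :=
          Nat.mul_le_mul_right _ h1
      _ < ((2 * r + 1) * r.centralBinom) * r.factorial ^ 2 := by
          apply Nat.mul_lt_mul_of_pos_right _ (by positivity)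
          apply Nat.mul_lt_mul_of_pos_right (by omega) hc
      _ = _ := by ring
  exact_mod_cast h5

theorem eval_zero_pos (r : ℕ) (hr : 1 ≤ r) :
    0 < (C (α r) * f r - C (β r) * g r).eval 0 := by
  have hf : (f r).eval 0 = ((r.factorial : ℕ) : ℝ) := by
    unfold f
    rw [eval_prod]
    simp only [eval_add, eval_X, eval_C, zero_add]
    rw [← prod_range_add_one_eq_factorial]
    push_cast
    rfl
  have hg : ∀ r : ℕ, (g r).eval 0 * (4 ^ r * ((r.factorial : ℕ) : ℝ)) =
      (((2 * r).factorial : ℕ) : ℝ) := by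
    intro r
    induction r with
    | zero => simp [g]
    | succ r ih =>
      have g1 : g (r + 1) = g r * (X + C ((r : ℝ) + 1 / 2)) := by unfold g; rw [prod_range_succ]
      have e : 2 * (r + 1) = 2 * r + 1 + 1 := by ring
      rw [e, Nat.factorial_succ, Nat.factorial_succ, Nat.factorial_succ, g1, eval_mul]
      push_cast
      rw [← ih]
      simp only [eval_add, eval_X, eval_C, zero_add]
      ring
  have hg' := hg r
  rw [eval_sub, eval_mul, eval_mul, eval_C, eval_C, hf]
  unfold α β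
  have h4 : (((2 * r + 1).factorial : ℕ) : ℝ) = (2 * r + 1) * ((2 * r).factorial : ℕ) := by
    rw [Nat.factorial_succ]; push_cast; ring
  rw [h4, ← hg']
  set F := ((r.factorial : ℕ) : ℝ) with hF
  have hF0 : 0 < F := by rw [hF]; exact_mod_cast r.factorial_pos
  have hgp : 0 < (g r).eval 0 := by
    unfold g
    rw [eval_prod]
    apply prod_pos
    intro j _
    simp only [eval_add, eval_X, eval_C, zero_add]
    positivity
  set Gv := (g r).eval 0 with hGv
  have hr' : (1 : ℝ) ≤ r := by exact_mod_cast hr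
  have e : 1 / F ^ 2 * F - 4 ^ r / ((2 * (r : ℝ) + 1) * (Gv * (4 ^ r * F))) * Gv =
      (2 * r) / ((2 * r + 1) * F) := by
    have h4p : (4 : ℝ) ^ r ≠ 0 := by positivity
    have h2 : (2 * (r : ℝ) + 1) ≠ 0 := by positivity
    field_simp
    ring
  rw [e]
  positivity

theorem PF_main (r : ℕ) (hr : 1 ≤ r) :
    PF (C 2 * ∑ i ∈ range r, C ((r : ℝ) - i) * (h i * h (2 * r + 1 - i))) := by
  rw [closed]
  have h1 := PF_comb r hr (α r) (β r) (β_pos r) (β_lt_α r hr) (eval_zero_pos r hr)
  have h2 := PF_prod (range r) (fun j => (j : ℝ) + 1) (fun _ _ => by positivity) _ h1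
  have h3 := PF_lin _ h2 1 0 zero_le_one le_rfl
  simpa [f] using h3

end Pool.Agent.R107.MLC
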