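import Mathlib
import Pool.Agent.R107.QuasiTheta
import Pool.Agent.R107.QProd

namespace Pool.Agent.R107.P235

open Pool.Agent.R107.QT

/-- numerical data for the parts [2, 3, 5] -/
def dd (S : ℕ) : Par := ⟨2, 3, 5, 30, 505993266938547258869384307579085539625632977296267223069213478579615100, 3, S⟩

lemma sg_eq (S : ℕ) : (dd S).sg = 10 := by rfl

lemma abs_key {x y c e : ℤ} (h1 : -(y - c - e) ≤ x) (h2 : x ≤ y - c - e) : |x| + c + e ≤ y := by
  have := abs_le.2 ⟨h1, h2⟩
  linarith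

lemma p_small : ∀ n : ℕ, n < 64 → 0 ≤ p (dd 1) (n : ℤ) := by decide +kernel

lemma ok1 : Ok (dd 1) (-11) 60 (-95) 95 where
  Lpos := by decide +kernel
  hpar := by decide +kernel
  alpos := by decide +kernel
  bepos := by decide +kernel
  gapos := by decide +kernel
  hdiv := by decide +kernel
  hcomb := by decide +kernel
  hneg := by decide +kernel
  h0 := by decide +kernel
  hper := by decide +kernel
  hW := by decide +kernel
  hS1 := by decide +kernel
  hS2 := by decide +kernel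
  hS3 := by decide +kernel

lemma bd1 : Bd (dd 1) (95 - -95) 1 15 := by
  apply Bd_of ok1
  intro M s y1 y2 hM hs0 hs1 h1 h2
  rw [sg_eq] at h1 h2 ⊢
  simp only [dd] at hs1 h1 h2 ⊢
  push_cast at hM hs1 h1 h2 ⊢
  have e3 : 0 ≤ M * (M - 16) := mul_nonneg (by omega) (by omega)
  have e4 : 0 ≤ M * s := mul_nonneg (by omega) hs0
  have e5 : 0 ≤ M * (3 * (M + 1) - 1 - 1 - s) := mul_nonneg (by omega) (by omega)
  have e6 := sq_nonneg (2 * s - (2 * 1 * M - 2 * 1 - 10))
  rcases h1 with ⟨h1, v, hv1, hv2, rfl⟩ | ⟨h1, rfl⟩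
  · have e7 : 0 ≤ s * ((2 * M + 1) * 1 - 1 - s) := mul_nonneg hs0 (by omega)
    rcases h2 with ⟨h2, v', hv1', hv2', rfl⟩ | ⟨h2, rfl⟩
    · have e8 : 0 ≤ M * (M * (2 * 1 - 3) - 1 - s) := mul_nonneg (by omega) (by omega)
      apply abs_key <;> linarith
    · have e8 : 0 ≤ M * (s - M * (2 * 1 - 3)) := mul_nonneg (by omega) (by omega)
      apply abs_key <;> linarith
  · have e7 : 0 ≤ M * (s - (2 * M + 1) * 1) := mul_nonneg (by omega) (by omega)
    rcases h2 with ⟨h2, v', hv1', hv2', rfl⟩ | ⟨h2, rfl⟩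
    · exfalso
      omega
    · apply abs_key <;> linarith


open PowerSeries PowerSeries.WithPiTopology
open Pool.Agent.R107.TruncTheta (R coeff_R_nonneg coeff_mul_nonneg)
open Pool.Agent.R107.QProd (constantCoeff_R)

/-- check of strict positivity for all indices at least `kmin`, apart from the two trivial
exceptions -/
def chkp (kmin : ℕ) (N : ℤ) : ℕ → ℤ → Bool
  | 0, _ => true
  | J + 1, acc => (Nat.blt (J + 1) kmin || (decide (N < a (dd 1) (J + 1)) ||
      (decide (N = a (dd 1) (J + 1) + 1) || decide (1 ≤ D (dd 1) (J + 1) N - acc)))) &&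
      chkp kmin N J (D (dd 1) (J + 1) N - acc)

lemma chkp_spec (kmin : ℕ) (N : ℤ) (J L : ℕ)
    (h : chkp kmin N J (cc (dd 1) L (J + 1) N) = true) :
    ∀ k, 1 ≤ k → kmin ≤ k → k ≤ J → a (dd 1) k ≤ N → N ≠ a (dd 1) k + 1 →
      1 ≤ cc (dd 1) (L + (J + 1 - k)) k N := by
  induction J generalizing L with
  | zero => intro k h1 _ h2; omega
  | succ J ih =>
    intro k h1 hmin h2 h4 h5
    rw [chkp, Bool.and_eq_true, Bool.or_eq_true, Bool.or_eq_true, Bool.or_eq_true,
      decide_eq_true_eq, decide_eq_true_eq, decide_eq_true_eq] at h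
    have e1 : D (dd 1) (J + 1) N - cc (dd 1) L (J + 1 + 1) N = cc (dd 1) (L + 1) (J + 1) N := by
      rw [cc]
    rw [e1] at h
    rcases Nat.lt_or_ge J k with hk | hk
    · have : k = J + 1 := by omega
      subst this
      rw [show J + 1 + 1 - (J + 1) = 1 by omega]
      rcases h.1 with h3 | h3 | h3 | h3
      · rw [Nat.blt_eq] at h3
        omega
      · omega
      · omega
      · exact h3
    · have := ih (L + 1) h.2 k h1 hmin hk h4 h5
      rwa [show L + 1 + (J + 1 - k) = L + (J + 1 + 1 - k) by omega] at this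

lemma chkp_weaken (k1 k2 : ℕ) (h12 : k1 ≤ k2) (N : ℤ) (J : ℕ) (acc : ℤ)
    (h : chkp k1 N J acc = true) : chkp k2 N J acc = true := by
  induction J generalizing acc with
  | zero => rfl
  | succ J ih =>
    rw [chkp, Bool.and_eq_true, Bool.or_eq_true] at h ⊢
    refine ⟨?_, ih _ h.2⟩
    rcases h.1 with h1 | h1
    · left
      rw [Nat.blt_eq] at h1 ⊢
      omega
    · right
      exact h1

lemma chk1 : ∀ N : ℕ, N < 392 → 82 ≤ N → chkp 1 (N : ℤ) 15 0 = true := by decide +kernel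

lemma chk2 : ∀ N : ℕ, N < 82 → 24 ≤ N → chkp 2 (N : ℤ) 7 0 = true := by decide +kernel

lemma chk3 : ∀ N : ℕ, N < 24 → chkp 3 (N : ℤ) 4 0 = true := by decide +kernel

lemma a16 : a (dd 1) 16 = 392 := by decide +kernel

lemma a8 : a (dd 1) 8 = 100 := by decide +kernel

lemma a5 : a (dd 1) 5 = 40 := by decide +kernel

/-- the value of `p` is positive away from `1` -/
lemma p_pos (n : ℤ) (h0 : 0 ≤ n) (h1 : n ≠ 1) : 1 ≤ p (dd 1) n := by
  rcases lt_or_ge n 64 with h | h
  · have key : ∀ m : ℕ, m < 64 → m ≠ 1 → 1 ≤ p (dd 1) (m : ℤ) := by decide +kernel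
    have := key n.toNat (by omega) (by omega)
    rwa [Int.toNat_of_nonneg h0] at this
  · have h2 := Q_mul_p ok1 (n := n) (by rw [sg_eq]; omega)
    have h3 := (per_bounds ok1 n).1
    rw [sg_eq] at h2
    have hQ : ((dd 1).Q : ℤ) = 60 := by rfl
    rw [hQ] at h2
    nlinarith

/-- positivity for `N` not covered by the exceptional small range -/
lemma pos_of (m0 kmin : ℕ) (k N : ℕ) (hk : 1 ≤ k) (hmin : kmin ≤ k)
    (hN : (N : ℤ) < a (dd 1) (m0 + 1))
    (hc : chkp kmin (N : ℤ) m0 0 = true) (h1 : a (dd 1) k ≤ N) (h2 : (N : ℤ) ≠ a (dd 1) k + 1) :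
    1 ≤ cc (dd 1) (N + 1) k N := by
  have h3 := le_a ok1 (k + (N + 1))
  have hkm : k ≤ m0 := by
    by_contra hh
    have := a_mono ok1 (show m0 + 1 ≤ k by omega)
    omega
  have h4 := chkp_spec kmin (N : ℤ) m0 0 (by simpa [cc] using hc) k hk hmin hkm h1 h2
  rwa [cc_indep ok1 (N + 1) (0 + (m0 + 1 - k)) k N (by push_cast at h3; omega)
    (by rw [show k + (0 + (m0 + 1 - k)) = m0 + 1 by omega]; exact hN)]

lemma pos_large (k N : ℕ) (hk : 1 ≤ k) (hN : 392 ≤ N)
    (h1 : a (dd 1) k ≤ N) (h2 : (N : ℤ) ≠ a (dd 1) k + 1) :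
    1 ≤ cc (dd 1) (N + 1) k N := by
  rcases large ok1 1 15 bd1 k N hk h1 (by rw [a16]; omega) with h | h
  · have hQ : ((dd 1).Q : ℤ) = 60 := by rfl
    rw [hQ] at h
    omega
  · rw [h]
    exact p_pos _ (by omega) (by omega)

/-- `k ≥ 3` -/
lemma pos3 (k N : ℕ) (hk : 3 ≤ k) (h1 : a (dd 1) k ≤ N) (h2 : (N : ℤ) ≠ a (dd 1) k + 1) :
    1 ≤ coeff N (P (dd 1) * U (dd 1) k) := by
  rw [coeff_P_mul_U ok1]
  rcases Nat.lt_or_ge N 392 with h | h
  · rcases Nat.lt_or_ge N 82 with h' | h'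
    · rcases Nat.lt_or_ge N 24 with h'' | h''
      · exact pos_of 4 3 k N (by omega) hk (by rw [a5]; omega) (chk3 N h'') h1 h2
      · exact pos_of 7 3 k N (by omega) hk (by rw [a8]; omega)
          (chkp_weaken 2 3 (by norm_num) _ _ _ (chk2 N h' h'')) h1 h2
    · exact pos_of 15 3 k N (by omega) hk (by rw [a16]; omega)
        (chkp_weaken 1 3 (by norm_num) _ _ _ (chk1 N h h')) h1 h2
  · exact pos_large k N (by omega) h h1 h2

/-- `k = 2` and `N ≥ 24` -/
lemma pos2 (N : ℕ) (hN : 24 ≤ N) : 1 ≤ coeff N (P (dd 1) * U (dd 1) 2) := by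
  have ha : a (dd 1) 2 = 7 := by decide +kernel
  rw [coeff_P_mul_U ok1]
  rcases Nat.lt_or_ge N 392 with h | h
  · rcases Nat.lt_or_ge N 82 with h' | h'
    · exact pos_of 7 2 2 N (by omega) le_rfl (by rw [a8]; omega) (chk2 N h' hN)
        (by rw [ha]; omega) (by rw [ha]; omega)
    · exact pos_of 15 2 2 N (by omega) le_rfl (by rw [a16]; omega)
        (chkp_weaken 1 2 (by norm_num) _ _ _ (chk1 N h h')) (by rw [ha]; omega) (by rw [ha]; omega)
  · exact pos_large 2 N (by omega) h (by rw [ha]; omega) (by rw [ha]; omega)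

/-- `k = 1` and `N ≥ 82` -/
lemma pos1 (N : ℕ) (hN : 82 ≤ N) : 1 ≤ coeff N (P (dd 1) * U (dd 1) 1) := by
  have ha : a (dd 1) 1 = 2 := by decide +kernel
  rw [coeff_P_mul_U ok1]
  rcases Nat.lt_or_ge N 392 with h | h
  · exact pos_of 15 1 1 N (by omega) le_rfl (by rw [a16]; omega) (chk1 N h hN)
      (by rw [ha]; omega) (by rw [ha]; omega)
  · exact pos_large 1 N (by omega) h (by rw [ha]; omega) (by rw [ha]; omega)

lemma coeff_eq_cc (k L N : ℕ) (h : (N : ℤ) < a (dd 1) (k + L)) :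
    coeff N (P (dd 1) * U (dd 1) k) = cc (dd 1) L k (N : ℤ) := by
  rw [coeff_P_mul_U ok1]
  apply cc_indep ok1 _ _ _ _ _ h
  have := le_a ok1 (k + (N + 1))
  push_cast at this
  omega

/-- vanishing below and right after the first exponent -/
lemma van (k N : ℕ) (hk : 1 ≤ k) (h : (N : ℤ) < a (dd 1) k ∨ (N : ℤ) = a (dd 1) k + 1) :
    coeff N (P (dd 1) * U (dd 1) k) = 0 := by
  rw [coeff_P_mul_U ok1]
  rcases h with h | h
  · exact cc_zero ok1 _ _ _ h
  · have hS : ((dd 1).S : ℤ) = 1 := rfl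
    have hR : ((dd 1).Rr : ℤ) = 3 := rfl
    have h1 : (N : ℤ) < a (dd 1) (k + 1) := by
      rw [a_succ, hS, hR]
      omega
    rw [cc_indep ok1 (N + 1) 1 k N (by
      have := le_a ok1 (k + (N + 1))
      push_cast at this
      omega) h1]
    simp only [cc]
    unfold D
    rw [b_eq, hS, p_neg (n := (N : ℤ) - (a (dd 1) k + (2 * (k : ℤ) + 1) * 1)) (by omega), h]
    have : a (dd 1) k + 1 - a (dd 1) k = 1 := by ring
    rw [this]
    decide +kernel

/-- a product with a series with constant term 1 -/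
lemma coeff_mul_ge {f g : ℤ⟦X⟧} (hf : ∀ n, 0 ≤ coeff n f) (hg : ∀ n, 0 ≤ coeff n g)
    (h1 : constantCoeff g = 1) (n : ℕ) : coeff n f ≤ coeff n (f * g) := by
  rw [PowerSeries.coeff_mul]
  have h2 : coeff n f = coeff (n, 0).1 f * coeff (n, 0).2 g := by
    rw [coeff_zero_eq_constantCoeff_apply, h1, mul_one]
  rw [h2]
  exact Finset.single_le_sum (f := fun x : ℕ × ℕ => coeff x.1 f * coeff x.2 g)
    (fun x _ => mul_nonneg (hf _) (hg _)) (by simp)

/-- coefficients of `R pr` vanish below the smallest admissible part -/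
lemma coeff_R_zero (pr : ℕ → Prop) [DecidablePred pr] (m : ℕ) (hpr : ∀ i, pr i → 0 < i → m ≤ i)
    (n : ℕ) (h0 : 0 < n) (h1 : n < m) : coeff n (R pr) = 0 := by
  unfold R
  rw [PowerSeries.coeff_mk]
  have : Nat.Partition.restricted n pr = ∅ := by
    unfold Nat.Partition.restricted
    rw [Finset.filter_eq_empty_iff]
    intro x _ hx
    have hne : x.parts ≠ 0 := by
      intro h
      have := x.parts_sum
      rw [h] at this
      simp at this
      omega
    obtain ⟨i, hi⟩ := Multiset.exists_mem_of_ne_zero hne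
    have h2 := hpr i (hx i hi) (x.parts_pos hi)
    have h3 := Nat.Partition.le_of_mem_parts hi
    omega
  rw [this]
  simp

lemma coeff_mul_of_gap {f g : ℤ⟦X⟧} (h1 : constantCoeff g = 1) (m n : ℕ)
    (hg : ∀ i, 0 < i → i < m → coeff i g = 0) (hf : ∀ i, i + m ≤ n → coeff i f = 0) :
    coeff n (f * g) = coeff n f := by
  rw [PowerSeries.coeff_mul]
  rw [Finset.sum_eq_single (n, 0)]
  · rw [coeff_zero_eq_constantCoeff_apply, h1, mul_one]
  · intro x hx hne
    rw [Finset.HasAntidiagonal.mem_antidiagonal] at hx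
    rcases Nat.lt_or_ge x.2 m with h | h
    · rcases Nat.eq_zero_or_pos x.2 with h0 | h0
      · exfalso
        apply hne
        ext
        · simp; omega
        · simp; exact h0
      · rw [hg x.2 h0 h, mul_zero]
    · rw [hf x.1 (by omega), zero_mul]
  · intro h
    simp at h

end Pool.Agent.R107.P235
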