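import Mathlib

/-!
# Reflective nonnegativity of bivariate integer polynomials

An expression in two variables is normalised to its table of coefficients by a kernel computation;
when all coefficients are nonnegative, the value at nonnegative reals is nonnegative.
-/

set_option autoImplicit false

namespace Pool.Agent.R107.PolyRef

/-- addition of coefficient lists -/
def add1 : List ℤ → List ℤ → List ℤ
  | [], q => q
  | p, [] => p
  | a :: p, b :: q => (a + b) :: add1 p q

/-- scaling of a coefficient list -/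
def smul1 (c : ℤ) : List ℤ → List ℤ
  | [] => []
  | a :: p => (c * a) :: smul1 c p

/-- product of coefficient lists -/
def mul1 : List ℤ → List ℤ → List ℤ
  | [], _ => []
  | a :: p, q => add1 (smul1 a q) (0 :: mul1 p q)

/-- addition of tables -/
def add2 : List (List ℤ) → List (List ℤ) → List (List ℤ)
  | [], q => q
  | p, [] => p
  | a :: p, b :: q => (add1 a b) :: add2 p q

/-- scaling of a table by a list -/
def smul2 (c : List ℤ) : List (List ℤ) → List (List ℤ)
  | [] => []
  | a :: p => (mul1 c a) :: smul2 c p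

/-- product of tables -/
def mul2 : List (List ℤ) → List (List ℤ) → List (List ℤ)
  | [], _ => []
  | a :: p, q => add2 (smul2 a q) ([] :: mul2 p q)

/-- power of a table -/
def pow2 (p : List (List ℤ)) : ℕ → List (List ℤ)
  | 0 => [[1]]
  | k + 1 => mul2 p (pow2 p k)

/-- value of a list -/
def ev1 (x : ℝ) : List ℤ → ℝ
  | [] => 0
  | a :: p => a + x * ev1 x p

/-- value of a table -/
def ev2 (x y : ℝ) : List (List ℤ) → ℝ
  | [] => 0
  | a :: p => ev1 x a + y * ev2 x y p

theorem ev1_add1 (x : ℝ) : ∀ p q : List ℤ, ev1 x (add1 p q) = ev1 x p + ev1 x q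
  | [], q => by simp [add1, ev1]
  | a :: p, [] => by simp [add1, ev1]
  | a :: p, b :: q => by
      simp only [add1, ev1, ev1_add1 x p q]
      push_cast
      ring

theorem ev1_smul1 (x : ℝ) (c : ℤ) : ∀ p : List ℤ, ev1 x (smul1 c p) = c * ev1 x p
  | [] => by simp [smul1, ev1]
  | a :: p => by
      simp only [smul1, ev1, ev1_smul1 x c p]
      push_cast
      ring

theorem ev1_mul1 (x : ℝ) : ∀ p q : List ℤ, ev1 x (mul1 p q) = ev1 x p * ev1 x q
  | [], q => by simp [mul1, ev1]
  | a :: p, q => by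
      simp only [mul1, ev1, ev1_add1, ev1_smul1, ev1_mul1 x p q]
      push_cast
      ring

theorem ev2_add2 (x y : ℝ) : ∀ p q : List (List ℤ), ev2 x y (add2 p q) = ev2 x y p + ev2 x y q
  | [], q => by simp [add2, ev2]
  | a :: p, [] => by simp [add2, ev2]
  | a :: p, b :: q => by
      simp only [add2, ev2, ev2_add2 x y p q, ev1_add1]
      ring

theorem ev2_smul2 (x y : ℝ) (c : List ℤ) : ∀ p : List (List ℤ),
    ev2 x y (smul2 c p) = ev1 x c * ev2 x y p
  | [] => by simp [smul2, ev2]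
  | a :: p => by
      simp only [smul2, ev2, ev2_smul2 x y c p, ev1_mul1]
      ring

theorem ev2_mul2 (x y : ℝ) : ∀ p q : List (List ℤ), ev2 x y (mul2 p q) = ev2 x y p * ev2 x y q
  | [], q => by simp [mul2, ev2]
  | a :: p, q => by
      simp only [mul2, ev2, ev2_add2, ev2_smul2, ev2_mul2 x y p q, ev1]
      ring

theorem ev2_pow2 (x y : ℝ) (p : List (List ℤ)) : ∀ k : ℕ, ev2 x y (pow2 p k) = (ev2 x y p) ^ k
  | 0 => by simp [pow2, ev2, ev1]
  | k + 1 => by
      simp only [pow2, ev2_mul2, ev2_pow2 x y p k]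
      ring

/-- expressions in two variables -/
inductive Ex where
  | x : Ex
  | y : Ex
  | n : ℤ → Ex
  | add : Ex → Ex → Ex
  | sub : Ex → Ex → Ex
  | mul : Ex → Ex → Ex
  | pow : Ex → ℕ → Ex

/-- value of an expression -/
def Ex.ev (u v : ℝ) : Ex → ℝ
  | .x => u
  | .y => v
  | .n c => c
  | .add a b => a.ev u v + b.ev u v
  | .sub a b => a.ev u v - b.ev u v
  | .mul a b => a.ev u v * b.ev u v
  | .pow a k => (a.ev u v) ^ k

/-- coefficient table of an expression -/
def Ex.norm : Ex → List (List ℤ)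
  | .x => [[0, 1]]
  | .y => [[], [1]]
  | .n c => [[c]]
  | .add a b => add2 a.norm b.norm
  | .sub a b => add2 a.norm (smul2 [-1] b.norm)
  | .mul a b => mul2 a.norm b.norm
  | .pow a k => pow2 a.norm k

theorem Ex.ev_norm (u v : ℝ) : ∀ e : Ex, e.ev u v = ev2 u v e.norm
  | .x => by simp [Ex.ev, Ex.norm, ev2, ev1]
  | .y => by simp [Ex.ev, Ex.norm, ev2, ev1]
  | .n c => by simp [Ex.ev, Ex.norm, ev2, ev1]
  | .add a b => by simp only [Ex.ev, Ex.norm, ev2_add2, Ex.ev_norm u v a, Ex.ev_norm u v b]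
  | .sub a b => by
      simp only [Ex.ev, Ex.norm, ev2_add2, ev2_smul2, Ex.ev_norm u v a, Ex.ev_norm u v b, ev1]
      push_cast
      ring
  | .mul a b => by simp only [Ex.ev, Ex.norm, ev2_mul2, Ex.ev_norm u v a, Ex.ev_norm u v b]
  | .pow a k => by simp only [Ex.ev, Ex.norm, ev2_pow2, Ex.ev_norm u v a]

/-- all entries nonnegative -/
def nn1 : List ℤ → Bool
  | [] => true
  | a :: p => (decide (0 ≤ a)) && nn1 p

/-- all entries nonnegative -/
def nn2 : List (List ℤ) → Bool
  | [] => true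
  | a :: p => nn1 a && nn2 p

theorem ev1_nonneg {x : ℝ} (hx : 0 ≤ x) : ∀ p : List ℤ, nn1 p = true → 0 ≤ ev1 x p
  | [], _ => le_rfl
  | a :: p, h => by
      simp only [nn1, Bool.and_eq_true, decide_eq_true_eq] at h
      have h1 := ev1_nonneg hx p h.2
      have h2 : (0 : ℝ) ≤ a := by exact_mod_cast h.1
      simp only [ev1]
      positivity

theorem ev2_nonneg {x y : ℝ} (hx : 0 ≤ x) (hy : 0 ≤ y) : ∀ p : List (List ℤ),
    nn2 p = true → 0 ≤ ev2 x y p
  | [], _ => le_rfl
  | a :: p, h => by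
      simp only [nn2, Bool.and_eq_true] at h
      have h1 := ev2_nonneg hx hy p h.2
      have h2 := ev1_nonneg hx a h.1
      simp only [ev2]
      positivity

theorem Ex.nonneg (e : Ex) (h : nn2 e.norm = true) {u v : ℝ} (hu : 0 ≤ u) (hv : 0 ≤ v) :
    0 ≤ e.ev u v := by
  rw [Ex.ev_norm]
  exact ev2_nonneg hu hv _ h

instance : Add Ex := ⟨Ex.add⟩
instance : Sub Ex := ⟨Ex.sub⟩
instance : Mul Ex := ⟨Ex.mul⟩
instance : HPow Ex ℕ Ex := ⟨Ex.pow⟩
instance (k : ℕ) : OfNat Ex k := ⟨Ex.n k⟩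

theorem ev_add (a b : Ex) (u v : ℝ) : (a + b).ev u v = a.ev u v + b.ev u v := rfl
theorem ev_sub (a b : Ex) (u v : ℝ) : (a - b).ev u v = a.ev u v - b.ev u v := rfl
theorem ev_mul (a b : Ex) (u v : ℝ) : (a * b).ev u v = a.ev u v * b.ev u v := rfl
theorem ev_pow (a : Ex) (k : ℕ) (u v : ℝ) : (a ^ k).ev u v = (a.ev u v) ^ k := rfl
theorem ev_num (k : ℕ) (u v : ℝ) : (OfNat.ofNat k : Ex).ev u v = ((k : ℤ) : ℝ) := rfl

end Pool.Agent.R107.PolyRef
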