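import Mathlib
import Pool.Agent.R107.QuasiTheta

namespace Pool.Agent.R107.RRA

open Pool.Agent.R107.QT

/-- numerical data for the parts [1, 4, 9] -/
def dd (S : ℕ) : Par := ⟨1, 4, 9, 36, 150256184574121724840780622791788453673882674655751122574827493049337165914489355794824, 7, S⟩

lemma sg_eq (S : ℕ) : (dd S).sg = 14 := by rfl

lemma abs_key {x y c : ℤ} (h1 : -(y - c) ≤ x) (h2 : x ≤ y - c) : |x| + c + 0 ≤ y := by
  have := abs_le.2 ⟨h1, h2⟩
  linarith

lemma p_small : ∀ n : ℕ, n < 64 → 0 ≤ p (dd 1) (n : ℤ) := by decide +kernel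

lemma ok1 : Ok (dd 1) (-3) 81 (-140) 140 where
  Lpos := by decide +kernel
  hpar := by decide +kernel
  alpos := by decide +kernel
  bepos := by decide +kernel
  gapos := by decide +kernel
  hdiv := by decide +kernel
  hcomb := by decide +kernel
  hneg := by decide +kernel
  h0 := by decide +kernel
  hper := by decide +kernel
  hW := by decide +kernel
  hS1 := by decide +kernel
  hS2 := by decide +kernel
  hS3 := by decide +kernel

lemma bd1 : Bd (dd 1) (140 - -140) 0 18 := by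
  apply Bd_of ok1
  intro M s y1 y2 hM hs0 hs1 h1 h2
  rw [sg_eq] at h1 h2 ⊢
  simp only [dd] at hs1 h1 h2 ⊢
  push_cast at hM hs1 h1 h2 ⊢
  have e3 : 0 ≤ M * (M - 19) := mul_nonneg (by omega) (by omega)
  have e4 : 0 ≤ M * s := mul_nonneg (by omega) hs0
  have e5 : 0 ≤ M * (7 * (M + 1) - 1 - 1 - s) := mul_nonneg (by omega) (by omega)
  have e6 := sq_nonneg (2 * s - (2 * 1 * M - 2 * 1 - 14))
  rcases h1 with ⟨h1, v, hv1, hv2, rfl⟩ | ⟨h1, rfl⟩
  · have e7 : 0 ≤ s * ((2 * M + 1) * 1 - 1 - s) := mul_nonneg hs0 (by omega)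
    rcases h2 with ⟨h2, v', hv1', hv2', rfl⟩ | ⟨h2, rfl⟩
    · have e8 : 0 ≤ M * (M * (2 * 1 - 7) - 1 - s) := mul_nonneg (by omega) (by omega)
      apply abs_key <;> linarith
    · have e8 : 0 ≤ M * (s - M * (2 * 1 - 7)) := mul_nonneg (by omega) (by omega)
      apply abs_key <;> linarith
  · have e7 : 0 ≤ M * (s - (2 * M + 1) * 1) := mul_nonneg (by omega) (by omega)
    rcases h2 with ⟨h2, v', hv1', hv2', rfl⟩ | ⟨h2, rfl⟩
    · exfalso
      omega
    · apply abs_key <;> linarith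

lemma ok2 : Ok (dd 2) (-3) 81 (-84) 84 where
  Lpos := by decide +kernel
  hpar := by decide +kernel
  alpos := by decide +kernel
  bepos := by decide +kernel
  gapos := by decide +kernel
  hdiv := by decide +kernel
  hcomb := by decide +kernel
  hneg := by decide +kernel
  h0 := by decide +kernel
  hper := by decide +kernel
  hW := by decide +kernel
  hS1 := by decide +kernel
  hS2 := by decide +kernel
  hS3 := by decide +kernel

lemma bd2 : Bd (dd 2) (84 - -84) 0 8 := by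
  apply Bd_of ok2
  intro M s y1 y2 hM hs0 hs1 h1 h2
  rw [sg_eq] at h1 h2 ⊢
  simp only [dd] at hs1 h1 h2 ⊢
  push_cast at hM hs1 h1 h2 ⊢
  have e3 : 0 ≤ M * (M - 9) := mul_nonneg (by omega) (by omega)
  have e4 : 0 ≤ M * s := mul_nonneg (by omega) hs0
  have e5 : 0 ≤ M * (7 * (M + 1) - 2 - 1 - s) := mul_nonneg (by omega) (by omega)
  have e6 := sq_nonneg (2 * s - (2 * 2 * M - 2 * 2 - 14))
  rcases h1 with ⟨h1, v, hv1, hv2, rfl⟩ | ⟨h1, rfl⟩
  · have e7 : 0 ≤ s * ((2 * M + 1) * 2 - 1 - s) := mul_nonneg hs0 (by omega)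
    rcases h2 with ⟨h2, v', hv1', hv2', rfl⟩ | ⟨h2, rfl⟩
    · have e8 : 0 ≤ M * (M * (2 * 2 - 7) - 1 - s) := mul_nonneg (by omega) (by omega)
      apply abs_key <;> linarith
    · have e8 : 0 ≤ M * (s - M * (2 * 2 - 7)) := mul_nonneg (by omega) (by omega)
      apply abs_key <;> linarith
  · have e7 : 0 ≤ M * (s - (2 * M + 1) * 2) := mul_nonneg (by omega) (by omega)
    rcases h2 with ⟨h2, v', hv1', hv2', rfl⟩ | ⟨h2, rfl⟩
    · exfalso
      omega
    · apply abs_key <;> linarith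

lemma ok3 : Ok (dd 3) (-3) 81 (-132) 132 where
  Lpos := by decide +kernel
  hpar := by decide +kernel
  alpos := by decide +kernel
  bepos := by decide +kernel
  gapos := by decide +kernel
  hdiv := by decide +kernel
  hcomb := by decide +kernel
  hneg := by decide +kernel
  h0 := by decide +kernel
  hper := by decide +kernel
  hW := by decide +kernel
  hS1 := by decide +kernel
  hS2 := by decide +kernel
  hS3 := by decide +kernel

lemma bd3 : Bd (dd 3) (132 - -132) 0 6 := by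
  apply Bd_of ok3
  intro M s y1 y2 hM hs0 hs1 h1 h2
  rw [sg_eq] at h1 h2 ⊢
  simp only [dd] at hs1 h1 h2 ⊢
  push_cast at hM hs1 h1 h2 ⊢
  have e3 : 0 ≤ M * (M - 7) := mul_nonneg (by omega) (by omega)
  have e4 : 0 ≤ M * s := mul_nonneg (by omega) hs0
  have e5 : 0 ≤ M * (7 * (M + 1) - 3 - 1 - s) := mul_nonneg (by omega) (by omega)
  have e6 := sq_nonneg (2 * s - (2 * 3 * M - 2 * 3 - 14))
  rcases h1 with ⟨h1, v, hv1, hv2, rfl⟩ | ⟨h1, rfl⟩
  · have e7 : 0 ≤ s * ((2 * M + 1) * 3 - 1 - s) := mul_nonneg hs0 (by omega)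
    rcases h2 with ⟨h2, v', hv1', hv2', rfl⟩ | ⟨h2, rfl⟩
    · have e8 : 0 ≤ M * (M * (2 * 3 - 7) - 1 - s) := mul_nonneg (by omega) (by omega)
      apply abs_key <;> linarith
    · have e8 : 0 ≤ M * (s - M * (2 * 3 - 7)) := mul_nonneg (by omega) (by omega)
      apply abs_key <;> linarith
  · have e7 : 0 ≤ M * (s - (2 * M + 1) * 3) := mul_nonneg (by omega) (by omega)
    rcases h2 with ⟨h2, v', hv1', hv2', rfl⟩ | ⟨h2, rfl⟩
    · exfalso
      omega
    · apply abs_key <;> linarith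

lemma ok4 : Ok (dd 4) (-3) 81 (-72) 72 where
  Lpos := by decide +kernel
  hpar := by decide +kernel
  alpos := by decide +kernel
  bepos := by decide +kernel
  gapos := by decide +kernel
  hdiv := by decide +kernel
  hcomb := by decide +kernel
  hneg := by decide +kernel
  h0 := by decide +kernel
  hper := by decide +kernel
  hW := by decide +kernel
  hS1 := by decide +kernel
  hS2 := by decide +kernel
  hS3 := by decide +kernel

lemma bd4 : Bd (dd 4) (72 - -72) 0 4 := by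
  apply Bd_of ok4
  intro M s y1 y2 hM hs0 hs1 h1 h2
  rw [sg_eq] at h1 h2 ⊢
  simp only [dd] at hs1 h1 h2 ⊢
  push_cast at hM hs1 h1 h2 ⊢
  have e3 : 0 ≤ M * (M - 5) := mul_nonneg (by omega) (by omega)
  have e4 : 0 ≤ M * s := mul_nonneg (by omega) hs0
  have e5 : 0 ≤ M * (7 * (M + 1) - 4 - 1 - s) := mul_nonneg (by omega) (by omega)
  have e6 := sq_nonneg (2 * s - (2 * 4 * M - 2 * 4 - 14))
  rcases h1 with ⟨h1, v, hv1, hv2, rfl⟩ | ⟨h1, rfl⟩
  · have e7 : 0 ≤ s * ((2 * M + 1) * 4 - 1 - s) := mul_nonneg hs0 (by omega)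
    rcases h2 with ⟨h2, v', hv1', hv2', rfl⟩ | ⟨h2, rfl⟩
    · have e8 : 0 ≤ M * (M * (2 * 4 - 7) - 1 - s) := mul_nonneg (by omega) (by omega)
      apply abs_key <;> linarith
    · have e8 : 0 ≤ M * (s - M * (2 * 4 - 7)) := mul_nonneg (by omega) (by omega)
      apply abs_key <;> linarith
  · have e7 : 0 ≤ M * (s - (2 * M + 1) * 4) := mul_nonneg (by omega) (by omega)
    rcases h2 with ⟨h2, v', hv1', hv2', rfl⟩ | ⟨h2, rfl⟩
    · exfalso
      omega
    · apply abs_key <;> linarith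

lemma ok5 : Ok (dd 5) (-3) 81 (-108) 108 where
  Lpos := by decide +kernel
  hpar := by decide +kernel
  alpos := by decide +kernel
  bepos := by decide +kernel
  gapos := by decide +kernel
  hdiv := by decide +kernel
  hcomb := by decide +kernel
  hneg := by decide +kernel
  h0 := by decide +kernel
  hper := by decide +kernel
  hW := by decide +kernel
  hS1 := by decide +kernel
  hS2 := by decide +kernel
  hS3 := by decide +kernel

lemma bd5 : Bd (dd 5) (108 - -108) 0 4 := by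
  apply Bd_of ok5
  intro M s y1 y2 hM hs0 hs1 h1 h2
  rw [sg_eq] at h1 h2 ⊢
  simp only [dd] at hs1 h1 h2 ⊢
  push_cast at hM hs1 h1 h2 ⊢
  have e3 : 0 ≤ M * (M - 5) := mul_nonneg (by omega) (by omega)
  have e4 : 0 ≤ M * s := mul_nonneg (by omega) hs0
  have e5 : 0 ≤ M * (7 * (M + 1) - 5 - 1 - s) := mul_nonneg (by omega) (by omega)
  have e6 := sq_nonneg (2 * s - (2 * 5 * M - 2 * 5 - 14))
  rcases h1 with ⟨h1, v, hv1, hv2, rfl⟩ | ⟨h1, rfl⟩
  · have e7 : 0 ≤ s * ((2 * M + 1) * 5 - 1 - s) := mul_nonneg hs0 (by omega)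
    rcases h2 with ⟨h2, v', hv1', hv2', rfl⟩ | ⟨h2, rfl⟩
    · have e8 : 0 ≤ M * (M * (2 * 5 - 7) - 1 - s) := mul_nonneg (by omega) (by omega)
      apply abs_key <;> linarith
    · have e8 : 0 ≤ M * (s - M * (2 * 5 - 7)) := mul_nonneg (by omega) (by omega)
      apply abs_key <;> linarith
  · have e7 : 0 ≤ M * (s - (2 * M + 1) * 5) := mul_nonneg (by omega) (by omega)
    rcases h2 with ⟨h2, v', hv1', hv2', rfl⟩ | ⟨h2, rfl⟩
    · exfalso
      omega
    · apply abs_key <;> linarith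

lemma ok6 : Ok (dd 6) (-3) 81 (-132) 132 where
  Lpos := by decide +kernel
  hpar := by decide +kernel
  alpos := by decide +kernel
  bepos := by decide +kernel
  gapos := by decide +kernel
  hdiv := by decide +kernel
  hcomb := by decide +kernel
  hneg := by decide +kernel
  h0 := by decide +kernel
  hper := by decide +kernel
  hW := by decide +kernel
  hS1 := by decide +kernel
  hS2 := by decide +kernel
  hS3 := by decide +kernel

lemma bd6 : Bd (dd 6) (132 - -132) 0 4 := by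
  apply Bd_of ok6
  intro M s y1 y2 hM hs0 hs1 h1 h2
  rw [sg_eq] at h1 h2 ⊢
  simp only [dd] at hs1 h1 h2 ⊢
  push_cast at hM hs1 h1 h2 ⊢
  have e3 : 0 ≤ M * (M - 5) := mul_nonneg (by omega) (by omega)
  have e4 : 0 ≤ M * s := mul_nonneg (by omega) hs0
  have e5 : 0 ≤ M * (7 * (M + 1) - 6 - 1 - s) := mul_nonneg (by omega) (by omega)
  have e6 := sq_nonneg (2 * s - (2 * 6 * M - 2 * 6 - 14))
  rcases h1 with ⟨h1, v, hv1, hv2, rfl⟩ | ⟨h1, rfl⟩
  · have e7 : 0 ≤ s * ((2 * M + 1) * 6 - 1 - s) := mul_nonneg hs0 (by omega)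
    rcases h2 with ⟨h2, v', hv1', hv2', rfl⟩ | ⟨h2, rfl⟩
    · have e8 : 0 ≤ M * (M * (2 * 6 - 7) - 1 - s) := mul_nonneg (by omega) (by omega)
      apply abs_key <;> linarith
    · have e8 : 0 ≤ M * (s - M * (2 * 6 - 7)) := mul_nonneg (by omega) (by omega)
      apply abs_key <;> linarith
  · have e7 : 0 ≤ M * (s - (2 * M + 1) * 6) := mul_nonneg (by omega) (by omega)
    rcases h2 with ⟨h2, v', hv1', hv2', rfl⟩ | ⟨h2, rfl⟩
    · exfalso
      omega
    · apply abs_key <;> linarith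

end Pool.Agent.R107.RRA
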