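import Mathlib
import Pool.Agent.R107.RRA

namespace Pool.Agent.R107.RRA

open PowerSeries PowerSeries.WithPiTopology
open Pool.Agent.R107.QT
open Pool.Agent.R107.TruncTheta (coeff_mul_nonneg)

lemma chk1a : ∀ N : ℕ, N < 104 → chk (dd 1) 2 (N : ℤ) 18 0 = true := by decide +kernel

lemma chk1b : ∀ N : ℕ, N < 1311 → 104 ≤ N → chk (dd 1) 1 (N : ℤ) 18 0 = true := by
  decide +kernel

lemma gs1 : ∀ n : ℕ, n < 104 → 0 ≤ gs 6 (fun m => cc (dd 1) 6 1 (m : ℤ)) n := by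
  decide +kernel

lemma chk2 : ∀ N : ℕ, N < 297 → chk (dd 2) 1 (N : ℤ) 8 0 = true := by decide +kernel

lemma chk3 : ∀ N : ℕ, N < 175 → chk (dd 3) 1 (N : ℤ) 6 0 = true := by decide +kernel

lemma chk4 : ∀ N : ℕ, N < 85 → chk (dd 4) 1 (N : ℤ) 4 0 = true := by decide +kernel

lemma chk5 : ∀ N : ℕ, N < 80 → chk (dd 5) 1 (N : ℤ) 4 0 = true := by decide +kernel

lemma chk6 : ∀ N : ℕ, N < 75 → chk (dd 6) 1 (N : ℤ) 4 0 = true := by decide +kernel

lemma p_nonneg (S : ℕ) (n : ℤ) : 0 ≤ p (dd S) n := by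
  have h := p_nonneg' ok1 n (by norm_num) p_small
  exact h

lemma a1 : a (dd 1) 19 = 1311 := by decide +kernel

lemma nn1 (k N : ℕ) (hk : 2 ≤ k) : 0 ≤ coeff N (P (dd 1) * U (dd 1) k) := by
  rw [coeff_P_mul_U ok1]
  rcases lt_or_ge (N : ℤ) (a (dd 1) 19) with h | h
  · apply small_nonneg ok1 2 18 k N _ (by omega) hk h
    rcases Nat.lt_or_ge N 104 with h1 | h1
    · exact chk1a N h1
    · have h2 := chk_weaken 1 2 (by norm_num) (N : ℤ) 18 0 (chk1b N (by rw [a1] at h; omega) h1)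
      exact h2
  · exact large_nonneg ok1 18 bd1 (p_nonneg 1) k N (by omega) h

lemma nn1b (N : ℕ) (hN : 104 ≤ N) : 0 ≤ coeff N (P (dd 1) * U (dd 1) 1) := by
  rw [coeff_P_mul_U ok1]
  rcases lt_or_ge (N : ℤ) (a (dd 1) 19) with h | h
  · exact small_nonneg ok1 1 18 1 N (chk1b N (by rw [a1] at h; omega) hN) le_rfl le_rfl h
  · exact large_nonneg ok1 18 bd1 (p_nonneg 1) 1 N le_rfl h

lemma nn1c (N : ℕ) : 0 ≤ coeff N (geo 6 * (P (dd 1) * U (dd 1) 1)) := by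
  refine (geo_lower 6 (by norm_num) _ 104 0 le_rfl (fun n hn => nn1b n hn) ?_).1 N
  intro n hn
  rw [coeff_geo_eq 6 (by norm_num) _ (fun m => cc (dd 1) 6 1 (m : ℤ)) 104 _ n hn]
  · exact gs1 n hn
  · intro m hm
    rw [coeff_P_mul_U ok1]
    apply cc_indep ok1
    · have := le_a ok1 (1 + (m + 1))
      push_cast at this
      omega
    · have : a (dd 1) (1 + 6) = 189 := by decide +kernel
      rw [this]
      omega

lemma a2 : a (dd 2) 9 = 297 := by decide +kernel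

lemma nn2 (k N : ℕ) (hk : 1 ≤ k) : 0 ≤ coeff N (P (dd 2) * U (dd 2) k) := by
  rw [coeff_P_mul_U ok2]
  rcases lt_or_ge (N : ℤ) (a (dd 2) 9) with h | h
  · exact small_nonneg ok2 1 8 k N (chk2 N (by rw [a2] at h; omega)) hk hk h
  · exact large_nonneg ok2 8 bd2 (p_nonneg 2) k N hk h

lemma a3 : a (dd 3) 7 = 175 := by decide +kernel

lemma nn3 (k N : ℕ) (hk : 1 ≤ k) : 0 ≤ coeff N (P (dd 3) * U (dd 3) k) := by
  rw [coeff_P_mul_U ok3]
  rcases lt_or_ge (N : ℤ) (a (dd 3) 7) with h | h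
  · exact small_nonneg ok3 1 6 k N (chk3 N (by rw [a3] at h; omega)) hk hk h
  · exact large_nonneg ok3 6 bd3 (p_nonneg 3) k N hk h

lemma a4 : a (dd 4) 5 = 85 := by decide +kernel

lemma nn4 (k N : ℕ) (hk : 1 ≤ k) : 0 ≤ coeff N (P (dd 4) * U (dd 4) k) := by
  rw [coeff_P_mul_U ok4]
  rcases lt_or_ge (N : ℤ) (a (dd 4) 5) with h | h
  · exact small_nonneg ok4 1 4 k N (chk4 N (by rw [a4] at h; omega)) hk hk h
  · exact large_nonneg ok4 4 bd4 (p_nonneg 4) k N hk h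

lemma a5 : a (dd 5) 5 = 80 := by decide +kernel

lemma nn5 (k N : ℕ) (hk : 1 ≤ k) : 0 ≤ coeff N (P (dd 5) * U (dd 5) k) := by
  rw [coeff_P_mul_U ok5]
  rcases lt_or_ge (N : ℤ) (a (dd 5) 5) with h | h
  · exact small_nonneg ok5 1 4 k N (chk5 N (by rw [a5] at h; omega)) hk hk h
  · exact large_nonneg ok5 4 bd5 (p_nonneg 5) k N hk h

lemma a6 : a (dd 6) 5 = 75 := by decide +kernel

lemma nn6 (k N : ℕ) (hk : 1 ≤ k) : 0 ≤ coeff N (P (dd 6) * U (dd 6) k) := by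
  rw [coeff_P_mul_U ok6]
  rcases lt_or_ge (N : ℤ) (a (dd 6) 5) with h | h
  · exact small_nonneg ok6 1 4 k N (chk6 N (by rw [a6] at h; omega)) hk hk h
  · exact large_nonneg ok6 4 bd6 (p_nonneg 6) k N hk h

end Pool.Agent.R107.RRA
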