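import Pool.Agent.R107.TriRec

set_option autoImplicit false

namespace Pool.Agent.R107.Tri

open Finset

theorem polyE (m : ℝ) (hm : 0 ≤ m) : 0 ≤ P0 (m + 2) * (2 * (m + 3) ^ 2) -
    27 * (2 * (m + 2) ^ 2 + 1) * P1 (m + 2) := by
  have e : P0 (m + 2) * (2 * (m + 3) ^ 2) - 27 * (2 * (m + 2) ^ 2 + 1) * P1 (m + 2) =
      9174465 * m ^ 0 + 21368205 * m ^ 1 + 18006867 * m ^ 2 + 7474518 * m ^ 3 + 1653291 * m ^ 4 + 187029 * m ^ 5 + 8505 * m ^ 6 := by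
    unfold P0 P1; ring
  rw [e]; positivity

theorem polyE2 (m : ℝ) (hm : 0 ≤ m) : 0 ≤ 27 * ((m + 2) ^ 2 + 1) * P1 (m + 2) -
    P0 (m + 2) * (m + 3) ^ 2 := by
  have e : 27 * ((m + 2) ^ 2 + 1) * P1 (m + 2) - P0 (m + 2) * (m + 3) ^ 2 =
      16455960 * m ^ 0 + 22863060 * m ^ 1 + 13328874 * m ^ 2 + 4209408 * m ^ 3 + 767556 * m ^ 4 + 77436 * m ^ 5 + 3402 * m ^ 6 := by
    unfold P0 P1; ring
  rw [e]; positivity

theorem polyUp (m : ℝ) (hm : 0 ≤ m) :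
    (m + 5) ^ 2 * (P2 (m + 2) * (27 * (2 * (m + 2) ^ 2 + 1) * (27 * (2 * (m + 3) ^ 2 + 1))) +
      (P0 (m + 2) * (2 * (m + 3) ^ 2) - 27 * (2 * (m + 2) ^ 2 + 1) * P1 (m + 2)) *
        (2 * (m + 4) ^ 2)) ≤
    P3 (m + 2) * (27 * ((m + 4) ^ 2 + 1)) *
      (27 * (2 * (m + 2) ^ 2 + 1) * (27 * (2 * (m + 3) ^ 2 + 1))) := by
  have e : P3 (m + 2) * (27 * ((m + 4) ^ 2 + 1)) *
      (27 * (2 * (m + 2) ^ 2 + 1) * (27 * (2 * (m + 3) ^ 2 + 1))) -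
      (m + 5) ^ 2 * (P2 (m + 2) * (27 * (2 * (m + 2) ^ 2 + 1) * (27 * (2 * (m + 3) ^ 2 + 1))) +
      (P0 (m + 2) * (2 * (m + 3) ^ 2) - 27 * (2 * (m + 2) ^ 2 + 1) * P1 (m + 2)) *
        (2 * (m + 4) ^ 2)) =
      147112929000 * m ^ 0 + 422324693100 * m ^ 1 + 544321130760 * m ^ 2 + 413134701210 * m ^ 3 + 203837313240 * m ^ 4 + 68133651714 * m ^ 5 + 15589447758 * m ^ 6 + 2405976534 * m ^ 7 + 239214708 * m ^ 8 + 13806450 * m ^ 9 + 350406 * m ^ 10 := by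
    unfold P0 P1 P2 P3; ring
  have h : 0 ≤ 147112929000 * m ^ 0 + 422324693100 * m ^ 1 + 544321130760 * m ^ 2 + 413134701210 * m ^ 3 + 203837313240 * m ^ 4 + 68133651714 * m ^ 5 + 15589447758 * m ^ 6 + 2405976534 * m ^ 7 + 239214708 * m ^ 8 + 13806450 * m ^ 9 + 350406 * m ^ 10 := by positivity
  linarith

theorem polyLo (m : ℝ) (hm : 0 ≤ m) :
    P3 (m + 2) * (27 * (2 * (m + 4) ^ 2 + 1)) *
      (27 * ((m + 2) ^ 2 + 1) * (27 * (2 * (m + 3) ^ 2 + 1))) ≤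
    2 * (m + 5) ^ 2 * (P2 (m + 2) * (27 * ((m + 2) ^ 2 + 1) * (27 * (2 * (m + 3) ^ 2 + 1))) -
      (27 * ((m + 2) ^ 2 + 1) * P1 (m + 2) - P0 (m + 2) * (m + 3) ^ 2) *
        (2 * (m + 4) ^ 2)) := by
  have e : 2 * (m + 5) ^ 2 * (P2 (m + 2) * (27 * ((m + 2) ^ 2 + 1) * (27 * (2 * (m + 3) ^ 2 + 1))) -
      (27 * ((m + 2) ^ 2 + 1) * P1 (m + 2) - P0 (m + 2) * (m + 3) ^ 2) *
        (2 * (m + 4) ^ 2)) -
      P3 (m + 2) * (27 * (2 * (m + 4) ^ 2 + 1)) *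
      (27 * ((m + 2) ^ 2 + 1) * (27 * (2 * (m + 3) ^ 2 + 1))) =
      48647658375 * m ^ 0 + 165115561725 * m ^ 1 + 244591355160 * m ^ 2 + 210162618225 * m ^ 3 + 116611843104 * m ^ 4 + 43794489105 * m ^ 5 + 11293861914 * m ^ 6 + 1976565807 * m ^ 7 + 224755641 * m ^ 8 + 14994882 * m ^ 9 + 445662 * m ^ 10 := by
    unfold P0 P1 P2 P3; ring
  have h : 0 ≤ 48647658375 * m ^ 0 + 165115561725 * m ^ 1 + 244591355160 * m ^ 2 + 210162618225 * m ^ 3 + 116611843104 * m ^ 4 + 43794489105 * m ^ 5 + 11293861914 * m ^ 6 + 1976565807 * m ^ 7 + 224755641 * m ^ 8 + 14994882 * m ^ 9 + 445662 * m ^ 10 := by positivity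
  linarith

theorem fr_pos (k : ℕ) : 0 < fr k := by
  unfold fr
  apply sum_pos
  · intro j hj
    simp only [mem_range] at hj
    have : 0 < k.choose j := Nat.choose_pos (by omega)
    positivity
  · simp

theorem s_pos (n : ℕ) : 0 < s n := by
  unfold s
  apply sum_pos
  · intro j hj
    simp only [mem_range] at hj
    have : 0 < n.choose j := Nat.choose_pos (by omega)
    have := fr_pos j
    positivity
  · simp

theorem s_zero : s 0 = 1 := by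
  norm_num [s, fr, sum_range_succ, Nat.choose]

theorem s_one : s 1 = 3 := by
  norm_num [s, fr, sum_range_succ, Nat.choose]

theorem s_two : s 2 = 27 := by
  norm_num [s, fr, sum_range_succ, Nat.choose]

theorem s_three : s 3 = 381 := by
  have h := s_rec 0
  norm_num [P0, P1, P2, P3, s_zero, s_one, s_two] at h
  linarith

theorem s_four : s 4 = 6219 := by
  have h := s_rec 1
  norm_num [P0, P1, P2, P3, s_three, s_one, s_two] at h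
  linarith

theorem bounds (m : ℕ) :
    (27 * (2 * ((m : ℝ) + 2) ^ 2 + 1) * s (m + 2) ≤ 2 * ((m : ℝ) + 3) ^ 2 * s (m + 3) ∧
      ((m : ℝ) + 3) ^ 2 * s (m + 3) ≤ 27 * (((m : ℝ) + 2) ^ 2 + 1) * s (m + 2)) ∧
    (27 * (2 * ((m : ℝ) + 3) ^ 2 + 1) * s (m + 3) ≤ 2 * ((m : ℝ) + 4) ^ 2 * s (m + 4) ∧
      ((m : ℝ) + 4) ^ 2 * s (m + 4) ≤ 27 * (((m : ℝ) + 3) ^ 2 + 1) * s (m + 3)) := by
  induction m with
  | zero => norm_num [s_two, s_three, s_four]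
  | succ m ih =>
    obtain ⟨⟨l0, u0⟩, ⟨l1, u1⟩⟩ := ih
    have hm : (0 : ℝ) ≤ m := Nat.cast_nonneg m
    have c1 : (((m + 1 : ℕ) : ℝ)) = m + 1 := by push_cast; ring
    rw [c1]
    have q1 : (m : ℝ) + 1 + 2 = m + 3 := by ring
    have q2 : (m : ℝ) + 1 + 3 = m + 4 := by ring
    have q3 : (m : ℝ) + 1 + 4 = m + 5 := by ring
    rw [q1, q2, q3]
    have i1 : m + 1 + 2 = m + 3 := by ring
    have i2 : m + 1 + 3 = m + 4 := by ring
    have i3 : m + 1 + 4 = m + 5 := by ring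
    rw [i1, i2, i3]
    refine ⟨⟨l1, u1⟩, ?_⟩
    have hr := s_rec (m + 2)
    have cast : (((m + 2 : ℕ) : ℝ)) = m + 2 := by push_cast; ring
    rw [cast] at hr
    have j1 : m + 2 + 3 = m + 5 := by ring
    have j2 : m + 2 + 2 = m + 4 := by ring
    have j3 : m + 2 + 1 = m + 3 := by ring
    rw [j1, j2, j3] at hr
    have p2 := s_pos (m + 2)
    have p3 := s_pos (m + 3)
    have p4 := s_pos (m + 4)
    have p5 := s_pos (m + 5)
    have hP3 : 0 < P3 ((m : ℝ) + 2) := by unfold P3; positivity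
    have hP0 : 0 < P0 ((m : ℝ) + 2) := by unfold P0; positivity
    have hE := polyE (m : ℝ) hm
    have hE2 := polyE2 (m : ℝ) hm
    have hU := polyUp (m : ℝ) hm
    have hL := polyLo (m : ℝ) hm
    set A := P0 ((m : ℝ) + 2)
    set B := P1 ((m : ℝ) + 2)
    set C := P2 ((m : ℝ) + 2)
    set D := P3 ((m : ℝ) + 2)
    have ha : (0 : ℝ) < 27 * (2 * ((m : ℝ) + 2) ^ 2 + 1) := by positivity
    have ha1 : (0 : ℝ) < 27 * (2 * ((m : ℝ) + 3) ^ 2 + 1) := by positivity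
    have hu : (0 : ℝ) < 27 * (((m : ℝ) + 2) ^ 2 + 1) := by positivity
    have hn1 : (0 : ℝ) < 2 * ((m : ℝ) + 3) ^ 2 := by positivity
    have hn2 : (0 : ℝ) < 2 * ((m : ℝ) + 4) ^ 2 := by positivity
    have hn3 : (0 : ℝ) < ((m : ℝ) + 5) ^ 2 := by positivity
    constructor
    · -- lower bound
      -- from u0 : (m+3)^2 s1 ≤ u s0
      have t1 : A * (((m : ℝ) + 3) ^ 2 * s (m + 3)) ≤
          A * (27 * (((m : ℝ) + 2) ^ 2 + 1) * s (m + 2)) :=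
        mul_le_mul_of_nonneg_left u0 hP0.le
      -- u * D * s5 ≥ u*C*s4 - E2 * s3
      have t2 : 27 * (((m : ℝ) + 2) ^ 2 + 1) * (C * s (m + 4)) -
          (27 * (((m : ℝ) + 2) ^ 2 + 1) * B - A * ((m : ℝ) + 3) ^ 2) * s (m + 3) ≤
          27 * (((m : ℝ) + 2) ^ 2 + 1) * (D * s (m + 5)) := by
        rw [hr]; linarith
      have t3 : (27 * (((m : ℝ) + 2) ^ 2 + 1) * B - A * ((m : ℝ) + 3) ^ 2) *
          (27 * (2 * ((m : ℝ) + 3) ^ 2 + 1) * s (m + 3)) ≤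
          (27 * (((m : ℝ) + 2) ^ 2 + 1) * B - A * ((m : ℝ) + 3) ^ 2) *
          (2 * ((m : ℝ) + 4) ^ 2 * s (m + 4)) := mul_le_mul_of_nonneg_left l1 hE2
      have t4 := mul_le_mul_of_nonneg_right hL p4.le
      have t5 := mul_le_mul_of_nonneg_left t2 ha1.le
      have t6 : (2 * ((m : ℝ) + 5) ^ 2) * (27 * (2 * ((m : ℝ) + 3) ^ 2 + 1) *
          (27 * (((m : ℝ) + 2) ^ 2 + 1) * (C * s (m + 4)) -
          (27 * (((m : ℝ) + 2) ^ 2 + 1) * B - A * ((m : ℝ) + 3) ^ 2) * s (m + 3))) ≤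
          (2 * ((m : ℝ) + 5) ^ 2) * (27 * (2 * ((m : ℝ) + 3) ^ 2 + 1) *
          (27 * (((m : ℝ) + 2) ^ 2 + 1) * (D * s (m + 5)))) :=
        mul_le_mul_of_nonneg_left t5 (by positivity)
      have t7 := mul_le_mul_of_nonneg_left t3 (show (0 : ℝ) ≤ 2 * ((m : ℝ) + 5) ^ 2 by positivity)
      have hfin : (D * (27 * (((m : ℝ) + 2) ^ 2 + 1) * (27 * (2 * ((m : ℝ) + 3) ^ 2 + 1)))) *
          (27 * (2 * ((m : ℝ) + 4) ^ 2 + 1) * s (m + 4)) ≤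
          (D * (27 * (((m : ℝ) + 2) ^ 2 + 1) * (27 * (2 * ((m : ℝ) + 3) ^ 2 + 1)))) *
          (2 * ((m : ℝ) + 5) ^ 2 * s (m + 5)) := by
        linarith
      exact le_of_mul_le_mul_left hfin (by positivity)
    · -- upper bound
      have t1 : A * (27 * (2 * ((m : ℝ) + 2) ^ 2 + 1) * s (m + 2)) ≤
          A * (2 * ((m : ℝ) + 3) ^ 2 * s (m + 3)) :=
        mul_le_mul_of_nonneg_left l0 hP0.le
      have t2 : 27 * (2 * ((m : ℝ) + 2) ^ 2 + 1) * (D * s (m + 5)) ≤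
          27 * (2 * ((m : ℝ) + 2) ^ 2 + 1) * (C * s (m + 4)) +
          (A * (2 * ((m : ℝ) + 3) ^ 2) - 27 * (2 * ((m : ℝ) + 2) ^ 2 + 1) * B) * s (m + 3) := by
        rw [hr]; linarith
      have t3 : (A * (2 * ((m : ℝ) + 3) ^ 2) - 27 * (2 * ((m : ℝ) + 2) ^ 2 + 1) * B) *
          (27 * (2 * ((m : ℝ) + 3) ^ 2 + 1) * s (m + 3)) ≤
          (A * (2 * ((m : ℝ) + 3) ^ 2) - 27 * (2 * ((m : ℝ) + 2) ^ 2 + 1) * B) *
          (2 * ((m : ℝ) + 4) ^ 2 * s (m + 4)) := mul_le_mul_of_nonneg_left l1 hE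
      have t4 := mul_le_mul_of_nonneg_right hU p4.le
      have t5 := mul_le_mul_of_nonneg_left t2 ha1.le
      have t6 := mul_le_mul_of_nonneg_left t5 (show (0 : ℝ) ≤ ((m : ℝ) + 5) ^ 2 by positivity)
      have t7 := mul_le_mul_of_nonneg_left t3 (show (0 : ℝ) ≤ ((m : ℝ) + 5) ^ 2 by positivity)
      have hfin : (D * (27 * (2 * ((m : ℝ) + 2) ^ 2 + 1) * (27 * (2 * ((m : ℝ) + 3) ^ 2 + 1)))) *
          (((m : ℝ) + 5) ^ 2 * s (m + 5)) ≤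
          (D * (27 * (2 * ((m : ℝ) + 2) ^ 2 + 1) * (27 * (2 * ((m : ℝ) + 3) ^ 2 + 1)))) *
          (27 * (((m : ℝ) + 4) ^ 2 + 1) * s (m + 4)) := by
        linarith
      exact le_of_mul_le_mul_left hfin (by positivity)

end Pool.Agent.R107.Tri
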