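import Mathlib

/-!
# The recurrence of the sums of cubes of the trinomial coefficients
-/

set_option autoImplicit false

namespace Pool.Agent.R107.Tri

open Finset

theorem chooseA (n j : ℕ) : ((n : ℝ) + 1 - j) * ((n + 1).choose j : ℝ) =
    (n + 1) * (n.choose j : ℝ) := by
  rcases Nat.lt_or_ge (n + 1) j with h | h
  · rw [Nat.choose_eq_zero_of_lt h, Nat.choose_eq_zero_of_lt (by omega)]; simp
  · have h' := Nat.choose_mul_succ_eq n j
    have h'' : ((n.choose j : ℕ) : ℝ) * ((n + 1 : ℕ) : ℝ) =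
        ((n + 1).choose j : ℕ) * ((n + 1 - j : ℕ) : ℝ) := by exact_mod_cast h'
    rw [Nat.cast_sub h] at h''
    push_cast at h''
    linarith

theorem chooseB (n j : ℕ) : ((j : ℝ) + 1) * (n.choose (j + 1) : ℝ) =
    (n - j) * (n.choose j : ℝ) := by
  rcases Nat.lt_or_ge n j with h | h
  · rw [Nat.choose_eq_zero_of_lt h, Nat.choose_eq_zero_of_lt (by omega)]; simp
  · have h' := Nat.choose_succ_right_eq n j
    have h'' : ((n.choose (j + 1) : ℕ) : ℝ) * ((j + 1 : ℕ) : ℝ) =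
        (n.choose j : ℕ) * ((n - j : ℕ) : ℝ) := by exact_mod_cast h'
    rw [Nat.cast_sub h] at h''
    push_cast at h''
    linarith

/-- The Franel numbers. -/
noncomputable def fr (k : ℕ) : ℝ := ∑ j ∈ range (k + 1), ((k.choose j : ℕ) : ℝ) ^ 3

theorem fr_ext (k K : ℕ) (h : k < K) : ∑ j ∈ range K, ((k.choose j : ℕ) : ℝ) ^ 3 = fr k := by
  unfold fr
  symm
  apply sum_subset
  · intro x hx
    simp only [mem_range] at hx ⊢
    omega
  · intro x _ hx
    simp only [mem_range, not_lt] at hx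
    rw [Nat.choose_eq_zero_of_lt (by omega)]; simp

/-- certificate for the Franel numbers -/
noncomputable def GF (k j : ℕ) : ℝ :=
  ((k + 2).choose j : ℝ) ^ 3 * (j : ℝ) ^ 3 *
    (-(72 + 128 * k + 74 * (k : ℝ) ^ 2 + 14 * (k : ℝ) ^ 3) + (78 + 93 * k + 27 * (k : ℝ) ^ 2) * j
      - (30 + 18 * k) * (j : ℝ) ^ 2 + 4 * (j : ℝ) ^ 3) / (((k : ℝ) + 1) * ((k : ℝ) + 2) ^ 3)

theorem franel_tele (k J : ℕ) :
    ∑ j ∈ range J, (((k : ℝ) + 2) ^ 2 * ((k + 2).choose j : ℝ) ^ 3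
      - (7 * (k : ℝ) ^ 2 + 21 * k + 16) * ((k + 1).choose j : ℝ) ^ 3
      - 8 * ((k : ℝ) + 1) ^ 2 * (k.choose j : ℝ) ^ 3) = GF k J := by
  induction J with
  | zero => simp [GF]
  | succ J ih =>
    rw [sum_range_succ, ih]
    have h1 := chooseA (k + 1) J
    have h2 := chooseA k J
    have h3 := chooseB (k + 2) J
    have hk1 : ((k : ℝ) + 1) ≠ 0 := by positivity
    have hk2 : ((k : ℝ) + 2) ≠ 0 := by positivity
    have hJ : ((J : ℝ) + 1) ≠ 0 := by positivity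
    set c : ℝ := ((k + 2).choose J : ℝ) with hc
    have e1 : ((k + 1).choose J : ℝ) = c * (k + 2 - J) / (k + 2) := by
      rw [eq_div_iff hk2, hc]
      push_cast at h1 ⊢
      linarith
    have e2 : (k.choose J : ℝ) = c * (k + 2 - J) * (k + 1 - J) / ((k + 2) * (k + 1)) := by
      have : (k.choose J : ℝ) = ((k + 1).choose J : ℝ) * (k + 1 - J) / (k + 1) := by
        rw [eq_div_iff hk1]; linarith
      rw [this, e1]; field_simp
    have e3 : ((k + 2).choose (J + 1) : ℝ) = c * (k + 2 - J) / (J + 1) := by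
      rw [eq_div_iff hJ, hc]
      push_cast at h3 ⊢
      linarith
    unfold GF
    rw [e3, e1, e2, ← hc]
    push_cast
    field_simp
    ring

theorem franel_rec (k : ℕ) : ((k : ℝ) + 2) ^ 2 * fr (k + 2) =
    (7 * (k : ℝ) ^ 2 + 21 * k + 16) * fr (k + 1) + 8 * ((k : ℝ) + 1) ^ 2 * fr k := by
  have h := franel_tele k (k + 3)
  have hz : GF k (k + 3) = 0 := by
    unfold GF
    rw [Nat.choose_eq_zero_of_lt (by omega : k + 2 < k + 3)]
    simp
  rw [hz, sum_sub_distrib, sum_sub_distrib, ← mul_sum, ← mul_sum, ← mul_sum,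
    fr_ext (k + 2) (k + 3) (by omega), fr_ext (k + 1) (k + 3) (by omega),
    fr_ext k (k + 3) (by omega)] at h
  linarith

/-- The sum of the cubes of the trinomial coefficients. -/
noncomputable def s (n : ℕ) : ℝ := ∑ k ∈ range (n + 1), ((n.choose k : ℕ) : ℝ) ^ 3 * fr k

theorem s_ext (n K : ℕ) (h : n < K) :
    ∑ k ∈ range K, ((n.choose k : ℕ) : ℝ) ^ 3 * fr k = s n := by
  unfold s
  symm
  apply sum_subset
  · intro x hx
    simp only [mem_range] at hx ⊢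
    omega
  · intro x _ hx
    simp only [mem_range, not_lt] at hx
    rw [Nat.choose_eq_zero_of_lt (by omega)]; simp

noncomputable def P3 (n : ℝ) : ℝ := (n + 3) ^ 4 * (21 * n ^ 2 + 49 * n + 29)
noncomputable def P2 (n : ℝ) : ℝ :=
  567 * n ^ 6 + 6993 * n ^ 5 + 35433 * n ^ 4 + 94086 * n ^ 3 + 137565 * n ^ 2 + 104673 * n + 32379
noncomputable def P1 (n : ℝ) : ℝ :=
  567 * n ^ 6 + 5859 * n ^ 5 + 25479 * n ^ 4 + 59730 * n ^ 3 + 79569 * n ^ 2 + 57027 * n + 17145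
noncomputable def P0 (n : ℝ) : ℝ := 729 * (n + 1) ^ 4 * (21 * n ^ 2 + 91 * n + 99)

noncomputable def gam (n k : ℝ) : ℝ :=
  (-(1911 * n ^ 6 + 21595 * n ^ 5 + 100898 * n ^ 4 + 249225 * n ^ 3 + 342803 * n ^ 2 + 248560 * n
      + 74076)
    + (5544 * n ^ 5 + 52311 * n ^ 4 + 195858 * n ^ 3 + 363252 * n ^ 2 + 333189 * n + 120666) * k
    - (6111 * n ^ 4 + 46788 * n ^ 3 + 133291 * n ^ 2 + 167168 * n + 77715) * k ^ 2
    + (3024 * n ^ 3 + 18018 * n ^ 2 + 35550 * n + 23166) * k ^ 3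
    - (567 * n ^ 2 + 2457 * n + 2673) * k ^ 4)

noncomputable def GA (n k : ℝ) : ℝ :=
  k ^ 5 * (k - 1) * gam n (k - 1) - k * (n + 3 - k) ^ 3 * (7 * k ^ 2 + 7 * k + 2) * gam n k
noncomputable def GB (n k : ℝ) : ℝ := (k + 1) ^ 2 * k * (n + 3 - k) ^ 3 * gam n k

noncomputable def GS (n k : ℕ) : ℝ :=
  ((n + 3).choose k : ℝ) ^ 3 * (GA n k * fr k + GB n k * fr (k + 1)) /
    (((n : ℝ) + 2) * (n + 3)) ^ 3

theorem key (n k c u v w : ℝ) (_h1 : n + 1 ≠ 0) (h2 : n + 2 ≠ 0) (h3 : n + 3 ≠ 0) (hk : k + 1 ≠ 0)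
    (hk2 : k + 2 ≠ 0)
    (hw : (k + 2) ^ 2 * w = (7 * k ^ 2 + 21 * k + 16) * v + 8 * (k + 1) ^ 2 * u) :
    c ^ 3 * (GA n k * u + GB n k * v) / ((n + 2) * (n + 3)) ^ 3 +
      (P3 n * c ^ 3 - P2 n * (c * (n + 3 - k) / (n + 3)) ^ 3
        + P1 n * (c * (n + 3 - k) * (n + 2 - k) / ((n + 3) * (n + 2))) ^ 3
        - P0 n * (c * (n + 3 - k) * (n + 2 - k) * (n + 1 - k) / ((n + 3) * (n + 2) * (n + 1))) ^ 3)
        * u =
    (c * (n + 3 - k) / (k + 1)) ^ 3 * (GA n (k + 1) * v + GB n (k + 1) * w) /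
      ((n + 2) * (n + 3)) ^ 3 := by
  have hw' : w = ((7 * k ^ 2 + 21 * k + 16) * v + 8 * (k + 1) ^ 2 * u) / (k + 2) ^ 2 := by
    rw [eq_div_iff (by positivity)]; linarith
  rw [hw']
  unfold GA GB P3 P2 P1 P0 gam
  field_simp
  ring

theorem s_tele (n K : ℕ) :
    ∑ k ∈ range K, (P3 n * ((n + 3).choose k : ℝ) ^ 3 - P2 n * ((n + 2).choose k : ℝ) ^ 3
      + P1 n * ((n + 1).choose k : ℝ) ^ 3 - P0 n * (n.choose k : ℝ) ^ 3) * fr k = GS n K := by
  induction K with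
  | zero => simp [GS, GA, GB]
  | succ K ih =>
    rw [sum_range_succ, ih]
    have a1 := chooseA (n + 2) K
    have a2 := chooseA (n + 1) K
    have a3 := chooseA n K
    have b1 := chooseB (n + 3) K
    have hn1 : ((n : ℝ) + 1) ≠ 0 := by positivity
    have hn2 : ((n : ℝ) + 2) ≠ 0 := by positivity
    have hn3 : ((n : ℝ) + 3) ≠ 0 := by positivity
    have hK : ((K : ℝ) + 1) ≠ 0 := by positivity
    have hK2 : ((K : ℝ) + 2) ≠ 0 := by positivity
    have e1 : ((n + 2).choose K : ℝ) = ((n + 3).choose K : ℝ) * (n + 3 - K) / (n + 3) := by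
      rw [eq_div_iff hn3]
      push_cast at a1 ⊢
      linarith
    have e2 : ((n + 1).choose K : ℝ) =
        ((n + 3).choose K : ℝ) * (n + 3 - K) * (n + 2 - K) / ((n + 3) * (n + 2)) := by
      have : ((n + 1).choose K : ℝ) = ((n + 2).choose K : ℝ) * (n + 2 - K) / (n + 2) := by
        rw [eq_div_iff hn2]
        push_cast at a2 ⊢
        linarith
      rw [this, e1]; field_simp
    have e3 : (n.choose K : ℝ) = ((n + 3).choose K : ℝ) * (n + 3 - K) * (n + 2 - K) *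
        (n + 1 - K) / ((n + 3) * (n + 2) * (n + 1)) := by
      have : (n.choose K : ℝ) = ((n + 1).choose K : ℝ) * (n + 1 - K) / (n + 1) := by
        rw [eq_div_iff hn1]; linarith
      rw [this, e2]; field_simp
    have e4 : ((n + 3).choose (K + 1) : ℝ) = ((n + 3).choose K : ℝ) * (n + 3 - K) / (K + 1) := by
      rw [eq_div_iff hK]
      push_cast at b1 ⊢
      linarith
    have hf := franel_rec K
    have hkey := key (n : ℝ) (K : ℝ) ((n + 3).choose K : ℝ) (fr K) (fr (K + 1)) (fr (K + 2))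
      hn1 hn2 hn3 hK hK2 hf
    unfold GS
    rw [e1, e2, e3, e4]
    push_cast
    have e5 : fr (K + 1 + 1) = fr (K + 2) := rfl
    rw [e5, ← hkey]

theorem s_rec (n : ℕ) : P3 n * s (n + 3) = P2 n * s (n + 2) - P1 n * s (n + 1) + P0 n * s n := by
  have h := s_tele n (n + 4)
  have hz : GS n (n + 4) = 0 := by
    unfold GS
    rw [Nat.choose_eq_zero_of_lt (by omega : n + 3 < n + 4)]
    simp
  rw [hz] at h
  have h1 := s_ext (n + 3) (n + 4) (by omega)
  have h2 := s_ext (n + 2) (n + 4) (by omega)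
  have h3 := s_ext (n + 1) (n + 4) (by omega)
  have h4 := s_ext n (n + 4) (by omega)
  have e : ∑ k ∈ range (n + 4), (P3 n * ((n + 3).choose k : ℝ) ^ 3
      - P2 n * ((n + 2).choose k : ℝ) ^ 3
      + P1 n * ((n + 1).choose k : ℝ) ^ 3 - P0 n * (n.choose k : ℝ) ^ 3) * fr k =
      P3 n * s (n + 3) - P2 n * s (n + 2) + P1 n * s (n + 1) - P0 n * s n := by
    rw [← h1, ← h2, ← h3, ← h4, mul_sum, mul_sum, mul_sum, mul_sum, ← sum_sub_distrib,
      ← sum_add_distrib, ← sum_sub_distrib]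
    apply sum_congr rfl
    intro k _
    ring
  rw [e] at h
  linarith

end Pool.Agent.R107.Tri
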